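import Pool.Agent.H15.RX.SIE

/-!
# BEZ: a combination `u g + v h = R` with small integer coefficients

`bez`: unknowns: the coefficients of `u` (degree `< d2`) and of `v` (degree `< d1`), indexed by
`Fin d2 ⊕ Fin d1` (`d1 + d2` of them). Equations: the coefficients of `z^1, ..., z^(d1+d2-1)` of
`u g + v h` vanish, indexed by `Fin (d1 + d2 - 1)` (all coefficients of higher degree vanish anyway:
degrees `< d1 + d2`). Matrix entries: `g.coeff (k + 1 - i)` if `i ≤ k + 1` and `0` otherwise, same for `h`: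
absolute value at most `B`. `siegel_rank` with `r = d1 + d2 - 1` (`Matrix.rank_le_card_height`),
`e = d1 + d2`, `T = B` (or Mathlib's Siegel lemma directly). So `u g + v h = C R`. `R ≠ 0`: otherwise
`u g = - v h`, and `g` divides `v h` over `ℚ`, is coprime to `h`, so divides `v`, of degree `< d1`: `v = 0`
over `ℚ`, so over `ℤ`, then `u g = 0`, `u = 0` (`g` monic), against `p ≠ 0`.

`bez_low`: `1 ≤ |R| ≤ |u(z)| |g(z)| + |v(z)| |h(z)|`, `|u(z)|, |v(z)| ≤ d (d B)^d Z^d`, `d = d1 + d2`.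
-/

set_option autoImplicit false

namespace Pool.Agent.H15.RX

open Finset Polynomial

private theorem coeff_sum_mul {n : ℕ} (a : Fin n → ℤ) (g : ℤ[X]) (k : ℕ) :
    ((∑ i : Fin n, C (a i) * X ^ (i : ℕ)) * g).coeff k =
      ∑ i : Fin n, (if (i : ℕ) ≤ k then g.coeff (k - i) else 0) * a i := by
  rw [Finset.sum_mul, finsetSum_coeff]
  refine Finset.sum_congr rfl fun i _ => ?_
  rw [mul_assoc, coeff_C_mul, coeff_X_pow_mul', mul_comm]

private theorem coeff_sum {n : ℕ} (a : Fin n → ℤ) (k : ℕ) :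
    (∑ i : Fin n, C (a i) * X ^ (i : ℕ) : ℤ[X]).coeff k = if h : k < n then a ⟨k, h⟩ else 0 := by
  rw [finsetSum_coeff]
  simp only [coeff_C_mul, coeff_X_pow]
  split_ifs with h
  · rw [Finset.sum_eq_single (⟨k, h⟩ : Fin n)]
    · simp
    · intro b _ hb
      rw [if_neg, mul_zero]
      intro h'
      exact hb (Fin.ext h'.symm)
    · intro h'
      exact absurd (Finset.mem_univ _) h'
  · refine Finset.sum_eq_zero fun i _ => ?_
    rw [if_neg, mul_zero]
    intro h'
    exact h (h' ▸ i.2)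

theorem bez {g h : ℤ[X]} {d1 d2 : ℕ} (hg : g.Monic) (hh : h.Monic) (hd1 : g.natDegree = d1)
    (hd2 : h.natDegree = d2) (h1 : 1 ≤ d1) (h2 : 1 ≤ d2)
    (hcop : IsCoprime (g.map (Int.castRingHom ℚ)) (h.map (Int.castRingHom ℚ))) {B : ℕ} (hB : 1 ≤ B)
    (hgB : ∀ i, |g.coeff i| ≤ (B : ℤ)) (hhB : ∀ i, |h.coeff i| ≤ (B : ℤ)) :
    ∃ (u v : ℤ[X]) (R : ℤ), R ≠ 0 ∧ u * g + v * h = C R ∧ u.natDegree < d2 ∧ v.natDegree < d1 ∧
      (∀ i, |u.coeff i| ≤ ((((d1 + d2) * B) ^ (d1 + d2) : ℕ) : ℤ)) ∧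
      ∀ i, |v.coeff i| ≤ ((((d1 + d2) * B) ^ (d1 + d2) : ℕ) : ℤ) := by
  have hcard : Fintype.card (Fin d2 ⊕ Fin d1) = d1 + d2 := by
    rw [Fintype.card_sum, Fintype.card_fin, Fintype.card_fin, add_comm]
  obtain ⟨p, hp0, hp, hpb⟩ := siegel_rank
    (Matrix.of fun (a : Fin (d1 + d2 - 1)) (b : Fin d2 ⊕ Fin d1) =>
      Sum.elim (fun i : Fin d2 => if (i : ℕ) ≤ a + 1 then g.coeff (a + 1 - i) else 0)
        (fun i : Fin d1 => if (i : ℕ) ≤ a + 1 then h.coeff (a + 1 - i) else 0) b)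
    (d1 + d2 - 1) (d1 + d2) B hB (by
      intro a b
      rcases b with i | i
      · simp only [Matrix.of_apply, Sum.elim_inl]
        split_ifs
        · exact hgB _
        · simp
      · simp only [Matrix.of_apply, Sum.elim_inr]
        split_ifs
        · exact hhB _
        · simp) ((Matrix.rank_le_card_height _).trans (by rw [Fintype.card_fin]))
    (by rw [hcard]; omega) (by
      rw [hcard]
      have : d1 + d2 - (d1 + d2 - 1) = 1 := by omega
      rw [this]
      omega)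
  rw [hcard] at hpb
  obtain ⟨u, hu⟩ : ∃ u : ℤ[X], u = ∑ i : Fin d2, C (p (Sum.inl i)) * X ^ (i : ℕ) := ⟨_, rfl⟩
  obtain ⟨v, hv⟩ : ∃ v : ℤ[X], v = ∑ i : Fin d1, C (p (Sum.inr i)) * X ^ (i : ℕ) := ⟨_, rfl⟩
  have huc : ∀ k, u.coeff k = if h : k < d2 then p (Sum.inl ⟨k, h⟩) else 0 := fun k => by
    rw [hu]
    exact coeff_sum (fun i => p (Sum.inl i)) k
  have hvc : ∀ k, v.coeff k = if h : k < d1 then p (Sum.inr ⟨k, h⟩) else 0 := fun k => by
    rw [hv]
    exact coeff_sum (fun i => p (Sum.inr i)) k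
  have hud : u.natDegree < d2 := by
    have : u.natDegree ≤ d2 - 1 := by
      rw [natDegree_le_iff_coeff_eq_zero]
      intro k hk
      rw [huc, dif_neg (by omega)]
    omega
  have hvd : v.natDegree < d1 := by
    have : v.natDegree ≤ d1 - 1 := by
      rw [natDegree_le_iff_coeff_eq_zero]
      intro k hk
      rw [hvc, dif_neg (by omega)]
    omega
  have hsum : ∀ k, 1 ≤ k → (u * g + v * h).coeff k = 0 := by
    intro k hk
    rcases Nat.lt_or_ge k (d1 + d2) with hkd | hkd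
    · have h3 := hp ⟨k - 1, by omega⟩
      rw [Fintype.sum_sum_type] at h3
      simp only [Matrix.of_apply, Sum.elim_inl, Sum.elim_inr] at h3
      have h4 : k - 1 + 1 = k := by omega
      rw [h4] at h3
      rw [coeff_add, hu, hv, coeff_sum_mul, coeff_sum_mul]
      exact h3
    · refine coeff_eq_zero_of_natDegree_lt ?_
      refine lt_of_le_of_lt (natDegree_add_le _ _) (max_lt ?_ ?_)
      · refine lt_of_le_of_lt natDegree_mul_le ?_
        omega
      · refine lt_of_le_of_lt natDegree_mul_le ?_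
        omega
  have hC : u * g + v * h = C ((u * g + v * h).coeff 0) := by
    refine eq_C_of_natDegree_le_zero ?_
    rw [natDegree_le_iff_coeff_eq_zero]
    intro k hk
    exact hsum k hk
  refine ⟨u, v, (u * g + v * h).coeff 0, ?_, hC, hud, hvd, fun i => ?_, fun i => ?_⟩
  · intro h0
    rw [h0, C_0] at hC
    have h5 : v.map (Int.castRingHom ℚ) = 0 := by
      have h6 : g.map (Int.castRingHom ℚ) ∣ v.map (Int.castRingHom ℚ) := by
        refine hcop.dvd_of_dvd_mul_right ?_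
        refine ⟨-u.map (Int.castRingHom ℚ), ?_⟩
        have h7 := congrArg (Polynomial.map (Int.castRingHom ℚ)) hC
        rw [Polynomial.map_add, Polynomial.map_mul, Polynomial.map_mul, Polynomial.map_zero] at h7
        linear_combination h7
      refine eq_zero_of_dvd_of_natDegree_lt h6 ?_
      rw [hg.natDegree_map, hd1]
      exact lt_of_le_of_lt natDegree_map_le hvd
    have h8 : v = 0 := by
      have := Polynomial.map_injective (Int.castRingHom ℚ) Int.cast_injective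
      apply this
      rw [h5, Polynomial.map_zero]
    rw [h8, zero_mul, add_zero] at hC
    have h9 : u = 0 := by
      rcases mul_eq_zero.mp hC with h | h
      · exact h
      · exact absurd h hg.ne_zero
    apply hp0
    funext b
    rcases b with i | i
    · have := huc i
      rw [h9, coeff_zero, dif_pos i.2] at this
      exact this.symm
    · have := hvc i
      rw [h8, coeff_zero, dif_pos i.2] at this
      exact this.symm
  · rw [huc]
    split_ifs
    · exact hpb _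
    · rw [abs_zero]
      positivity
  · rw [hvc]
    split_ifs
    · exact hpb _
    · rw [abs_zero]
      positivity

private theorem aeval_bd {u : ℤ[X]} {d : ℕ} (hu : u.natDegree < d) {K Z : ℕ} (hZ : 1 ≤ Z)
    (hK : ∀ i, |u.coeff i| ≤ (K : ℤ)) {z : ℝ} (hz : |z| ≤ (Z : ℝ)) :
    |aeval z u| ≤ (d : ℝ) * (K * (Z : ℝ) ^ d) := by
  have hZ' : (1 : ℝ) ≤ Z := by exact_mod_cast hZ
  rw [aeval_eq_sum_range' hu]
  refine (Finset.abs_sum_le_sum_abs _ _).trans ?_
  have h1 : ∀ i ∈ range d, |u.coeff i • z ^ i| ≤ K * (Z : ℝ) ^ d := by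
    intro i hi
    rw [zsmul_eq_mul, abs_mul, abs_pow]
    refine mul_le_mul ?_ ?_ (by positivity) (by positivity)
    · have := hK i
      rw [← Int.cast_abs]
      exact_mod_cast this
    · refine (pow_le_pow_left₀ (abs_nonneg _) hz i).trans ?_
      exact pow_le_pow_right₀ hZ' (Finset.mem_range.mp hi).le
  refine (Finset.sum_le_sum h1).trans (le_of_eq ?_)
  rw [Finset.sum_const, card_range, nsmul_eq_mul]

theorem bez_low {g h : ℤ[X]} {d d1 d2 : ℕ} (hg : g.Monic) (hh : h.Monic) (hd1 : g.natDegree = d1)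
    (hd2 : h.natDegree = d2) (h1 : 1 ≤ d1) (h2 : 1 ≤ d2) (hd : d1 + d2 = d)
    (hcop : IsCoprime (g.map (Int.castRingHom ℚ)) (h.map (Int.castRingHom ℚ))) {B : ℕ} (hB : 1 ≤ B)
    (hgB : ∀ i, |g.coeff i| ≤ (B : ℤ)) (hhB : ∀ i, |h.coeff i| ≤ (B : ℤ)) {Z : ℕ} (hZ : 1 ≤ Z)
    {z : ℝ} (hz : |z| ≤ (Z : ℝ)) :
    1 ≤ ((2 * d * (d * B * Z) ^ d : ℕ) : ℝ) * |aeval z g| ∨
      1 ≤ ((2 * d * (d * B * Z) ^ d : ℕ) : ℝ) * |aeval z h| := by
  obtain ⟨u, v, R, hR, huv, hu, hv, hub, hvb⟩ := bez hg hh hd1 hd2 h1 h2 hcop hB hgB hhB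
  rw [hd] at hub hvb
  have hu' := aeval_bd (lt_of_lt_of_le hu (by omega : d2 ≤ d)) hZ hub hz
  have hv' := aeval_bd (lt_of_lt_of_le hv (by omega : d1 ≤ d)) hZ hvb hz
  have hR1 : (1 : ℝ) ≤ |(R : ℝ)| := by
    rw [← Int.cast_abs]
    exact_mod_cast Int.one_le_abs hR
  have h3 : aeval z u * aeval z g + aeval z v * aeval z h = (R : ℝ) := by
    have := congrArg (aeval z) huv
    rw [map_add, map_mul, map_mul, aeval_C] at this
    rw [this]
    rfl
  have h4 : |(R : ℝ)| ≤ |aeval z u| * |aeval z g| + |aeval z v| * |aeval z h| := by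
    rw [← h3, ← abs_mul, ← abs_mul]
    exact abs_add_le _ _
  have hK : ((2 * d * (d * B * Z) ^ d : ℕ) : ℝ) =
      2 * ((d : ℝ) * ((((d * B) ^ d : ℕ) : ℝ) * (Z : ℝ) ^ d)) := by
    push_cast
    rw [mul_pow ((d : ℝ) * B) (Z : ℝ)]
    ring
  rw [hK]
  by_contra hcon
  push Not at hcon
  have h5 : |aeval z u| * |aeval z g| ≤
      (d : ℝ) * ((((d * B) ^ d : ℕ) : ℝ) * (Z : ℝ) ^ d) * |aeval z g| :=
    mul_le_mul_of_nonneg_right hu' (abs_nonneg _)
  have h6 : |aeval z v| * |aeval z h| ≤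
      (d : ℝ) * ((((d * B) ^ d : ℕ) : ℝ) * (Z : ℝ) ^ d) * |aeval z h| :=
    mul_le_mul_of_nonneg_right hv' (abs_nonneg _)
  linarith [hcon.1, hcon.2]

end Pool.Agent.H15.RX
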