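import Pool.Agent.H15.FX.FIN

/-!
# CTC: contact with the asymptotes

`contact_order`: if `F(X, tX + b)` has degree at least `n - 1 - r` for all real `t`, `b`, then each expansion
at infinity has a coefficient `coeff k v ≠ 0`, `2 ≤ k ≤ r + 1`. `top_any`: at most `39 n^4` polynomials `F`
with `deg (F - G) ≤ n - 3 - r` have a huge zero.
-/

set_option autoImplicit false

namespace Pool.Agent.H15.RX

open Finset Polynomial Pool.Agent.H72.ES Pool.Agent.H8.UL Pool.Agent.H15.FX

theorem ev_nrmS {S : Type*} [CommRing S] {n : ℕ} (hn : 1 ≤ n) (G : ℕ → ℕ → ℤ) (x y : S) :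
    ev n (cst S (nrm n G)) x ((G 0 n : S) * y) = (G 0 n : S) ^ (n - 1) * ev n (cst S G) x y := by
  unfold ev
  rw [mul_sum]
  refine sum_congr rfl fun i hi => ?_
  rw [mul_sum]
  refine sum_congr rfl fun j hj => ?_
  simp only [mem_range] at hi hj
  unfold cst nrm
  split_ifs with h
  · subst h
    have h1 : i = 0 := by omega
    subst h1
    rw [mul_pow, pow_zero]
    have h2 : (G 0 j : S) ^ j = (G 0 j : S) ^ (j - 1) * (G 0 j : S) := by
      rw [← pow_succ]
      congr 1
      omega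
    rw [h2]
    push_cast
    ring
  · have h2 : (G 0 n : S) ^ (n - 1) = (G 0 n : S) ^ (n - 1 - j) * (G 0 n : S) ^ j := by
      rw [← pow_add]
      congr 1
      omega
    rw [mul_pow, h2]
    push_cast
    ring

theorem reflect_sum {ι : Type*} (N : ℕ) (s : Finset ι) (f : ι → ℝ[X]) :
    reflect N (∑ i ∈ s, f i) = ∑ i ∈ s, reflect N (f i) := by
  classical
  induction s using Finset.induction_on with
  | empty => rw [sum_empty, sum_empty, reflect_zero]
  | insert a s ha ih => rw [sum_insert ha, sum_insert ha, reflect_add, ih]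

theorem lin_deg (θ β : ℝ) : (C θ + C β * X : ℝ[X]).natDegree ≤ 1 := by
  rw [add_comm]
  exact natDegree_linear_le

theorem reflect_lin (θ β : ℝ) : reflect 1 (C θ + C β * X : ℝ[X]) = C θ * X + C β := by
  have h1 : (C θ + C β * X : ℝ[X]) = C θ * X ^ 0 + C β * X ^ 1 := by
    rw [pow_zero, mul_one, pow_one]
  rw [h1, reflect_add, reflect_C_mul_X_pow, reflect_C_mul_X_pow, revAt_le (Nat.zero_le 1),
    revAt_le le_rfl]
  simp

theorem lin_pow_deg (θ β : ℝ) (j : ℕ) : ((C θ + C β * X : ℝ[X]) ^ j).natDegree ≤ j := by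
  have := natDegree_pow_le_of_le j (lin_deg θ β)
  omega

theorem reflect_lin_pow (θ β : ℝ) (j : ℕ) :
    reflect j ((C θ + C β * X : ℝ[X]) ^ j) = (C θ * X + C β) ^ j := by
  induction j with
  | zero =>
    rw [pow_zero, pow_zero]
    have h1 : (1 : ℝ[X]) = C 1 * X ^ 0 := by simp
    rw [h1, reflect_C_mul_X_pow, revAt_le le_rfl]
  | succ j ih =>
    rw [pow_succ, pow_succ, reflect_mul _ _ (lin_pow_deg θ β j) (lin_deg θ β), ih, reflect_lin]

/-- the two polynomials attached to the line `y = θ x + β` -/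
theorem reflect_evt (n : ℕ) (c : ℕ → ℕ → ℤ) (θ β : ℝ) :
    reflect n (evt n (cst ℝ[X] c) X (C θ + C β * X)) = ev n (cst ℝ[X] c) X (C θ * X + C β) := by
  unfold evt ev
  rw [reflect_sum]
  refine sum_congr rfl fun i hi => ?_
  rw [reflect_sum]
  refine sum_congr rfl fun j hj => ?_
  simp only [mem_range] at hi hj
  unfold cst
  have h1 : ((c i j : ℤ) : ℝ[X]) = C ((c i j : ℤ) : ℝ) := by simp
  have h2 : n = (n - j) + j := by omega
  rw [h1, mul_assoc, reflect_C_mul]
  conv_lhs => rw [h2]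
  have h3 : n - j + j - i - j = n - j - i := by omega
  rw [h3, reflect_mul _ _ (by rw [natDegree_X_pow]; omega) (lin_pow_deg θ β j), reflect_monomial,
    reflect_lin_pow, revAt_le (by omega)]
  have h4 : n - j - (n - j - i) = i := by omega
  rw [h4, mul_assoc]

theorem evt_deg (n : ℕ) (c : ℕ → ℕ → ℤ) (θ β : ℝ) :
    (evt n (cst ℝ[X] c) X (C θ + C β * X)).natDegree ≤ n := by
  unfold evt
  refine natDegree_sum_le_of_forall_le _ _ fun i hi => ?_
  refine natDegree_sum_le_of_forall_le _ _ fun j hj => ?_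
  simp only [mem_range] at hi hj
  unfold cst
  have h1 : ((c i j : ℤ) : ℝ[X]) = C ((c i j : ℤ) : ℝ) := by simp
  rw [h1, mul_assoc]
  refine (natDegree_C_mul_le _ _).trans (natDegree_mul_le.trans ?_)
  have h2 := lin_pow_deg θ β j
  rw [natDegree_X_pow]
  omega

/-- a polynomial in `z` takes congruent values at congruent arguments -/
theorem evt_dvd {S : Type*} [CommRing S] (n : ℕ) (c : ℕ → ℕ → S) (t z w : S) :
    z - w ∣ evt n c t z - evt n c t w := by
  unfold evt
  rw [← sum_sub_distrib]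
  refine dvd_sum fun i _ => ?_
  rw [← sum_sub_distrib]
  refine dvd_sum fun j _ => ?_
  rw [← mul_sub]
  exact (sub_dvd_pow_sub_pow z w j).mul_left _

theorem evt_coe (n : ℕ) (c : ℕ → ℕ → ℤ) (θ β : ℝ) :
    ((evt n (cst ℝ[X] c) X (C θ + C β * X) : ℝ[X]) : PowerSeries ℝ) =
      evt n (cst (PowerSeries ℝ) c) PowerSeries.X
        (PowerSeries.C θ + PowerSeries.C β * PowerSeries.X) := by
  have h := evt_map (Polynomial.coeToPowerSeries.ringHom (R := ℝ)) n (cst ℝ[X] c) X
    (C θ + C β * X)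
  rw [cst_map, map_add, map_mul] at h
  simpa using h

/-- an expansion whose coefficients `2, .., r + 1` vanish -/
theorem contact_deg {n r : ℕ} (hrn : r + 2 ≤ n) (c : ℕ → ℕ → ℤ) {θ : ℝ} {v : PowerSeries ℝ}
    (hv : Xp n c θ v) (h0 : ∀ k, 2 ≤ k → k ≤ r + 1 → PowerSeries.coeff k v = 0) :
    (ev n (cst ℝ[X] c) X (C θ * X + C (PowerSeries.coeff 1 v))).natDegree ≤ n - 2 - r := by
  set β := PowerSeries.coeff 1 v with hβ
  set q : ℝ[X] := evt n (cst ℝ[X] c) X (C θ + C β * X) with hq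
  have h1 : (PowerSeries.X : PowerSeries ℝ) ^ (r + 2) ∣
      v - PowerSeries.C β * PowerSeries.X := by
    rw [PowerSeries.X_pow_dvd_iff]
    intro m hm
    rw [map_sub, PowerSeries.coeff_C_mul, PowerSeries.coeff_X]
    rcases Nat.lt_or_ge m 2 with h2 | h2
    · have h3 : m = 0 ∨ m = 1 := by omega
      rcases h3 with h3 | h3
      · subst h3
        have h4 : PowerSeries.coeff 0 v = 0 := by
          rw [PowerSeries.coeff_zero_eq_constantCoeff_apply]
          exact hv.h0
        rw [h4]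
        simp
      · subst h3
        rw [if_pos rfl, mul_one, hβ, sub_self]
    · rw [h0 m h2 (by omega), if_neg (by omega), mul_zero, sub_zero]
  have h2 : (PowerSeries.X : PowerSeries ℝ) ^ (r + 2) ∣ (q : PowerSeries ℝ) := by
    rw [hq, evt_coe]
    have h3 := evt_dvd n (cst (PowerSeries ℝ) c) PowerSeries.X (PowerSeries.C θ + v)
      (PowerSeries.C θ + PowerSeries.C β * PowerSeries.X)
    rw [hv.eq, zero_sub, add_sub_add_left_eq_sub, dvd_neg] at h3
    exact h1.trans h3
  have h3 : ∀ m < r + 2, q.coeff m = 0 := by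
    intro m hm
    rw [← Polynomial.coeff_coe]
    exact PowerSeries.X_pow_dvd_iff.1 h2 m hm
  rw [← reflect_evt, ← hq, natDegree_le_iff_coeff_eq_zero]
  intro k hk
  rw [coeff_reflect]
  rcases Nat.lt_or_ge n k with h4 | h4
  · rw [revAt_eq_self_of_lt h4]
    refine coeff_eq_zero_of_natDegree_lt (lt_of_le_of_lt (evt_deg n c θ β) h4)
  · rw [revAt_le h4]
    exact h3 _ (by omega)

theorem contact_order {n r : ℕ} (hr : 1 ≤ r) (hrn : r + 3 ≤ n) {F : MvPolynomial (Fin 2) ℤ}
    (hF : F.totalDegree ≤ n) (ha : arrM F 0 n ≠ 0)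
    (hc : ∀ t b : ℝ, n - 1 - r ≤ (MvPolynomial.aeval ![X, C t * X + C b] F : ℝ[X]).natDegree)
    {θ : ℝ} {v : PowerSeries ℝ} (hv : Xp n (nf n F) θ v) :
    ∃ k, 2 ≤ k ∧ k ≤ r + 1 ∧ PowerSeries.coeff k v ≠ 0 := by
  by_contra hcon
  push Not at hcon
  have h1 := contact_deg (by omega : r + 2 ≤ n) (nf n F) hv hcon
  set β := PowerSeries.coeff 1 v with hβ
  set a : ℝ := ((arrM F 0 n : ℤ) : ℝ) with ha'
  have ha0 : a ≠ 0 := by
    rw [ha']
    exact_mod_cast ha
  have h2 := hc (θ / a) (β / a)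
  have h3 : MvPolynomial.aeval ![X, C (θ / a) * X + C (β / a)] F =
      ev n (cst ℝ[X] (arrM F)) X (C (θ / a) * X + C (β / a)) := by
    rw [← eval₂_arrM hF, MvPolynomial.aeval_def]
    congr 1
  have h4 := ev_nrmS (S := ℝ[X]) (by omega : 1 ≤ n) (arrM F) X (C (θ / a) * X + C (β / a))
  have h5 : ((arrM F 0 n : ℤ) : ℝ[X]) = C a := by
    rw [ha']
    simp
  have h6 : C a * (C (θ / a) * X + C (β / a)) = C θ * X + C β := by
    rw [mul_add, ← mul_assoc, ← C_mul, ← C_mul, mul_div_cancel₀ _ ha0, mul_div_cancel₀ _ ha0]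
  rw [h5, h6] at h4
  have h7 : ev n (cst ℝ[X] (nf n F)) X (C θ * X + C β) = ev n (cst ℝ[X] (nrm n (arrM F))) X
      (C θ * X + C β) := rfl
  rw [h7, h4, ← C_pow, natDegree_C_mul (pow_ne_zero _ ha0), ← h3] at h1
  omega

theorem top_any {n r : ℕ} (hr : 1 ≤ r) (hrn : r + 3 ≤ n) (G : MvPolynomial (Fin 2) ℤ)
    (hG : G.totalDegree = n) (hirr : Irreducible (MvPolynomial.map (Int.castRingHom ℚ)
      (MvPolynomial.homogeneousComponent n G)))
    (hc : ∀ t b : ℝ, n - 1 - r ≤ (MvPolynomial.aeval ![X, C t * X + C b] G : ℝ[X]).natDegree)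
    (S : Finset (MvPolynomial (Fin 2) ℤ))
    (hS : ∀ F ∈ S, (F - G).totalDegree ≤ n - 3 - r ∧ Hug n F) : S.card ≤ 39 * n ^ 4 := by
  classical
  have hn : 4 ≤ n := by omega
  obtain ⟨ha, hirr'⟩ := leadQ_of_irreducible (by omega : 2 ≤ n) hirr
  have hag : ∀ F ∈ S, ∀ i j, n - 3 - r < i + j → arrM F i j = arrM G i j := by
    intro F hF i j hij
    have h1 := arrM_supp (hS F hF).1 i j hij
    have h2 : arrM (F - G) i j = arrM F i j - arrM G i j := by
      change MvPolynomial.coeff (ex i j) (F - G) = _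
      rw [MvPolynomial.coeff_sub]
      rfl
    rw [h2] at h1
    omega
  have hdeg : ∀ F ∈ S, F.totalDegree ≤ n := by
    intro F hF
    have h1 : F = (F - G) + G := (sub_add_cancel F G).symm
    rw [h1]
    refine (MvPolynomial.totalDegree_add _ _).trans (max_le ?_ hG.le)
    have := (hS F hF).1
    omega
  have hcnd : ∀ F ∈ S, Cnd n F := by
    intro F hF
    refine ⟨hdeg F hF, ⟨?_, ?_⟩, (hS F hF).2⟩
    · rw [hag F hF 0 n (by omega)]
      exact ha
    · have h1 : leadQ n (arrM F) = leadQ n (arrM G) := by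
        unfold leadQ
        refine sum_congr rfl fun j hj => ?_
        simp only [mem_range] at hj
        rw [hag F hF _ _ (by omega)]
      rw [h1]
      exact hirr'
  have hcF : ∀ F ∈ S, ∀ t b : ℝ,
      n - 1 - r ≤ (MvPolynomial.aeval ![X, C t * X + C b] F : ℝ[X]).natDegree := by
    intro F hF t b
    have h1 : (MvPolynomial.aeval ![X, C t * X + C b] F : ℝ[X]) =
        MvPolynomial.aeval ![X, C t * X + C b] (F - G) +
          MvPolynomial.aeval ![X, C t * X + C b] G := by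
      rw [← map_add, sub_add_cancel]
    have h2 : (MvPolynomial.aeval ![X, C t * X + C b] (F - G) : ℝ[X]).natDegree ≤ n - 3 - r := by
      refine le_trans ?_ (hS F hF).1
      rw [MvPolynomial.aeval_def, MvPolynomial.eval₂_eq']
      refine natDegree_sum_le_of_forall_le _ _ fun m hm => ?_
      rw [Fin.prod_univ_two]
      have h3 := MvPolynomial.le_totalDegree hm
      have h4 : (m.sum fun _ e => e) = m 0 + m 1 := by
        rw [Finsupp.sum_fintype _ _ (by simp), Fin.sum_univ_two]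
      rw [h4] at h3
      refine le_trans ?_ h3
      have h5 : ((C t * X + C b : ℝ[X]) ^ m 1).natDegree ≤ m 1 * 1 :=
        natDegree_pow_le_of_le _ natDegree_linear_le
      have h6 : ((X : ℝ[X]) ^ m 0).natDegree = m 0 := natDegree_X_pow _
      have h7 : ((algebraMap ℤ ℝ[X]) (MvPolynomial.coeff m (F - G))).natDegree = 0 := by
        have h8 : (algebraMap ℤ ℝ[X]) (MvPolynomial.coeff m (F - G)) =
            C ((MvPolynomial.coeff m (F - G) : ℤ) : ℝ) := by
          rw [eq_intCast]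
          exact (map_intCast (C : ℝ →+* ℝ[X]) _).symm
        rw [h8, natDegree_C]
      refine natDegree_mul_le.trans ?_
      rw [h7, zero_add]
      refine natDegree_mul_le.trans ?_
      simp only [Matrix.cons_val_zero, Matrix.cons_val_one]
      omega
    rw [h1, natDegree_add_eq_right_of_natDegree_lt]
    · exact hc t b
    · have h8 := hc t b
      omega
  have hk : ∀ F ∈ S, ∀ (θ : ℝ) (v : PowerSeries ℝ), Xp n (nf n F) θ v →
      ∃ k, 2 ≤ k ∧ k ≤ r + 1 ∧ PowerSeries.coeff k v ≠ 0 := fun F hF θ v hv =>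
    contact_order hr hrn (hdeg F hF) (hcnd F hF).irr.1 (hcF F hF) hv
  have hagr : ∀ D : Finset ℕ, (∀ d ∈ D, n - 3 - r < d) → ∀ F ∈ S, ∀ F' ∈ S, Agr D F F' := by
    intro D hD F hF F' hF' i j hij
    rw [hag F hF i j (hD _ hij), hag F' hF' i j (hD _ hij)]
  -- order one
  have h1 : (S.filter fun F => ∃ θ, Ner n F θ ∧ flexv n (nf n F) θ ≠ 0).card ≤
      n * (39 * n ^ 2) := by
    refine fib_split hn (39 * n ^ 2) (fun F θ => flexv n (nf n F) θ ≠ 0) _ ?_ ?_ ?_
    · intro F hF
      obtain ⟨hFS, hF2⟩ := mem_filter.1 hF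
      exact ⟨hcnd F hFS, hF2⟩
    · intro F hF F' hF'
      exact hagr {n} (by intro d hd; rw [mem_singleton] at hd; omega) F (mem_filter.1 hF).1 F'
        (mem_filter.1 hF').1
    · intro θ T hT hR
      refine fib_one hn θ T (fun F hF => ⟨hcnd F (mem_filter.1 (hT hF)).1, hR F hF⟩) ?_
      intro F hF F' hF' i j hij hij'
      rw [hag F (mem_filter.1 (hT hF)).1 i j (by omega),
        hag F' (mem_filter.1 (hT hF')).1 i j (by omega)]
  -- order `r'`
  have h2 : ∀ r' ∈ Icc 2 r, (S.filter fun F => ∃ θ, Ner n F θ ∧ FlxAt n r' F θ).card ≤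
      n * (39 * n ^ 2) := by
    intro r' hr'
    rw [mem_Icc] at hr'
    refine fib_split hn (39 * n ^ 2) (fun F θ => FlxAt n r' F θ) _ ?_ ?_ ?_
    · intro F hF
      obtain ⟨hFS, hF2⟩ := mem_filter.1 hF
      exact ⟨hcnd F hFS, hF2⟩
    · intro F hF F' hF'
      exact hagr {n} (by intro d hd; rw [mem_singleton] at hd; omega) F (mem_filter.1 hF).1 F'
        (mem_filter.1 hF').1
    · intro θ T hT hR
      refine fib_R (r := r') hr'.1 (by omega) θ T
        (fun F hF => ⟨hcnd F (mem_filter.1 (hT hF)).1, hR F hF⟩) ?_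
      intro F hF F' hF'
      refine hagr _ ?_ F (mem_filter.1 (hT hF)).1 F' (mem_filter.1 (hT hF')).1
      intro d hd
      simp only [mem_insert, mem_singleton] at hd
      omega
  have hsub : S ⊆ (S.filter fun F => ∃ θ, Ner n F θ ∧ flexv n (nf n F) θ ≠ 0) ∪
      ((Icc 2 r).biUnion fun r' => S.filter fun F => ∃ θ, Ner n F θ ∧ FlxAt n r' F θ) := by
    intro F hF
    obtain ⟨H, x, y, θ, hN⟩ := exists_dat hn F (hcnd F hF).deg (hcnd F hF).irr (hcnd F hF).hug
    have hNer : Ner n F θ := ⟨H, x, y, hN⟩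
    rw [mem_union]
    rcases cases_order hn hNer with h | ⟨r', hr1, hr2, v, hv, hv0⟩ | ⟨v, hv, hv0⟩
    · exact Or.inl (mem_filter.2 ⟨hF, θ, hNer, h⟩)
    · obtain ⟨k, hk1, hk2, hk3⟩ := hk F hF θ v hv
      have h3 : r' < k := by
        by_contra hcon
        exact hk3 (hv0.zero k hk1 (by omega))
      exact Or.inr (mem_biUnion.2 ⟨r', mem_Icc.2 ⟨hr1, by omega⟩,
        mem_filter.2 ⟨hF, θ, hNer, v, hv, hv0⟩⟩)
    · obtain ⟨k, hk1, hk2, hk3⟩ := hk F hF θ v hv
      exact absurd (hv0 k hk1 (by omega)) hk3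
  have h4 : ((Icc 2 r).biUnion fun r' =>
      S.filter fun F => ∃ θ, Ner n F θ ∧ FlxAt n r' F θ).card ≤ (r - 1) * (n * (39 * n ^ 2)) := by
    refine card_biUnion_le.trans ((sum_le_sum h2).trans ?_)
    rw [sum_const, Nat.card_Icc, smul_eq_mul]
    exact Nat.mul_le_mul_right _ (by omega)
  have h5 := (card_le_card hsub).trans ((card_union_le _ _).trans (Nat.add_le_add h1 h4))
  refine h5.trans ?_
  obtain ⟨m, rfl⟩ : ∃ m, r = m + 1 := ⟨r - 1, by omega⟩
  rw [Nat.add_sub_cancel]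
  calc n * (39 * n ^ 2) + m * (n * (39 * n ^ 2)) = (m + 1) * (n * (39 * n ^ 2)) := by ring
    _ ≤ n * (n * (39 * n ^ 2)) := Nat.mul_le_mul_right _ (by omega)
    _ = 39 * n ^ 4 := by ring

end Pool.Agent.H15.RX
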