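import Mathlib

/-!
# Runge's theorem with an explicit exponent: definitions

`ℤ[X][X]`: the inner variable is `x` (or `t = 1/x`), the outer variable is `w` (or `z = w/x`).
`evalEval x w P` is the value of `P` at inner `x`, outer `w`.
-/

set_option autoImplicit false

namespace Pool.Agent.H15.RX

open Finset Polynomial

/-- the sum of the absolute values of the coefficients -/
noncomputable def nm (p : ℤ[X]) : ℤ := ∑ i ∈ p.support, |p.coeff i|

/-- the value at inner `t`, outer `z` -/
noncomputable def ee (t z : ℝ) : ℤ[X][X] →+* ℝ :=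
  eval₂RingHom ((aeval t : ℤ[X] →ₐ[ℤ] ℝ) : ℤ[X] →+* ℝ) z

/-- total degree at most `m` -/
def TD (m : ℕ) (P : ℤ[X][X]) : Prop := ∀ i j, (P.coeff j).coeff i ≠ 0 → i + j ≤ m

/-- `t^m P(1/t, z/t)` for `P` of total degree at most `m` -/
noncomputable def tl (m : ℕ) (P : ℤ[X][X]) : ℤ[X][X] :=
  ∑ j ∈ range (m + 1), C (reflect (m - j) (P.coeff j)) * X ^ j

/-- the part of degree `d`, dehomogenised -/
noncomputable def l0 (d : ℕ) (G : ℤ[X][X]) : ℤ[X] :=
  ∑ j ∈ range (d + 1), C ((G.coeff j).coeff (d - j)) * X ^ j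

/-- the exponent `m = 2 d^2` of the auxiliary polynomials -/
def mm (d : ℕ) : ℕ := 2 * d ^ 2

/-- the number of powers of `x` in the auxiliary polynomials -/
def MM (d : ℕ) : ℕ := mm d - d + 1

/-- the number of the unknowns -/
def Nn (d : ℕ) : ℕ := d * MM d

/-- a bound for the entries of the system, `B ≥ nm h`, `nm` of the coefficients of `f` at most `A` -/
def Tt (d A B : ℕ) : ℕ := B ^ mm d * (1 + A) ^ (mm d * d)

/-- a bound for the solution -/
def Yy (d A B : ℕ) : ℕ := (Nn d * Tt d A B) ^ (2 * d)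

end Pool.Agent.H15.RX
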