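import Pool.Agent.H15.RX.NM
import Pool.Agent.H97.SI.TRB
import Pool.Agent.H97.ZE.SYL

/-!
# ELI: elimination of the outer variable

`D = (syl G Q d (d - 1)).det`, `syl` of `Pool/Agent/H97/ZE/Defs.lean`, size `d + (d - 1) = 2 d - 1`. Its
entries are coefficients of `X^r * G` or `X^r * Q` (outer variable), that is coefficients of `G`, `Q` or `0`: `nm`
at most `B`. `nm_det_le`: `nm D ≤ (2d-1)! B^(2d-1) ≤ (2d)! B^(2d)`. `D ≠ 0` by `syl_ne` over `R = ℤ[X]`: `G` is
irreducible: if `G = A B`, `A`, `B` monic, then the same over `ℚ`, so one of them is `1` over `ℚ`, of degree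
`0`, so `1` (`mirr_iff`; `Polynomial.Monic.irreducible_iff_natDegree'` or `irreducible_of_monic`); so it is
irreducible over `FractionRing ℤ[X]` (`hG.irreducible_iff_irreducible_map_fraction_map`; see `model_of_irr`
in `Pool/Agent/H97/RU/RUA.lean`), it does not divide `Q` there (degree, `Q ≠ 0`, the map is injective).
`syl_comb`: `C D = u * G + v * Q`; apply `evalEval x w`: `D.eval x = 0` (`evalEval_C`). `abs_root_le`.
-/

set_option autoImplicit false

namespace Pool.Agent.H15.RX

open Finset Polynomial Pool.Agent.H97.SI Pool.Agent.H97.ZE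

private theorem nm_entry {p : ℤ[X][X]} {B : ℕ} (hp : ∀ j, nm (p.coeff j) ≤ (B : ℤ)) (r k : ℕ) :
    nm ((X ^ r * p).coeff k) ≤ (B : ℤ) := by
  rw [coeff_X_pow_mul']
  split_ifs with h
  · exact hp _
  · rw [nm_zero]
    positivity

private theorem mirr_int {G : ℤ[X][X]}
    (hirr : MIrr (G.map (mapRingHom (Int.castRingHom ℚ)))) : MIrr G := by
  intro A B hA hB hAB
  have h1 := hirr (A.map (mapRingHom (Int.castRingHom ℚ))) (B.map (mapRingHom (Int.castRingHom ℚ)))
    (hA.map _) (hB.map _) (by rw [← Polynomial.map_mul, hAB])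
  rcases h1 with h1 | h1
  · left
    have h2 := congrArg natDegree h1
    rw [hA.natDegree_map, natDegree_one] at h2
    exact hA.natDegree_eq_zero.1 h2
  · right
    have h2 := congrArg natDegree h1
    rw [hB.natDegree_map, natDegree_one] at h2
    exact hB.natDegree_eq_zero.1 h2

theorem eli {d : ℕ} {G Q : ℤ[X][X]} (hG : G.Monic) (hd : G.natDegree = d) (h1 : 1 ≤ d)
    (hirr : MIrr (G.map (mapRingHom (Int.castRingHom ℚ)))) (hQ : Q ≠ 0) (hQd : Q.natDegree < d)
    {B : ℕ} (hB : 1 ≤ B) (hGB : ∀ j, nm (G.coeff j) ≤ (B : ℤ))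
    (hQB : ∀ j, nm (Q.coeff j) ≤ (B : ℤ)) {x w : ℤ} (hx : evalEval x w G = 0)
    (hy : evalEval x w Q = 0) : |x| ≤ (((2 * d).factorial * B ^ (2 * d) : ℕ) : ℤ) := by
  have hirr0 : Irreducible G := (mirr_iff hG (by omega)).1 (mirr_int hirr)
  have hinj : Function.Injective (algebraMap ℤ[X] (FractionRing ℤ[X])) :=
    IsFractionRing.injective ℤ[X] _
  have hirr1 : Irreducible (G.map (algebraMap ℤ[X] (FractionRing ℤ[X]))) :=
    (hG.irreducible_iff_irreducible_map_fraction_map (K := FractionRing ℤ[X])).1 hirr0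
  have hnd : ¬ G.map (algebraMap ℤ[X] (FractionRing ℤ[X])) ∣
      Q.map (algebraMap ℤ[X] (FractionRing ℤ[X])) := by
    intro hdv
    have h2 := natDegree_le_of_dvd hdv ((Polynomial.map_ne_zero_iff hinj).2 hQ)
    rw [natDegree_map_eq_of_injective hinj, natDegree_map_eq_of_injective hinj] at h2
    omega
  have hdet : (syl G Q d (d - 1)).det ≠ 0 :=
    syl_ne (R := ℤ[X]) (f := G) (g := Q) hd (by omega) hirr1 hnd
  obtain ⟨u, v, huv⟩ := syl_comb (R := ℤ[X]) (f := G) (g := Q) (m := d) (n := d - 1) hd.le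
    (by omega) (by omega)
  have h3 := congrArg (evalEval x w) huv
  rw [evalEval_C, evalEval_add, evalEval_mul, evalEval_mul, hx, hy, mul_zero, mul_zero,
    add_zero] at h3
  have h4 := abs_root_le hdet h3
  refine h4.trans ?_
  have h5 : ∀ i j, nm (syl G Q d (d - 1) i j) ≤ (B : ℤ) := by
    intro r k
    unfold syl
    rw [Matrix.of_apply]
    split_ifs with h
    · exact nm_entry hGB _ _
    · exact nm_entry hQB _ _
  refine (nm_det_le _ h5).trans ?_
  have h6 : (d + (d - 1)).factorial ≤ (2 * d).factorial := Nat.factorial_le (by omega)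
  have h7 : B ^ (d + (d - 1)) ≤ B ^ (2 * d) := Nat.pow_le_pow_right hB (by omega)
  have h8 := Nat.mul_le_mul h6 h7
  exact_mod_cast h8

end Pool.Agent.H15.RX
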