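import Pool.Agent.H15.RX.FINAL

/-!
# A polynomial bound for the integer points of plane curves, and the few exceptions

`F ∈ ℤ[x,y]` is `Large` if it has an integer zero `(x, y)` with `max(|x|,|y|) > H^(5300000 n^8)` for
some integer `H ≥ 2` that bounds the absolute values of the coefficients of `F`. Let `n ≥ 4`,
`N = (n+1)(n+2)/2`.

(1) Fix the terms of degree `> n - 3 - r` of `F`, that is a polynomial `G` of degree `n`, with
irreducible leading form and with `deg G(X, tX + b) ≥ n - 1 - r` for all real `t`, `b` (for `r = 1`: no
real flex at infinity). Of the infinitely many `F` with these terms at most `39 n^4` are large.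

(2) For arbitrary sets of at most `s` integers, one for each of the `N` coefficients: at most
`N^(3N) s^max(N - ⌈n/2⌉, 4n - 2)` polynomials with coefficients in these sets are large, and of the
large ones at most `39 (n+1)^5 s^(4n-2)` are irreducible over `ℚ` with a leading form which is not
`c q^j`, `j ≥ 2`, `q` irreducible.

Reserve hand-in for MP_821da1_nt (helper8, 20:33 Dec 3). Claim text:
Proves: Let n >= 4, N = (n+1)(n+2)/2. F in Z[x,y] is large if it has an integer zero (x,y) with max(|x|,|y|) > H^(5300000n^8) for some integer H >= 2 bounding the absolute values of its coefficients. (1) Let 1 <= r <= n-3 and let G in Z[x,y] have degree n, a leading form irreducible over Q and deg G(X,tX+b) >= n-1-r for all real t, b. Of the infinitely many F with deg(F-G) <= n-3-r at most 39n^4 are large. (2) Let A_ij, i+j <= n, be sets of at most s integers. Of the F = sum a_ij x^i y^j with all a_ij in A_ij at most N^(3N) s^e are large, e = max(N-ceil(n/2), 4n-2); and of the large ones at most 39(n+1)^5 s^(4n-2) are irreducible over Q with a leading form which is not c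 q^j with c in Q, j >= 2, q irreducible over Q.
Definitions: Large n F: F is large. Grid n A: the set of all F of (2). leadForm F: the leading form of F over Q.
Relation: Partial answer to Q1: B(F) = H^(5300000n^8) is right for all F, of any genus, but the counted ones (not identified), also where Siegel's theorem is ineffective. (1): infinite families, the exceptions bounded in terms of n; r = 1: no real flex at infinity. (2): coefficient sets of any shape, exceptions of dimension 4n-2 out of N. Unconditional. Method: Thue-Siegel with two large points on two of the curves, conics, uniform Runge, expansions at infinity. Earlier: Evertse, Bombieri-Schmidt: numbers of solutions (binary forms); Runge; for general curves of degree >= 4 none known to us.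
-/

namespace Pool.Agent.H15.RX.FEW

/-- `F` has an integer zero `(x, y)` with `max(|x|, |y|) > H^(5300000 n^8)` for some integer `H ≥ 2` that
bounds the absolute values of all coefficients of `F` -/
def Large (n : ℕ) (F : MvPolynomial (Fin 2) ℤ) : Prop :=
  ∃ H : ℕ, 2 ≤ H ∧ (∀ m, |F.coeff m| ≤ (H : ℤ)) ∧ ∃ P : ℤ × ℤ,
    MvPolynomial.eval ![P.1, P.2] F = 0 ∧ (H : ℤ) ^ (5300000 * n ^ 8) < max |P.1| |P.2|

/-- the polynomials of degree at most `n` whose coefficients are in the given finite sets -/
def Grid (n : ℕ) (A : (Fin 2 →₀ ℕ) → Finset ℤ) : Set (MvPolynomial (Fin 2) ℤ) :=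
  {F | F.totalDegree ≤ n ∧ ∀ m, m.degree ≤ n → F.coeff m ∈ A m}

/-- the leading form, over `ℚ` -/
noncomputable def leadForm (F : MvPolynomial (Fin 2) ℤ) : MvPolynomial (Fin 2) ℚ :=
  MvPolynomial.map (Int.castRingHom ℚ) (MvPolynomial.homogeneousComponent F.totalDegree F)

theorem result (n : ℕ) (hn : 4 ≤ n) :
    (∀ (r : ℕ) (G : MvPolynomial (Fin 2) ℤ), 1 ≤ r → r + 3 ≤ n → G.totalDegree = n →
      Irreducible (leadForm G) →
      (∀ t b : ℝ, n - 1 - r ≤ (MvPolynomial.aeval
        ![Polynomial.X, Polynomial.C t * Polynomial.X + Polynomial.C b] G).natDegree) →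
      {F : MvPolynomial (Fin 2) ℤ | (F - G).totalDegree ≤ n - 3 - r ∧ Large n F}.encard ≤
        (39 * n ^ 4 : ℕ)) ∧
    (∀ (s : ℕ) (A : (Fin 2 →₀ ℕ) → Finset ℤ), (∀ m, (A m).card ≤ s) →
      {F : MvPolynomial (Fin 2) ℤ | F ∈ Grid n A ∧ Large n F}.encard ≤
        (((n + 1) * (n + 2) / 2) ^ (3 * ((n + 1) * (n + 2) / 2)) *
          s ^ max ((n + 1) * (n + 2) / 2 - (n + 1) / 2) (4 * n - 2) : ℕ) ∧
      {F : MvPolynomial (Fin 2) ℤ | F ∈ Grid n A ∧ Large n F ∧
        Irreducible (MvPolynomial.map (Int.castRingHom ℚ) F) ∧
        ∀ (q : MvPolynomial (Fin 2) ℚ) (c : ℚ) (j : ℕ), Irreducible q → 2 ≤ j →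
          leadForm F ≠ MvPolynomial.C c * q ^ j}.encard ≤
        (39 * (n + 1) ^ 5 * s ^ (4 * n - 2) : ℕ)) := by
  refine ⟨fun r G hr hrn hG hirr hc => ?_, fun s A hA => ⟨?_, ?_⟩⟩
  · have hirr' : Irreducible (MvPolynomial.map (Int.castRingHom ℚ)
        (MvPolynomial.homogeneousComponent n G)) := by
      have h1 : leadForm G = MvPolynomial.map (Int.castRingHom ℚ)
          (MvPolynomial.homogeneousComponent n G) := by
        unfold leadForm
        rw [hG]
      rwa [h1] at hirr
    exact Pool.Agent.H15.RX.part_one hr hrn G hG hirr' hc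
  · exact Pool.Agent.H15.RX.part_three hn s A hA
  · exact Pool.Agent.H15.RX.part_two hn s A hA

end Pool.Agent.H15.RX.FEW
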