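import Pool.Agent.H15.RX.TOP
import Pool.Agent.H15.RX.CTC

/-!
# FINAL: the three statements on exceptional sets, for sets of polynomials
-/

set_option autoImplicit false

namespace Pool.Agent.H15.RX

open Finset Polynomial Pool.Agent.H72.ES Pool.Agent.H47.SP Pool.Agent.H15.FX Pool.Agent.H45.SU

theorem encard_le_of {α : Type} {B : Set α} {k : ℕ}
    (h : ∀ S : Finset α, (∀ a ∈ S, a ∈ B) → S.card ≤ k) : B.encard ≤ k := by
  by_contra hcon
  push Not at hcon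
  have h1 : ((k + 1 : ℕ) : ℕ∞) ≤ B.encard := by
    have := Order.add_one_le_of_lt hcon
    exact_mod_cast this
  obtain ⟨T, hT, hTc⟩ := Set.exists_subset_encard_eq h1
  have hfin : T.Finite := Set.finite_of_encard_eq_coe hTc
  have h2 := h hfin.toFinset (fun a ha => hT (hfin.mem_toFinset.1 ha))
  rw [hfin.encard_eq_coe_toFinset_card] at hTc
  have h3 : hfin.toFinset.card = k + 1 := by exact_mod_cast hTc
  omega

/-- the numbers of the monomials -/
theorem grid_arr {n : ℕ} {F : MP} {A : (Fin 2 →₀ ℕ) → Finset ℤ}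
    (h : ∀ m, m.degree ≤ n → F.coeff m ∈ A m) (i j : ℕ) (hij : i + j ≤ n) :
    arrM F i j ∈ A (ex i j) := by
  refine h _ ?_
  rw [ex_deg, ex_zero, ex_one]
  exact hij

theorem part_one {n r : ℕ} (hr : 1 ≤ r) (hrn : r + 3 ≤ n) (G : MP) (hG : G.totalDegree = n)
    (hirr : Irreducible (MvPolynomial.map (Int.castRingHom ℚ)
      (MvPolynomial.homogeneousComponent n G)))
    (hc : ∀ t b : ℝ, n - 1 - r ≤ (MvPolynomial.aeval ![X, C t * X + C b] G : ℝ[X]).natDegree) :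
    {F : MP | (F - G).totalDegree ≤ n - 3 - r ∧ Bad (5300000 * n ^ 8) F}.encard ≤
      (39 * n ^ 4 : ℕ) := by
  refine encard_le_of fun S hS => top_any hr hrn G hG hirr hc S fun F hF => ?_
  obtain ⟨h1, H, hH, hb, P, h0, hP⟩ := hS F hF
  refine ⟨h1, H, hH, hb, P.1, P.2, lt_of_le_of_lt ?_ hP, h0⟩
  refine pow_le_pow_right₀ (by exact_mod_cast (by omega : 1 ≤ H)) ?_
  exact Nat.mul_le_mul_left _ (Nat.pow_le_pow_right (by omega) (by norm_num))

theorem part_two {n : ℕ} (hn : 4 ≤ n) (s : ℕ) (A : (Fin 2 →₀ ℕ) → Finset ℤ)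
    (hA : ∀ m, (A m).card ≤ s) :
    {F : MP | (F.totalDegree ≤ n ∧ ∀ m, m.degree ≤ n → F.coeff m ∈ A m) ∧
      Bad (5300000 * n ^ 8) F ∧ IrrQ F ∧ NoPow F}.encard ≤
        (39 * (n + 1) ^ 5 * s ^ (4 * n - 2) : ℕ) := by
  refine encard_le_of fun S hS => ?_
  refine star_x (by omega) (fun i j => A (ex i j)) s (fun i j => hA _) S fun F hF => ?_
  obtain ⟨⟨h1, h2⟩, ⟨H, hH, hc, P, h0, hP⟩, h4, h5⟩ := hS F hF
  exact ⟨h1, grid_arr h2, h4, h5, H, hH, hc, P.1, P.2, hP, h0⟩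

theorem part_three {n : ℕ} (hn : 4 ≤ n) (s : ℕ) (A : (Fin 2 →₀ ℕ) → Finset ℤ)
    (hA : ∀ m, (A m).card ≤ s) :
    {F : MP | (F.totalDegree ≤ n ∧ ∀ m, m.degree ≤ n → F.coeff m ∈ A m) ∧
      Bad (5300000 * n ^ 8) F}.encard ≤
        (((n + 1) * (n + 2) / 2) ^ (3 * ((n + 1) * (n + 2) / 2)) *
          s ^ max ((n + 1) * (n + 2) / 2 - (n + 1) / 2) (4 * n - 2) : ℕ) := by
  refine encard_le_of fun S hS => ?_
  have hmem : ∀ F ∈ S, InA (fun m : Mon n => A (ex ((m.1 : ℕ) - (m.2 : ℕ)) (m.2 : ℕ))) F := by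
    intro F hF
    obtain ⟨⟨h1, h2⟩, -⟩ := hS F hF
    refine ⟨h1, ?_⟩
    rw [Fintype.mem_piFinset]
    intro m
    refine h2 _ ?_
    rw [ex_deg, ex_zero, ex_one]
    have h3 := m.1.2
    have h4 := m.2.2
    omega
  rcases Nat.eq_zero_or_pos s with hs | hs
  · have h1 : S = ∅ := by
      rw [eq_empty_iff_forall_notMem]
      intro F hF
      have h2 := Fintype.mem_piFinset.1 (hmem F hF).2 (mo 0 0 (Nat.zero_le n) : Mon n)
      have h3 := hA (ex (((mo 0 0 (Nat.zero_le n) : Mon n).1 : ℕ) -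
        ((mo 0 0 (Nat.zero_le n) : Mon n).2 : ℕ)) ((mo 0 0 (Nat.zero_le n) : Mon n).2 : ℕ))
      rw [hs, Nat.le_zero, card_eq_zero] at h3
      simp only [h3] at h2
      exact notMem_empty _ h2
    rw [h1, card_empty]
    exact Nat.zero_le _
  · exact size_x hn s hs _ (fun m => hA _) S hmem fun F hF => (hS F hF).2

end Pool.Agent.H15.RX
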