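import Mathlib

/-!
# GAU: monic factors of a monic integer polynomial

Gauss: a monic factor over `ℚ` of a monic integer polynomial has integer coefficients
(`Polynomial.IsIntegrallyClosed.eq_map_mul_C_of_dvd` or `IsIntegrallyClosed.eq_map_mul_C_of_dvd ℚ`, leading
coefficient `1`). `f0 = g * h` by injectivity of the map. Coefficients: all complex roots `z` of `g` are
roots of `f0`, so `‖z‖ ≤ H + 1` (`Polynomial.IsRoot.norm_lt_cauchyBound`, `cauchyBound` of a monic polynomial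
with coefficients at most `H`, or directly), and `Polynomial.coeff_bdd_of_roots_le` (over `ℂ`, all monic
polynomials split): `|g.coeff i| ≤ (H + 1)^d * d.choose (d / 2) ≤ (H + 1)^d 2^d`, `d = natDegree f0`.
-/

set_option autoImplicit false

namespace Pool.Agent.H15.RX

open Finset Polynomial

private theorem gau_bd {f0 g : ℤ[X]} (hf0 : f0.Monic) {H : ℕ} (hc : ∀ i, |f0.coeff i| ≤ (H : ℤ))
    (hg : g.Monic) (hd : g ∣ f0) (i : ℕ) :
    |g.coeff i| ≤ (((2 * (H + 1)) ^ f0.natDegree : ℕ) : ℤ) := by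
  have hroot : ∀ z ∈ (map (Int.castRingHom ℂ) g).roots, ‖z‖ ≤ (H : ℝ) + 1 := by
    intro z hz
    have hgC : g.map (Int.castRingHom ℂ) ≠ 0 := (hg.map _).ne_zero
    have hfC : f0.map (Int.castRingHom ℂ) ≠ 0 := (hf0.map _).ne_zero
    have hz' : (g.map (Int.castRingHom ℂ)).IsRoot z := (mem_roots hgC).1 hz
    have hzf : (f0.map (Int.castRingHom ℂ)).IsRoot z := hz'.dvd (Polynomial.map_dvd _ hd)
    have h1 := hzf.norm_lt_cauchyBound hfC
    have h2 : cauchyBound (f0.map (Int.castRingHom ℂ)) ≤ (H : NNReal) + 1 := by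
      unfold cauchyBound
      rw [(hf0.map _).leadingCoeff, nnnorm_one, div_one]
      gcongr
      refine Finset.sup_le fun j _ => ?_
      rw [coeff_map, ← NNReal.coe_le_coe, coe_nnnorm, NNReal.coe_natCast]
      change ‖((f0.coeff j : ℤ) : ℂ)‖ ≤ (H : ℝ)
      rw [Complex.norm_intCast]
      exact_mod_cast hc j
    have h3 : (‖z‖₊ : NNReal) ≤ (H : NNReal) + 1 := (h1.trans_le h2).le
    have h4 : ((‖z‖₊ : NNReal) : ℝ) ≤ (((H : NNReal) + 1 : NNReal) : ℝ) := NNReal.coe_le_coe.2 h3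
    simpa using h4
  have h2 := coeff_bdd_of_roots_le (Int.castRingHom ℂ) hg (IsAlgClosed.splits _)
    (natDegree_le_of_dvd hd hf0.ne_zero) hroot i
  rw [coeff_map] at h2
  have h3 : ‖((g.coeff i : ℤ) : ℂ)‖ = ((|g.coeff i| : ℤ) : ℝ) := by
    rw [Complex.norm_intCast]
    push_cast
    rfl
  have h4 : ‖(Int.castRingHom ℂ) (g.coeff i)‖ = ((|g.coeff i| : ℤ) : ℝ) := h3
  rw [h4] at h2
  have h5 : max ((H : ℝ) + 1) 1 = (H : ℝ) + 1 := max_eq_left (by
    have : (0 : ℝ) ≤ H := Nat.cast_nonneg H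
    linarith)
  rw [h5] at h2
  have h6 : ((f0.natDegree.choose (f0.natDegree / 2) : ℕ) : ℝ) ≤ (2 : ℝ) ^ f0.natDegree := by
    exact_mod_cast Nat.choose_le_two_pow _ _
  have h7 : ((|g.coeff i| : ℤ) : ℝ) ≤ ((((2 * (H + 1)) ^ f0.natDegree : ℕ) : ℤ) : ℝ) := by
    refine h2.trans ?_
    calc ((H : ℝ) + 1) ^ f0.natDegree * (f0.natDegree.choose (f0.natDegree / 2) : ℝ)
        ≤ ((H : ℝ) + 1) ^ f0.natDegree * (2 : ℝ) ^ f0.natDegree := by gcongr
      _ = ((((2 * (H + 1)) ^ f0.natDegree : ℕ) : ℤ) : ℝ) := by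
        push_cast
        rw [mul_pow]
        ring
  exact_mod_cast h7

theorem gau {f0 : ℤ[X]} (hf0 : f0.Monic) {H : ℕ} (hc : ∀ i, |f0.coeff i| ≤ (H : ℤ)) {P1 P2 : ℚ[X]}
    (h1 : P1.Monic) (h2 : P2.Monic) (hf : f0.map (Int.castRingHom ℚ) = P1 * P2) :
    ∃ g h : ℤ[X], g.Monic ∧ h.Monic ∧ g.map (Int.castRingHom ℚ) = P1 ∧
      h.map (Int.castRingHom ℚ) = P2 ∧ f0 = g * h ∧
      (∀ i, |g.coeff i| ≤ (((2 * (H + 1)) ^ f0.natDegree : ℕ) : ℤ)) ∧
      ∀ i, |h.coeff i| ≤ (((2 * (H + 1)) ^ f0.natDegree : ℕ) : ℤ) := by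
  have key : ∀ P : ℚ[X], P.Monic → P ∣ f0.map (Int.castRingHom ℚ) →
      ∃ g : ℤ[X], g.Monic ∧ g.map (Int.castRingHom ℚ) = P := by
    intro P hP hd
    obtain ⟨g, hg⟩ := IsIntegrallyClosed.eq_map_mul_C_of_dvd ℚ hf0 (g := P) (by
      rw [algebraMap_int_eq]
      exact hd)
    rw [hP.leadingCoeff, C_1, mul_one, algebraMap_int_eq] at hg
    refine ⟨g, ?_, hg⟩
    refine monic_of_injective (f := Int.castRingHom ℚ) (RingHom.injective_int _) ?_
    rw [hg]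
    exact hP
  obtain ⟨g, hg, hgP⟩ := key P1 h1 ⟨P2, hf⟩
  obtain ⟨h, hh, hhP⟩ := key P2 h2 ⟨P1, by rw [hf, mul_comm]⟩
  have hfgh : f0 = g * h := by
    apply map_injective (Int.castRingHom ℚ) (RingHom.injective_int _)
    rw [Polynomial.map_mul, hgP, hhP, hf]
  exact ⟨g, h, hg, hh, hgP, hhP, hfgh, gau_bd hf0 hc hg ⟨h, hfgh⟩,
    gau_bd hf0 hc hh ⟨g, by rw [hfgh, mul_comm]⟩⟩

end Pool.Agent.H15.RX
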