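import Pool.Agent.H45.SU.UP

/-!
# GRX: the grid lemma of `H45/SU` with explicit constants

`grid_x`: a polynomial map of degree `≤ δ` from `ℚ^D` to `ℚ^M` has at most `((|M| δ + 1) s)^|D|` values
in a grid of sets of at most `s` integers. `ur_x`, `up_x`: reducible polynomials, leading forms
`a p^j`.
-/

set_option autoImplicit false

namespace Pool.Agent.H15.RX

open Finset Pool.Agent.H72.ES Pool.Agent.H47.SP Pool.Agent.H45.SU

open MvPolynomial in
theorem grid_x {D M : Type} [Fintype D] [DecidableEq D] [Fintype M] [DecidableEq M]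
    (φ : M → MvPolynomial D ℚ) (e : ℕ) (hei : ∀ i, (φ i).totalDegree ≤ e) (s : ℕ) (hs : 1 ≤ s)
    (A : M → Finset ℤ) (hA : ∀ i, (A i).card ≤ s) (S : Finset (M → ℤ))
    (hS : S ⊆ Fintype.piFinset A) (h : ∀ a ∈ S, ∃ t : D → ℚ, ∀ i, eval t (φ i) = (a i : ℚ)) :
    S.card ≤ (Fintype.card M * e + 1) ^ Fintype.card D * s ^ Fintype.card D := by
  classical
  set m : ℕ := Fintype.card M * e + 1 with hm
  choose! t ht using h
  set d : ℕ := Fintype.card M * (s * e) with hd
  -- the polynomials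
  set P : (M → ℤ) → MvPolynomial D ℚ := fun a =>
    ∏ i : M, ∏ k ∈ (A i).erase (a i), (φ i - C (k : ℚ)) with hP
  have hdeg : ∀ a, (P a).totalDegree ≤ d := by
    intro a
    refine (totalDegree_finsetProd _ _).trans ?_
    have h1 : ∀ i ∈ (univ : Finset M), (∏ k ∈ (A i).erase (a i),
        (φ i - C (k : ℚ))).totalDegree ≤ s * e := by
      intro i _
      refine (totalDegree_finsetProd _ _).trans ?_
      refine (sum_le_card_nsmul _ _ e ?_).trans ?_
      · intro k _
        refine (totalDegree_sub _ _).trans (max_le (hei i) ?_)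
        rw [totalDegree_C]
        exact Nat.zero_le _
      · rw [smul_eq_mul]
        exact Nat.mul_le_mul_right _ ((card_erase_le).trans (hA i))
    refine (sum_le_card_nsmul _ _ _ h1).trans ?_
    rw [smul_eq_mul, card_univ]
  have hval1 : ∀ a ∈ S, eval (t a) (P a) ≠ 0 := by
    intro a ha
    rw [hP]
    simp only [map_prod]
    refine prod_ne_zero_iff.2 fun i _ => prod_ne_zero_iff.2 fun k hk => ?_
    rw [map_sub, eval_C, ht a ha i, sub_ne_zero]
    intro h1
    exact (mem_erase.1 hk).1 (by exact_mod_cast h1.symm)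
  have hval0 : ∀ a ∈ S, ∀ b ∈ S, a ≠ b → eval (t b) (P a) = 0 := by
    intro a ha b hb hab
    obtain ⟨i, hi⟩ := Function.ne_iff.1 hab
    have h1 := Fintype.mem_piFinset.1 (hS hb) i
    rw [hP]
    simp only [map_prod]
    refine prod_eq_zero (mem_univ i) (prod_eq_zero (i := b i) ?_ ?_)
    · exact mem_erase.2 ⟨hi.symm, h1⟩
    · rw [map_sub, eval_C, ht b hb i, sub_self]
  -- linear independence in a space of dimension `(d+1)^|D|`
  have hmem : ∀ a : S, P a ∈ restrictDegree D ℚ d := by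
    intro a
    exact restrictTotalDegree_le_restrictDegree D ℚ d ((mem_restrictTotalDegree _ _ _).2 (hdeg a))
  have hli : LinearIndependent ℚ (fun a : S => (⟨P a, hmem a⟩ : restrictDegree D ℚ d)) := by
    rw [Fintype.linearIndependent_iff]
    intro g hg a
    have h1 := congrArg (fun q : restrictDegree D ℚ d => eval (t a) (q : MvPolynomial D ℚ)) hg
    simp only [Submodule.coe_sum, Submodule.coe_smul, Submodule.coe_zero, map_zero, map_sum,
      smul_eval] at h1
    rw [Finset.sum_eq_single a] at h1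
    · rcases mul_eq_zero.1 h1 with h2 | h2
      · exact h2
      · exact absurd h2 (hval1 a a.2)
    · intro b _ hb
      rw [hval0 b b.2 a a.2 (fun h => hb (Subtype.ext h)), mul_zero]
    · intro h2
      exact absurd (mem_univ a) h2
  have hcard : S.card ≤ (d + 1) ^ Fintype.card D := by
    have h1 := hli.fintype_card_le_finrank
    rw [Fintype.card_coe] at h1
    refine h1.trans ?_
    have h2 : Module.finrank ℚ (restrictDegree D ℚ d) = Nat.card {f : D →₀ ℕ | ∀ a, f a ≤ d} :=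
      Module.finrank_eq_nat_card_basis (basisRestrictSupport ℚ {f : D →₀ ℕ | ∀ a, f a ≤ d})
    rw [h2]
    have h3 : Function.Injective (fun (f : {f : D →₀ ℕ | ∀ a, f a ≤ d}) (i : D) =>
        (⟨f.1 i, Nat.lt_succ_of_le (f.2 i)⟩ : Fin (d + 1))) := by
      intro f g hfg
      refine Subtype.ext (Finsupp.ext fun i => ?_)
      have h4 := congrFun hfg i
      exact Fin.mk.inj_iff.1 h4
    refine (Nat.card_le_card_of_injective _ h3).trans (le_of_eq ?_)
    rw [Nat.card_eq_fintype_card, Fintype.card_fun, Fintype.card_fin]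
  refine hcard.trans ?_
  rw [← mul_pow]
  refine Nat.pow_le_pow_left ?_ _
  rw [hd, hm]
  have h5 : Fintype.card M * (s * e) = Fintype.card M * e * s := by ring
  rw [h5, add_mul, one_mul]
  omega

section deg

variable {τ : Type}

theorem mv_coeff_mul_deg {P Q : MvPolynomial (Fin 2) (MvPolynomial τ ℚ)} {a b : ℕ}
    (hP : ∀ m, (P.coeff m).totalDegree ≤ a) (hQ : ∀ m, (Q.coeff m).totalDegree ≤ b)
    (m : Fin 2 →₀ ℕ) : ((P * Q).coeff m).totalDegree ≤ a + b := by
  classical
  rw [MvPolynomial.coeff_mul]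
  refine MvPolynomial.totalDegree_finsetSum_le fun x _ => ?_
  exact (MvPolynomial.totalDegree_mul _ _).trans (Nat.add_le_add (hP _) (hQ _))

theorem gp_X_deg {k : ℕ} (f : Mon k → τ) (m : Fin 2 →₀ ℕ) :
    ((gp fun u : Mon k => (MvPolynomial.X (f u) : MvPolynomial τ ℚ)).coeff m).totalDegree ≤ 1 := by
  rw [← ex_eta m]
  by_cases h : m 0 + m 1 ≤ k
  · rw [gp_coeff _ _ _ h]
    exact (MvPolynomial.totalDegree_X _).le
  · rw [gp_coeff_big _ _ _ (by omega), MvPolynomial.totalDegree_zero]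
    exact Nat.zero_le _

theorem po_coeff_mul_deg {P Q : Polynomial (MvPolynomial τ ℚ)} {a b : ℕ}
    (hP : ∀ i, (P.coeff i).totalDegree ≤ a) (hQ : ∀ i, (Q.coeff i).totalDegree ≤ b) (i : ℕ) :
    ((P * Q).coeff i).totalDegree ≤ a + b := by
  classical
  rw [Polynomial.coeff_mul]
  refine MvPolynomial.totalDegree_finsetSum_le fun x _ => ?_
  exact (MvPolynomial.totalDegree_mul _ _).trans (Nat.add_le_add (hP _) (hQ _))

theorem po_pow_deg {P : Polynomial (MvPolynomial τ ℚ)} (hP : ∀ i, (P.coeff i).totalDegree ≤ 1)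
    (j i : ℕ) : ((P ^ j).coeff i).totalDegree ≤ j := by
  induction j generalizing i with
  | zero =>
    rw [pow_zero, Polynomial.coeff_one]
    split_ifs
    · rw [MvPolynomial.totalDegree_one]
    · rw [MvPolynomial.totalDegree_zero]
  | succ j ih =>
    rw [pow_succ]
    exact po_coeff_mul_deg ih hP i

theorem qp_X_deg {r : ℕ} (f : Fin r → τ) (i : ℕ) :
    ((qp r fun i => (MvPolynomial.X (f i) : MvPolynomial τ ℚ)).coeff i).totalDegree ≤ 1 := by
  classical
  unfold qp
  rw [Polynomial.coeff_add, Polynomial.finsetSum_coeff]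
  refine (MvPolynomial.totalDegree_add _ _).trans (max_le ?_ ?_)
  · rw [Polynomial.coeff_X_pow]
    split_ifs
    · rw [MvPolynomial.totalDegree_one]
      exact Nat.zero_le _
    · rw [MvPolynomial.totalDegree_zero]
      exact Nat.zero_le _
  · refine MvPolynomial.totalDegree_finsetSum_le fun x _ => ?_
    rw [Polynomial.coeff_C_mul_X_pow]
    split_ifs
    · exact (MvPolynomial.totalDegree_X _).le
    · rw [MvPolynomial.totalDegree_zero]
      exact Nat.zero_le _

end deg

theorem prd_x (n k l : ℕ) (s : ℕ) (hs : 1 ≤ s) (A : Mon n → Finset ℤ)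
    (hA : ∀ m, (A m).card ≤ s) (S : Finset MP) (hS : ∀ F ∈ S, InA A F)
    (hP : ∀ F ∈ S, Prd k l F) :
    S.card ≤ (NN n * 2 + 1) ^ (NN k + NN l) * s ^ (NN k + NN l) := by
  classical
  set G : MvPolynomial (Fin 2) (MvPolynomial (Mon k ⊕ Mon l) ℚ) :=
    gp (fun u : Mon k => MvPolynomial.X (Sum.inl u)) *
    gp (fun u : Mon l => MvPolynomial.X (Sum.inr u)) with hG
  obtain ⟨h1, h2⟩ := card_vec hS
  have h3 : Fintype.card (Mon k ⊕ Mon l) = NN k + NN l := by
    rw [Fintype.card_sum, card_mon, card_mon]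
  rw [← h1, ← h3, ← card_mon n]
  refine grid_x (fun m : Mon n => G.coeff (ex ((m.1 : ℕ) - (m.2 : ℕ)) (m.2 : ℕ))) 2
    (fun m => mv_coeff_mul_deg (gp_X_deg _) (gp_X_deg _) _) s hs A hA _ h2 ?_
  intro a ha
  obtain ⟨F, hF, rfl⟩ := mem_image.1 ha
  obtain ⟨P, Q, hPd, hQd, hPQ⟩ := hP F hF
  set t : Mon k ⊕ Mon l → ℚ := Sum.elim
    (fun u => P.coeff (ex ((u.1 : ℕ) - (u.2 : ℕ)) (u.2 : ℕ)))
    (fun u => Q.coeff (ex ((u.1 : ℕ) - (u.2 : ℕ)) (u.2 : ℕ))) with ht
  refine ⟨t, fun m => ?_⟩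
  have h4 : MvPolynomial.map (MvPolynomial.eval t) G = P * Q := by
    rw [hG, map_mul, gp_map, gp_map]
    simp only [MvPolynomial.eval_X, ht, Sum.elim_inl, Sum.elim_inr]
    rw [eq_gp P hPd, eq_gp Q hQd]
  rw [← MvPolynomial.coeff_map, h4, ← hPQ, MvPolynomial.coeff_map]
  rfl

theorem ur_x {n : ℕ} (hn : 1 ≤ n) (s : ℕ) (hs : 1 ≤ s) (A : Mon n → Finset ℤ)
    (hA : ∀ m, (A m).card ≤ s) (S : Finset MP) (hS : ∀ F ∈ S, InA A F)
    (h : ∀ F ∈ S, ld n F ≠ 0 ∧ ¬ IrrQ F) :
    S.card ≤ n * (NN n * 2 + 1) ^ NN n * s ^ (NN n - (n - 2)) := by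
  classical
  have hsub : S ⊆ (Icc 1 (n - 1)).biUnion fun k => S.filter fun F => Prd k (n - k) F := by
    intro F hF
    obtain ⟨k, l, hk, hl, hkl, hP⟩ := prd_of_red hn (hS F hF).1 (h F hF).1 (h F hF).2
    rw [mem_biUnion]
    refine ⟨k, mem_Icc.2 ⟨hk, by omega⟩, mem_filter.2 ⟨hF, ?_⟩⟩
    have h1 : n - k = l := by omega
    rw [h1]
    exact hP
  refine (card_le_card hsub).trans (card_biUnion_le.trans ?_)
  have hk1 : ∀ k ∈ Icc 1 (n - 1), (S.filter fun F => Prd k (n - k) F).card ≤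
      (NN n * 2 + 1) ^ NN n * s ^ (NN n - (n - 2)) := by
    intro k hk
    have hk' := mem_Icc.1 hk
    have h1 := nn_split (k := k) (l := n - k) (by omega) (by omega)
    have h2 : k + (n - k) = n := by omega
    rw [h2] at h1
    refine (prd_x n k (n - k) s hs A hA _ (fun F hF => hS F (mem_filter.1 hF).1)
      (fun F hF => (mem_filter.1 hF).2)).trans ?_
    exact Nat.mul_le_mul (Nat.pow_le_pow_right (by omega) (by omega))
      (Nat.pow_le_pow_right hs (by omega))
  refine (sum_le_sum hk1).trans ?_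
  rw [sum_const, Nat.card_Icc, smul_eq_mul, ← mul_assoc]
  exact Nat.mul_le_mul_right _ (Nat.mul_le_mul_right _ (by omega))

open Polynomial in
theorem pow_one_x (n j r : ℕ) (s : ℕ) (hs : 1 ≤ s) (A : Mon n → Finset ℤ)
    (hA : ∀ m, (A m).card ≤ s) (S : Finset MP) (hS : ∀ F ∈ S, InA A F)
    (hP : ∀ F ∈ S, ∃ (a : ℤ) (p : ℤ[X]), p ≠ 0 ∧ p.natDegree = r ∧ ld n F = C a * p ^ j) :
    S.card ≤ (NN n * (1 + j) + 1) ^ (NN n - (n + 1) + (r + 1)) *
      s ^ (NN n - (n + 1) + (r + 1)) := by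
  classical
  set G : (MvPolynomial (Low n ⊕ Option (Fin r)) ℚ)[X] :=
    C (MvPolynomial.X (Sum.inr none) : MvPolynomial (Low n ⊕ Option (Fin r)) ℚ) *
      (qp r fun i => (MvPolynomial.X (Sum.inr (some i)) :
        MvPolynomial (Low n ⊕ Option (Fin r)) ℚ)) ^ j with hG
  obtain ⟨h1, h2⟩ := card_vec hS
  have h3 : Fintype.card (Low n ⊕ Option (Fin r)) ≤ NN n - (n + 1) + (r + 1) := by
    rw [Fintype.card_sum, Fintype.card_option, Fintype.card_fin]
    have := card_low n
    omega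
  have hGd : ∀ i, (G.coeff i).totalDegree ≤ 1 + j := by
    intro i
    refine po_coeff_mul_deg ?_ (po_pow_deg (qp_X_deg _) j) i
    intro k
    rw [coeff_C]
    split_ifs
    · exact (MvPolynomial.totalDegree_X _).le
    · rw [MvPolynomial.totalDegree_zero]
      exact Nat.zero_le _
  rw [← h1]
  have hK := grid_x (fun m : Mon n => if h : (m.1 : ℕ) < n then
    (MvPolynomial.X (Sum.inl ⟨m, h⟩) : MvPolynomial (Low n ⊕ Option (Fin r)) ℚ)
    else G.coeff (m.2 : ℕ)) (1 + j) (by
      intro m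
      by_cases hm : (m.1 : ℕ) < n
      · rw [dif_pos hm]
        exact (MvPolynomial.totalDegree_X _).le.trans (by omega)
      · rw [dif_neg hm]
        exact hGd _) s hs A hA _ h2 ?_
  · rw [card_mon] at hK
    refine hK.trans (Nat.mul_le_mul (Nat.pow_le_pow_right (by omega) h3)
      (Nat.pow_le_pow_right hs h3))
  intro b hb
  obtain ⟨F, hF, rfl⟩ := mem_image.1 hb
  obtain ⟨a, p, hp0, hpr, hap⟩ := hP F hF
  subst hpr
  set t : Low n ⊕ Option (Fin p.natDegree) → ℚ := Sum.elim (fun m => (vec n F m.1 : ℚ))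
    (fun o => o.elim ((a : ℚ) * (p.leadingCoeff : ℚ) ^ j)
      fun i => (p.coeff i : ℚ) / (p.leadingCoeff : ℚ)) with ht
  refine ⟨t, fun m => ?_⟩
  by_cases hm : (m.1 : ℕ) < n
  · rw [dif_pos hm, MvPolynomial.eval_X, ht, Sum.elim_inl]
  · rw [dif_neg hm]
    have h4 : G.map (MvPolynomial.eval t) = (ld n F).map (Int.castRingHom ℚ) := by
      rw [hG, Polynomial.map_mul, Polynomial.map_C, Polynomial.map_pow, qp_map, hap,
        Polynomial.map_mul, Polynomial.map_C, Polynomial.map_pow, ← qp_eq p hp0]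
      simp only [MvPolynomial.eval_X, ht, Sum.elim_inr, Option.elim_none, Option.elim_some]
      rw [mul_pow, C_mul, ← C_pow, mul_assoc]
      rfl
    have h5 := congrArg (fun q : ℚ[X] => q.coeff (m.2 : ℕ)) h4
    simp only [coeff_map] at h5
    have h6 : (m.1 : ℕ) = n := by
      have := m.1.2
      omega
    have h7 : (m.2 : ℕ) ≤ n := by
      have := m.2.2
      omega
    rw [h5, ld_coeff F _ h7]
    have h8 : vec n F m = arrM F (n - (m.2 : ℕ)) (m.2 : ℕ) := by
      unfold vec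
      have h9 : (m.1 : ℕ) - (m.2 : ℕ) = n - (m.2 : ℕ) := by omega
      exact congrArg (fun i => arrM F i (m.2 : ℕ)) h9
    rw [h8]
    rfl

open Polynomial in
theorem up_x {n : ℕ} (hn : 1 ≤ n) (s : ℕ) (hs : 1 ≤ s) (A : Mon n → Finset ℤ)
    (hA : ∀ m, (A m).card ≤ s) (S : Finset MP) (hS : ∀ F ∈ S, InA A F)
    (h : ∀ F ∈ S, (ld n F).natDegree = n ∧ Pow (ld n F)) :
    S.card ≤ (n + 1) * (n / 2 + 1) * (NN n * (1 + n) + 1) ^ NN n *
      s ^ (NN n - (n + 1) / 2) := by
  classical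
  have hsub : S ⊆ (range (n + 1) ×ˢ range (n / 2 + 1)).biUnion fun jr => S.filter fun F =>
      ∃ (a : ℤ) (p : ℤ[X]), p ≠ 0 ∧ p.natDegree = jr.2 ∧ ld n F = C a * p ^ jr.1 := by
    intro F hF
    obtain ⟨h1, a, p, j, hj, hap⟩ := h F hF
    have hg0 : ld n F ≠ 0 := by
      intro h2
      rw [h2, natDegree_zero] at h1
      omega
    have ha0 : a ≠ 0 := by
      rintro rfl
      exact hg0 (by rw [hap, C_0, zero_mul])
    have hp0 : p ≠ 0 := by
      rintro rfl
      exact hg0 (by rw [hap, zero_pow (by omega), mul_zero])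
    have h2 : j * p.natDegree = n := by
      rw [← h1, hap, natDegree_C_mul ha0, natDegree_pow]
    have h3 : 0 < p.natDegree := by
      rcases Nat.eq_zero_or_pos p.natDegree with h4 | h4
      · rw [h4, mul_zero] at h2
        omega
      · exact h4
    have h4 : j ≤ n := by
      rw [← h2]
      exact Nat.le_mul_of_pos_right _ h3
    have h5 : p.natDegree ≤ n / 2 := by
      rw [Nat.le_div_iff_mul_le (by norm_num), mul_comm]
      rw [← h2]
      exact Nat.mul_le_mul_right _ hj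
    rw [mem_biUnion]
    refine ⟨(j, p.natDegree), ?_, mem_filter.2 ⟨hF, a, p, hp0, rfl, hap⟩⟩
    rw [mem_product, mem_range, mem_range]
    exact ⟨by simp only; omega, by simp only; omega⟩
  refine (card_le_card hsub).trans (card_biUnion_le.trans ?_)
  have h7 := card_low n
  have hone : ∀ jr ∈ range (n + 1) ×ˢ range (n / 2 + 1), (S.filter fun F =>
      ∃ (a : ℤ) (p : ℤ[X]), p ≠ 0 ∧ p.natDegree = jr.2 ∧ ld n F = C a * p ^ jr.1).card ≤
      (NN n * (1 + n) + 1) ^ NN n * s ^ (NN n - (n + 1) / 2) := by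
    intro jr hjr
    have h6 := mem_product.1 hjr
    rw [mem_range, mem_range] at h6
    refine (pow_one_x n jr.1 jr.2 s hs A hA _ (fun F hF => hS F (mem_filter.1 hF).1)
      (fun F hF => (mem_filter.1 hF).2)).trans ?_
    refine Nat.mul_le_mul ?_ (Nat.pow_le_pow_right hs (by omega))
    refine (Nat.pow_le_pow_left ?_ _).trans (Nat.pow_le_pow_right (by omega) (by omega))
    exact Nat.add_le_add_right (Nat.mul_le_mul_left _ (by omega)) 1
  refine (sum_le_sum hone).trans ?_
  rw [sum_const, card_product, card_range, card_range, smul_eq_mul, ← mul_assoc]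

end Pool.Agent.H15.RX
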