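import Mathlib

/-!
# HOM: factors of a homogeneous polynomial; the kinds of a leading form

`hom_of_mul`: factors of a homogeneous polynomial in `ℚ[x, y]` are homogeneous. `kinds`: a form of
positive degree which is not `c q^j`, `j ≥ 2`, `q` irreducible, is irreducible or a product of two
coprime forms of positive degrees.
-/

set_option autoImplicit false

namespace Pool.Agent.H15.RX

open MvPolynomial

/-- `A(t x, t y)` as a polynomial in `t` -/
noncomputable def tt : MvPolynomial (Fin 2) ℚ →ₐ[ℚ] Polynomial (MvPolynomial (Fin 2) ℚ) :=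
  MvPolynomial.aeval (fun i => Polynomial.C (MvPolynomial.X i) * Polynomial.X)

theorem tt_monomial (m : Fin 2 →₀ ℕ) (r : ℚ) :
    tt (monomial m r) = Polynomial.monomial m.degree (monomial m r) := by
  unfold tt
  rw [aeval_monomial, Finsupp.prod_fintype _ _ (by simp), Fin.prod_univ_two]
  have h1 : m.degree = m 0 + m 1 := by rw [Finsupp.degree_eq_sum, Fin.sum_univ_two]
  rw [mul_pow, mul_pow, ← Polynomial.C_mul_X_pow_eq_monomial, h1, pow_add]
  have h2 : (monomial m r : MvPolynomial (Fin 2) ℚ) = C r * (X 0 ^ m 0 * X 1 ^ m 1) := by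
    rw [monomial_eq, Finsupp.prod_fintype _ _ (by simp), Fin.prod_univ_two]
  rw [h2, map_mul, map_mul, map_pow, map_pow]
  have h3 : (algebraMap ℚ (Polynomial (MvPolynomial (Fin 2) ℚ))) r = Polynomial.C (C r) := rfl
  rw [h3]
  ring

theorem tt_coeff (A : MvPolynomial (Fin 2) ℚ) (k : ℕ) :
    (tt A).coeff k = homogeneousComponent k A := by
  induction A using MvPolynomial.induction_on' with
  | monomial m r =>
    rw [tt_monomial, Polynomial.coeff_monomial]
    have h3 := homogeneousComponent_of_mem (m := k)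
      ((mem_homogeneousSubmodule m.degree _).2 (isHomogeneous_monomial (σ := Fin 2) r rfl))
    rw [h3]
    simp only [eq_comm]
  | add p q hp hq =>
    rw [map_add, Polynomial.coeff_add, map_add, hp, hq]

theorem tt_inj {A : MvPolynomial (Fin 2) ℚ} (h : tt A = 0) : A = 0 := by
  rw [← sum_homogeneousComponent A]
  refine Finset.sum_eq_zero fun k _ => ?_
  rw [← tt_coeff, h, Polynomial.coeff_zero]

theorem tt_hom {A : MvPolynomial (Fin 2) ℚ} {n : ℕ} (h : A.IsHomogeneous n) :
    tt A = Polynomial.monomial n A := by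
  ext1 k
  rw [tt_coeff, Polynomial.coeff_monomial,
    homogeneousComponent_of_mem ((mem_homogeneousSubmodule n _).2 h)]
  simp only [eq_comm]

theorem hom_of_tt {A : MvPolynomial (Fin 2) ℚ}
    (h : (tt A).natDegree ≤ (tt A).natTrailingDegree) : A.IsHomogeneous (tt A).natDegree := by
  have h1 : homogeneousComponent (tt A).natDegree A = A := by
    ext m
    rw [coeff_homogeneousComponent]
    split_ifs with hm
    · rfl
    · have h2 : coeff m A = coeff m (homogeneousComponent m.degree A) := by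
        rw [coeff_homogeneousComponent, if_pos rfl]
      rw [h2, ← tt_coeff]
      rcases lt_or_gt_of_ne hm with h3 | h3
      · rw [Polynomial.coeff_eq_zero_of_lt_natTrailingDegree (lt_of_lt_of_le h3 h), coeff_zero]
      · rw [Polynomial.coeff_eq_zero_of_natDegree_lt h3, coeff_zero]
  rw [← h1]
  have h2 := homogeneousComponent_isHomogeneous (tt A).natDegree A
  rwa [h1] at h2 ⊢

theorem hom_of_mul {A B : MvPolynomial (Fin 2) ℚ} {n : ℕ} (hAB : (A * B).IsHomogeneous n)
    (h0 : A * B ≠ 0) : ∃ a b, A.IsHomogeneous a ∧ B.IsHomogeneous b ∧ a + b = n := by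
  have hA : A ≠ 0 := left_ne_zero_of_mul h0
  have hB : B ≠ 0 := right_ne_zero_of_mul h0
  have tA : tt A ≠ 0 := fun h => hA (tt_inj h)
  have tB : tt B ≠ 0 := fun h => hB (tt_inj h)
  have h1 : tt A * tt B = Polynomial.monomial n (A * B) := by
    rw [← map_mul, tt_hom hAB]
  have h2 := Polynomial.natDegree_mul tA tB
  have h3 := Polynomial.natTrailingDegree_mul tA tB
  rw [h1, Polynomial.natDegree_monomial_eq n h0] at h2
  rw [h1, Polynomial.natTrailingDegree_monomial h0] at h3
  have h4 := Polynomial.natTrailingDegree_le_natDegree (tt A)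
  have h5 := Polynomial.natTrailingDegree_le_natDegree (tt B)
  exact ⟨_, _, hom_of_tt (by omega), hom_of_tt (by omega), h2.symm⟩

/-- a form of positive degree, not `c q^j` -/
theorem kinds {L : MvPolynomial (Fin 2) ℚ} {n : ℕ} (hL : L.IsHomogeneous n) (hn : 1 ≤ n)
    (h0 : L ≠ 0) (h : ∀ (q : MvPolynomial (Fin 2) ℚ) (c : ℚ) (j : ℕ), Irreducible q → 2 ≤ j →
      L ≠ C c * q ^ j) :
    Irreducible L ∨ ∃ (d1 d2 : ℕ) (A B : MvPolynomial (Fin 2) ℚ), A.IsHomogeneous d1 ∧
      B.IsHomogeneous d2 ∧ 0 < d1 ∧ 0 < d2 ∧ IsRelPrime A B ∧ L = A * B ∧ n = d1 + d2 := by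
  have hu : ¬ IsUnit L := by
    intro h1
    rw [MvPolynomial.isUnit_iff_eq_C_of_isReduced] at h1
    obtain ⟨a, ha, hE⟩ := h1
    have h2 := hL.totalDegree h0
    rw [hE, totalDegree_C] at h2
    omega
  obtain ⟨q, hq, hqL⟩ := WfDvdMonoid.exists_irreducible_factor hu h0
  obtain ⟨R, hR, hqR⟩ := (FiniteMultiplicity.of_not_isUnit hq.not_isUnit
    h0).exists_eq_pow_mul_and_not_dvd
  obtain ⟨j, hj⟩ : ∃ j, j = multiplicity q L := ⟨_, rfl⟩
  rw [← hj] at hR
  have hj1 : 1 ≤ j := by
    by_contra h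
    have h2 : j = 0 := by omega
    rw [h2, pow_zero, one_mul] at hR
    exact hqR (hR ▸ hqL)
  by_cases hRu : IsUnit R
  · rw [MvPolynomial.isUnit_iff_eq_C_of_isReduced] at hRu
    obtain ⟨a, ha, hE⟩ := hRu
    rcases Nat.lt_or_ge 1 j with h3 | h3
    · exact absurd (by rw [hR, hE, mul_comm]) (h q a j hq h3)
    · left
      have h4 : j = 1 := by omega
      rw [hR, h4, pow_one, hE]
      exact (associated_mul_unit_right q _ (ha.map C)).irreducible hq
  · right
    have hprod : q ^ j * R ≠ 0 := hR ▸ h0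
    obtain ⟨a, b, hA, hB, hab⟩ := hom_of_mul (hR ▸ hL) hprod
    have hunit : ∀ {P : MvPolynomial (Fin 2) ℚ} {k : ℕ}, P.IsHomogeneous k → P ≠ 0 →
        ¬ IsUnit P → 0 < k := by
      intro P k hP hP0 hPu
      rcases Nat.eq_zero_or_pos k with hk | hk
      · exfalso
        apply hPu
        have h1 := hP.totalDegree hP0
        rw [hk, totalDegree_eq_zero_iff_eq_C] at h1
        rw [h1]
        refine (isUnit_iff_ne_zero.2 ?_).map C
        intro h2
        rw [h2, map_zero] at h1
        exact hP0 h1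
      · exact hk
    have hqju : ¬ IsUnit (q ^ j) := by
      intro h1
      exact hq.not_isUnit (isUnit_of_dvd_unit (dvd_pow_self q (by omega)) h1)
    refine ⟨a, b, q ^ j, R, hA, hB, hunit hA (left_ne_zero_of_mul hprod) hqju,
      hunit hB (right_ne_zero_of_mul hprod) hRu, ?_, hR, hab.symm⟩
    refine IsRelPrime.pow_left ?_
    exact (hq.isRelPrime_iff_not_dvd).2 hqR

end Pool.Agent.H15.RX
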