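import Pool.Agent.H97.RU.RUC
import Pool.Agent.H97.SI.TRB
import Pool.Agent.H37.SI.Defs

/-! # [RX MON] Reduction to a monic curve, explicit exponent

The file `Pool/Agent/H97/RU/RUD.lean` with the exponent `(n^2 + 3 n + 1) (n + 1)`. -/


set_option autoImplicit false

namespace Pool.Agent.H15.RX

open Finset Polynomial Pool.Agent.H97.SI Pool.Agent.H97.RU

/-- the substitution `x ↦ x + c y`, `y ↦ y` (inner variable `x`, outer variable `y`) -/
private noncomputable def S1 (R : Type) [CommRing R] (c : ℕ) :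
    MvPolynomial (Fin 2) R →ₐ[R] R[X][X] :=
  MvPolynomial.aeval ![C X + (c : R[X][X]) * X, X]

private theorem lin_pow {R : Type} [CommRing R] (c N j : ℕ) :
    ((C X + (c : R[X][X]) * X) ^ N).coeff j = X ^ (N - j) * ((N.choose j : ℕ) : R[X]) * (c : R[X]) ^ j := by
  have h1 : (C X + (c : R[X][X]) * X) ^ N = ((X + C X : R[X][X]) ^ N).comp (C (c : R[X]) * X) := by
    rw [pow_comp, add_comp, X_comp, C_comp, add_comm]
    simp
  rw [h1, comp_C_mul_X_coeff, coeff_X_add_C_pow]

private theorem co_mono {R : Type} [CommRing R] (c : ℕ) (m : Fin 2 →₀ ℕ) (r : R) (i b : ℕ) :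
    ((S1 R c (MvPolynomial.monomial m r)).coeff b).coeff i =
      if i + b = m 0 + m 1 ∧ m 1 ≤ b then
        r * ((m 0).choose (b - m 1) : R) * (c : R) ^ (b - m 1) else 0 := by
  have h1 : S1 R c (MvPolynomial.monomial m r) =
      C (C r) * (C X + (c : R[X][X]) * X) ^ (m 0) * X ^ (m 1) := by
    unfold S1
    rw [MvPolynomial.aeval_monomial, Finsupp.prod_fintype _ _ (by simp), Fin.prod_univ_two]
    simp only [Matrix.cons_val_zero, Matrix.cons_val_one]
    rw [mul_assoc]
    rfl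
  rw [h1, coeff_mul_X_pow']
  by_cases h2 : m 1 ≤ b
  · rw [if_pos h2, coeff_C_mul, lin_pow]
    have h3 : (X ^ (m 0 - (b - m 1)) * (((m 0).choose (b - m 1) : ℕ) : R[X]) *
        (c : R[X]) ^ (b - m 1) : R[X]) =
        C (((m 0).choose (b - m 1) : R) * (c : R) ^ (b - m 1)) * X ^ (m 0 - (b - m 1)) := by
      simp only [map_mul, map_natCast, map_pow]
      ring
    rw [h3, coeff_C_mul, coeff_C_mul_X_pow]
    by_cases h4 : b - m 1 ≤ m 0
    · by_cases h5 : i + b = m 0 + m 1
      · rw [if_pos (by omega), if_pos ⟨h5, h2⟩, mul_assoc]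
      · rw [if_neg (by omega), if_neg (fun h => h5 h.1), mul_zero]
    · rw [Nat.choose_eq_zero_of_lt (by omega)]
      simp
  · rw [if_neg h2, if_neg (fun h => h2 h.2), coeff_zero]

private theorem co_sum {R : Type} [CommRing R] (c : ℕ) (F : MvPolynomial (Fin 2) R) (i b : ℕ) :
    ((S1 R c F).coeff b).coeff i = ∑ m ∈ F.support,
      if i + b = m 0 + m 1 ∧ m 1 ≤ b then
        F.coeff m * ((m 0).choose (b - m 1) : R) * (c : R) ^ (b - m 1) else 0 := by
  conv_lhs => rw [F.as_sum, map_sum, finset_sum_coeff, finset_sum_coeff]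
  exact Finset.sum_congr rfl fun m _ => co_mono c m _ i b

private theorem deg_eq (m : Fin 2 →₀ ℕ) : m.degree = m 0 + m 1 := by
  rw [Finsupp.degree_eq_sum, Fin.sum_univ_two]

private theorem hom_zero {R : Type} [CommRing R] (c : ℕ) {p : MvPolynomial (Fin 2) R} {k : ℕ}
    (hp : p.IsHomogeneous k) {i b : ℕ} (h : i + b ≠ k) : ((S1 R c p).coeff b).coeff i = 0 := by
  rw [co_sum]
  refine Finset.sum_eq_zero fun m hm => ?_
  have h1 : m.degree = k := by
    rw [Finsupp.degree_eq_weight_one]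
    exact hp (MvPolynomial.mem_support_iff.1 hm)
  rw [deg_eq] at h1
  rw [if_neg]
  rintro ⟨h2, -⟩
  exact h (h2.trans h1)

private theorem top_zero {R : Type} [CommRing R] (c : ℕ) {F : MvPolynomial (Fin 2) R} {d i b : ℕ}
    (hF : F.totalDegree ≤ d) (h : d < i + b) : ((S1 R c F).coeff b).coeff i = 0 := by
  rw [co_sum]
  refine Finset.sum_eq_zero fun m hm => ?_
  have h1 := MvPolynomial.le_totalDegree hm
  rw [if_neg]
  rintro ⟨h2, -⟩
  have h3 : (m.sum fun _ e => e) = m 0 + m 1 := by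
    rw [Finsupp.sum_fintype _ _ (by simp), Fin.sum_univ_two]
  omega

private theorem top_hom {R : Type} [CommRing R] (c : ℕ) {F : MvPolynomial (Fin 2) R} {d i b : ℕ}
    (h : i + b = d) : ((S1 R c F).coeff b).coeff i =
      ((S1 R c (MvPolynomial.homogeneousComponent d F)).coeff b).coeff i := by
  conv_lhs => rw [← MvPolynomial.sum_homogeneousComponent F, map_sum, finset_sum_coeff,
    finset_sum_coeff]
  by_cases hd : d ≤ F.totalDegree
  · rw [Finset.sum_eq_single d]
    · intro k _ hk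
      exact hom_zero c (MvPolynomial.homogeneousComponent_isHomogeneous k F)
        (fun h' => hk (h'.symm.trans h))
    · intro hd'
      exact absurd (Finset.mem_range.2 (by omega)) hd'
  · rw [MvPolynomial.homogeneousComponent_eq_zero d F (by omega), map_zero, coeff_zero, coeff_zero]
    refine Finset.sum_eq_zero fun k hk => ?_
    rw [Finset.mem_range] at hk
    exact hom_zero c (MvPolynomial.homogeneousComponent_isHomogeneous k F) (by omega)

private theorem dh_eq (c : ℕ) (p : MvPolynomial (Fin 2) ℚ) :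
    dh c p = (S1 ℚ c p).map (evalRingHom 1) := by
  have h : (dh c p : ℚ[X]) = (mapRingHom (evalRingHom (1 : ℚ))) (S1 ℚ c p) := by
    unfold dh S1
    induction p using MvPolynomial.induction_on with
    | C r =>
      simp only [MvPolynomial.algHom_C]
      show C r = mapRingHom (evalRingHom 1) (C (C r))
      rw [coe_mapRingHom, map_C, coe_evalRingHom, eval_C]
    | add p q hp hq => simp only [map_add, hp, hq]
    | mul_X p i hp =>
      simp only [map_mul, hp, MvPolynomial.aeval_X]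
      congr 1
      fin_cases i
      · simp
      · simp
  exact h

private theorem dh_coeff (c : ℕ) {p : MvPolynomial (Fin 2) ℚ} {d : ℕ} (hp : p.IsHomogeneous d)
    {b : ℕ} (hb : b ≤ d) : (dh c p).coeff b = ((S1 ℚ c p).coeff b).coeff (d - b) := by
  rw [dh_eq, coeff_map, coe_evalRingHom]
  have h1 : (S1 ℚ c p).coeff b = C (((S1 ℚ c p).coeff b).coeff (d - b)) * X ^ (d - b) := by
    ext i
    rw [coeff_C_mul_X_pow]
    split_ifs with h
    · rw [h]
    · exact hom_zero c hp (by omega)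
  conv_lhs => rw [h1]
  simp

/-- the inverse substitution -/
private noncomputable def T1 (c : ℕ) : ℚ[X][X] →+* MvPolynomial (Fin 2) ℚ :=
  eval₂RingHom (eval₂RingHom MvPolynomial.C (MvPolynomial.X 0 - (c : MvPolynomial (Fin 2) ℚ) *
    MvPolynomial.X 1)) (MvPolynomial.X 1)

private theorem T1_S1 (c : ℕ) (p : MvPolynomial (Fin 2) ℚ) : T1 c (S1 ℚ c p) = p := by
  induction p using MvPolynomial.induction_on with
  | C r =>
    unfold S1 T1
    simp only [MvPolynomial.algHom_C]
    show eval₂RingHom _ _ (C (C r)) = _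
    simp
  | add p q hp hq => rw [map_add, map_add, hp, hq]
  | mul_X p i hp =>
    rw [map_mul, map_mul, hp]
    congr 1
    unfold S1 T1
    rw [MvPolynomial.aeval_X]
    fin_cases i
    · simp
    · simp

private theorem S1_T1 (c : ℕ) (p : ℚ[X][X]) : S1 ℚ c (T1 c p) = p := by
  have h : ((S1 ℚ c).toRingHom.comp (T1 c)) = RingHom.id _ := by
    refine Polynomial.ringHom_ext' (Polynomial.ringHom_ext' ?_ ?_) ?_
    · refine RingHom.ext fun r => ?_
      show S1 ℚ c (T1 c (C (C r))) = C (C r)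
      have h1 : T1 c (C (C r)) = MvPolynomial.C r := by
        unfold T1
        simp
      rw [h1]
      unfold S1
      rw [MvPolynomial.algHom_C]
      rfl
    · unfold S1 T1
      simp
    · unfold S1 T1
      simp
  exact RingHom.congr_fun h p

private theorem S1_map (c : ℕ) (F : MvPolynomial (Fin 2) ℤ) :
    (S1 ℤ c F).map (mapRingHom (Int.castRingHom ℚ)) =
      S1 ℚ c (MvPolynomial.map (Int.castRingHom ℚ) F) := by
  induction F using MvPolynomial.induction_on with
  | C r =>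
    rw [MvPolynomial.map_C]
    unfold S1
    simp only [MvPolynomial.algHom_C]
    show Polynomial.map (mapRingHom (Int.castRingHom ℚ)) (C (C r)) = C (C _)
    rw [map_C, coe_mapRingHom, map_C]
  | add p q hp hq => rw [map_add, Polynomial.map_add, hp, hq, map_add, map_add]
  | mul_X p i hp =>
    rw [map_mul, Polynomial.map_mul, hp, map_mul, map_mul, MvPolynomial.map_X]
    congr 1
    unfold S1
    rw [MvPolynomial.aeval_X, MvPolynomial.aeval_X]
    fin_cases i
    · simp
    · simp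

private theorem S1_eval (c : ℕ) (F : MvPolynomial (Fin 2) ℤ) (x y : ℤ) :
    eval₂ (evalRingHom (x - c * y)) y (S1 ℤ c F) = MvPolynomial.eval ![x, y] F := by
  have h : (eval₂RingHom (evalRingHom (x - c * y)) y) (S1 ℤ c F) =
      MvPolynomial.eval ![x, y] F := by
    induction F using MvPolynomial.induction_on with
    | C r =>
      unfold S1
      simp only [MvPolynomial.algHom_C]
      show eval₂RingHom _ _ (C (C r)) = _
      simp
    | add p q hp hq => rw [map_add, map_add, hp, hq, map_add]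
    | mul_X p i hp =>
      rw [map_mul, map_mul, hp, map_mul, MvPolynomial.eval_X]
      congr 1
      unfold S1
      rw [MvPolynomial.aeval_X]
      fin_cases i
      · simp
      · simp
  exact h

/-- a homogeneous form which is not zero does not vanish at all `(c, 1)`, `c ≤ d` -/
private theorem exists_c {W : MvPolynomial (Fin 2) ℚ} {d : ℕ} (hW : W.IsHomogeneous d)
    (h0 : W ≠ 0) : ∃ c : ℕ, c ≤ d ∧ MvPolynomial.eval ![(c : ℚ), 1] W ≠ 0 := by
  by_contra hcon
  push Not at hcon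
  have hdeg : ∀ m ∈ W.support, m 0 + m 1 = d := by
    intro m hm
    have h1 : m.degree = d := by
      rw [Finsupp.degree_eq_weight_one]
      exact hW (MvPolynomial.mem_support_iff.1 hm)
    rwa [deg_eq] at h1
  obtain ⟨q, hq⟩ : ∃ q : ℚ[X], q = ∑ m ∈ W.support, monomial (m 0) (W.coeff m) := ⟨_, rfl⟩
  have hev : ∀ t : ℚ, q.eval t = MvPolynomial.eval ![t, 1] W := by
    intro t
    rw [hq, eval_finset_sum, MvPolynomial.eval_eq']
    refine Finset.sum_congr rfl fun m _ => ?_
    rw [eval_monomial, Fin.prod_univ_two]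
    simp
  have hnd : q.natDegree ≤ d := by
    rw [hq]
    refine natDegree_sum_le_of_forall_le _ _ fun m hm => ?_
    refine (natDegree_monomial_le _).trans ?_
    have := hdeg m hm
    omega
  have hq0 : q = 0 := by
    refine eq_zero_of_natDegree_lt_card_of_eval_eq_zero' q
      ((range (d + 1)).image (fun k : ℕ => (k : ℚ))) ?_ ?_
    · intro t ht
      rw [Finset.mem_image] at ht
      obtain ⟨k, hk, rfl⟩ := ht
      rw [Finset.mem_range] at hk
      rw [hev]
      exact hcon k (by omega)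
    · rw [Finset.card_image_of_injective _ Nat.cast_injective, Finset.card_range]
      omega
  obtain ⟨m, hm⟩ := MvPolynomial.ne_zero_iff.1 h0
  have hms : m ∈ W.support := MvPolynomial.mem_support_iff.2 hm
  have h1 : q.coeff (m 0) = W.coeff m := by
    rw [hq, finset_sum_coeff, Finset.sum_eq_single m]
    · rw [coeff_monomial, if_pos rfl]
    · intro m' hm' hne
      rw [coeff_monomial, if_neg]
      intro h
      apply hne
      have h2 := hdeg m hms
      have h3 := hdeg m' hm'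
      ext i
      fin_cases i
      · exact h
      · show m' 1 = m 1
        omega
    · intro h
      exact absurd hms h
  rw [hq0, coeff_zero] at h1
  exact hm h1.symm

private theorem two_pow_ge (N : ℕ) : N ≤ 2 ^ N := Nat.lt_two_pow_self.le

private theorem co_bound {n c H : ℕ} {F : MvPolynomial (Fin 2) ℤ} (hc : c ≤ n)
    (hF : F.totalDegree ≤ n) (hH : ∀ m, |F.coeff m| ≤ (H : ℤ)) (i b : ℕ) :
    |((S1 ℤ c F).coeff b).coeff i| ≤ (((n + 1) ^ 2 * 2 ^ n * (n + 1) ^ n * H : ℕ) : ℤ) := by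
  rw [co_sum]
  have hsum : ∀ m ∈ F.support, m 0 + m 1 ≤ n := by
    intro m hm
    have h1 := MvPolynomial.le_totalDegree hm
    have h3 : (m.sum fun _ e => e) = m 0 + m 1 := by
      rw [Finsupp.sum_fintype _ _ (by simp), Fin.sum_univ_two]
    omega
  have hcard : F.support.card ≤ (n + 1) ^ 2 := by
    have h1 : F.support.card ≤ (range (n + 1) ×ˢ range (n + 1)).card := by
      refine Finset.card_le_card_of_injOn (fun m => (m 0, m 1)) ?_ ?_
      · intro m hm
        have h2 := hsum m hm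
        simp only [Finset.coe_product, Finset.coe_range, Set.mem_prod, Set.mem_Iio]
        omega
      · intro m _ m' _ h
        simp only [Prod.mk.injEq] at h
        ext i
        fin_cases i
        · exact h.1
        · exact h.2
    rw [Finset.card_product, Finset.card_range] at h1
    rw [pow_two]
    exact h1
  have hterm : ∀ m ∈ F.support, |(if i + b = m 0 + m 1 ∧ m 1 ≤ b then
        F.coeff m * ((m 0).choose (b - m 1) : ℤ) * (c : ℤ) ^ (b - m 1) else 0)| ≤
        ((2 ^ n * (n + 1) ^ n * H : ℕ) : ℤ) := by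
    intro m hm
    have h2 := hsum m hm
    split_ifs with h
    · rw [abs_mul, abs_mul, abs_pow, Nat.abs_cast, Nat.abs_cast]
      have h3 : (m 0).choose (b - m 1) ≤ 2 ^ n :=
        (Nat.choose_le_two_pow _ _).trans (Nat.pow_le_pow_right (by norm_num) (by omega))
      have h4 : c ^ (b - m 1) ≤ (n + 1) ^ n := by
        calc c ^ (b - m 1) ≤ (n + 1) ^ (b - m 1) := Nat.pow_le_pow_left (by omega) _
          _ ≤ (n + 1) ^ n := Nat.pow_le_pow_right (by omega) (by omega)
      have h3' : (((m 0).choose (b - m 1) : ℕ) : ℤ) ≤ ((2 ^ n : ℕ) : ℤ) := by exact_mod_cast h3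
      have h4' : ((c : ℤ) ^ (b - m 1)) ≤ (((n + 1) ^ n : ℕ) : ℤ) := by exact_mod_cast h4
      calc |F.coeff m| * ((m 0).choose (b - m 1) : ℤ) * (c : ℤ) ^ (b - m 1)
          ≤ (H : ℤ) * ((2 ^ n : ℕ) : ℤ) * (((n + 1) ^ n : ℕ) : ℤ) := by
            refine mul_le_mul (mul_le_mul (hH m) h3' (by positivity) (by positivity)) h4'
              (by positivity) (by positivity)
        _ = ((2 ^ n * (n + 1) ^ n * H : ℕ) : ℤ) := by push_cast; ring
    · rw [abs_zero]
      positivity
  calc |∑ m ∈ F.support, (if i + b = m 0 + m 1 ∧ m 1 ≤ b then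
        F.coeff m * ((m 0).choose (b - m 1) : ℤ) * (c : ℤ) ^ (b - m 1) else 0)|
      ≤ ∑ m ∈ F.support, |(if i + b = m 0 + m 1 ∧ m 1 ≤ b then
        F.coeff m * ((m 0).choose (b - m 1) : ℤ) * (c : ℤ) ^ (b - m 1) else 0)| :=
        Finset.abs_sum_le_sum_abs _ _
    _ ≤ ∑ _m ∈ F.support, ((2 ^ n * (n + 1) ^ n * H : ℕ) : ℤ) := Finset.sum_le_sum hterm
    _ = (F.support.card : ℤ) * ((2 ^ n * (n + 1) ^ n * H : ℕ) : ℤ) := by
        rw [Finset.sum_const, nsmul_eq_mul]
    _ ≤ (((n + 1) ^ 2 : ℕ) : ℤ) * ((2 ^ n * (n + 1) ^ n * H : ℕ) : ℤ) := by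
        refine mul_le_mul_of_nonneg_right ?_ (by positivity)
        exact_mod_cast hcard
    _ = (((n + 1) ^ 2 * 2 ^ n * (n + 1) ^ n * H : ℕ) : ℤ) := by push_cast; ring

/-- the exponent -/
def KM (n : ℕ) : ℕ := (n ^ 2 + 3 * n + 1) * (n + 1)

theorem to_mon_x (n : ℕ) : ∀ (H : ℕ) (F : MvPolynomial (Fin 2) ℤ), 2 ≤ H → F.totalDegree ≤ n →
    (∀ m, |F.coeff m| ≤ (H : ℤ)) → Irreducible (MvPolynomial.map (Int.castRingHom ℚ) F) →
    ∀ (d1 d2 : ℕ) (g h : MvPolynomial (Fin 2) ℚ), g.IsHomogeneous d1 → h.IsHomogeneous d2 → 0 < d1 → 0 < d2 →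
    IsRelPrime g h →
    MvPolynomial.homogeneousComponent (d1 + d2) (MvPolynomial.map (Int.castRingHom ℚ) F) = g * h →
    F.totalDegree = d1 + d2 →
    ∃ (c : ℕ) (a : ℤ) (G : ℤ[X][X]) (P1 P2 : ℚ[X]), c ≤ n ∧ a ≠ 0 ∧ |a| ≤ (H : ℤ) ^ KM n ∧ G.Monic ∧
      1 ≤ G.natDegree ∧ G.natDegree ≤ n ∧ (∀ j, (G.coeff j).natDegree ≤ G.natDegree - j) ∧
      (∀ i j, |(G.coeff j).coeff i| ≤ ((H ^ KM n : ℕ) : ℤ)) ∧ MIrr (G.map (mapRingHom (Int.castRingHom ℚ))) ∧
      P1.Monic ∧ P2.Monic ∧ 0 < P1.natDegree ∧ 0 < P2.natDegree ∧ IsCoprime P1 P2 ∧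
      Pool.Agent.H37.SI.lf 1 (G.map (mapRingHom (Int.castRingHom ℚ))) = P1 * P2 ∧
      ∀ x y : ℤ, MvPolynomial.eval ![x, y] F = 0 → evalEval (x - c * y) (a * y) G = 0 := by
  obtain ⟨K1, hK1⟩ : ∃ K1 : ℕ, K1 = n ^ 2 + 3 * n + 1 := ⟨_, rfl⟩
  have hKM : KM n = K1 * (n + 1) := by rw [hK1]; rfl
  rw [hKM]
  intro H F hH hFn hFH hirr d1 d2 g h hg hh hd1 hd2 hgh htop hdeg
  obtain ⟨FQ, hFQ⟩ : ∃ FQ, FQ = MvPolynomial.map (Int.castRingHom ℚ) F := ⟨_, rfl⟩
  rw [← hFQ] at hirr htop
  obtain ⟨d, hd⟩ : ∃ d, d = d1 + d2 := ⟨_, rfl⟩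
  rw [← hd] at htop hdeg
  have hdn : d ≤ n := hdeg ▸ hFn
  -- the leading form is not zero
  have hF0 : F ≠ 0 := by
    rintro rfl
    rw [MvPolynomial.totalDegree_zero] at hdeg
    omega
  have hW0 : g * h ≠ 0 := by
    rw [← htop]
    obtain ⟨m, hm, hm2⟩ := Finset.exists_mem_eq_sup F.support
      (MvPolynomial.support_nonempty.2 hF0) (fun s => s.sum fun _ e => e)
    have h1 : F.totalDegree = m.sum fun _ e => e := hm2
    intro h0
    have h2 := congrArg (MvPolynomial.coeff m) h0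
    rw [MvPolynomial.coeff_homogeneousComponent, MvPolynomial.coeff_zero, if_pos, hFQ,
      MvPolynomial.coeff_map] at h2
    · have h3 : ((F.coeff m : ℤ) : ℚ) = 0 := h2
      exact MvPolynomial.mem_support_iff.1 hm (by exact_mod_cast h3)
    · rw [← hdeg, h1]
      rfl
  have hWh : (g * h).IsHomogeneous d := by
    rw [hd]
    exact hg.mul hh
  obtain ⟨c, hcd, hc⟩ := exists_c hWh hW0
  have hcn : c ≤ n := hcd.trans hdn
  rw [map_mul] at hc
  have hγ : MvPolynomial.eval ![(c : ℚ), 1] g ≠ 0 := left_ne_zero_of_mul hc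
  have hη : MvPolynomial.eval ![(c : ℚ), 1] h ≠ 0 := right_ne_zero_of_mul hc
  have hγ' : MvPolynomial.eval ![((c : ℤ) : ℚ), 1] g ≠ 0 := by
    rwa [Int.cast_natCast]
  have hη' : MvPolynomial.eval ![((c : ℤ) : ℚ), 1] h ≠ 0 := by
    rwa [Int.cast_natCast]
  obtain ⟨hg1, hg2⟩ := dh_top (c : ℤ) hg
  obtain ⟨hh1, hh2⟩ := dh_top (c : ℤ) hh
  have hcop := dh_cop (c : ℤ) hg hh hgh hγ' hη'
  rw [← hg2] at hγ'
  rw [← hh2] at hη'
  obtain ⟨p, hp⟩ : ∃ p, p = dh c g := ⟨_, rfl⟩
  obtain ⟨q, hq⟩ : ∃ q, q = dh c h := ⟨_, rfl⟩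
  rw [← hp] at hg1 hg2 hγ' hcop
  rw [← hq] at hh1 hh2 hη' hcop
  have hpd : p.natDegree = d1 := le_antisymm hg1 (le_natDegree_of_ne_zero hγ')
  have hqd : q.natDegree = d2 := le_antisymm hh1 (le_natDegree_of_ne_zero hη')
  have hp0 : p ≠ 0 := by
    rintro rfl
    simp at hγ'
  have hq0 : q ≠ 0 := by
    rintro rfl
    simp at hη'
  have hpq : dh c (g * h) = p * q := by
    rw [hp, hq]
    unfold dh
    rw [map_mul]
  have hpqd : (p * q).natDegree = d := by
    rw [natDegree_mul hp0 hq0, hpd, hqd, hd]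
  -- the transformed polynomial
  obtain ⟨F1, hF1⟩ : ∃ F1, F1 = S1 ℤ c F := ⟨_, rfl⟩
  obtain ⟨F2, hF2⟩ : ∃ F2, F2 = S1 ℚ c FQ := ⟨_, rfl⟩
  have hF12 : F1.map (mapRingHom (Int.castRingHom ℚ)) = F2 := by
    rw [hF1, hF2, hFQ]
    exact S1_map c F
  have hcast : ∀ i b, (((F1.coeff b).coeff i : ℤ) : ℚ) = (F2.coeff b).coeff i := by
    intro i b
    rw [← hF12, coeff_map, coe_mapRingHom, coeff_map]
    rfl
  have hz : ∀ i b, d < i + b → (F1.coeff b).coeff i = 0 := by
    intro i b hib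
    rw [hF1]
    exact top_zero c hdeg.le hib
  have ht : ∀ b, b ≤ d → (F2.coeff b).coeff (d - b) = (p * q).coeff b := by
    intro b hb
    rw [hF2, top_hom c (show d - b + b = d by omega), htop, ← hpq, dh_coeff c hWh hb]
  obtain ⟨a, ha⟩ : ∃ a : ℤ, a = (F1.coeff d).coeff 0 := ⟨_, rfl⟩
  have haQ : (a : ℚ) = (p * q).coeff d := by
    rw [ha, hcast, ← ht d le_rfl, Nat.sub_self]
  have haQ2 : (a : ℚ) = p.leadingCoeff * q.leadingCoeff := by
    rw [haQ, ← leadingCoeff_mul, leadingCoeff, hpqd]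
  have hpl : p.leadingCoeff ≠ 0 := leadingCoeff_ne_zero.2 hp0
  have hql : q.leadingCoeff ≠ 0 := leadingCoeff_ne_zero.2 hq0
  have haQ0 : (a : ℚ) ≠ 0 := by
    rw [haQ2]
    exact mul_ne_zero hpl hql
  have ha0 : a ≠ 0 := by
    intro h0
    rw [h0] at haQ0
    simp at haQ0
  have hcd1 : F1.coeff d = C a := by
    ext i
    rcases Nat.eq_zero_or_pos i with rfl | hi
    · rw [coeff_C_zero, ha]
    · rw [hz i d (by omega), coeff_C_of_ne_zero (by omega)]
  have hnd : F1.natDegree = d := by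
    refine le_antisymm ?_ ?_
    · rw [natDegree_le_iff_coeff_eq_zero]
      intro b hb
      ext i
      rw [hz i b (by omega), coeff_zero]
    · refine le_natDegree_of_ne_zero ?_
      rw [hcd1]
      exact C_ne_zero.2 ha0
  have hlc : F1.leadingCoeff = C a := by
    rw [leadingCoeff, hnd, hcd1]
  have hF10 : F1 ≠ 0 := by
    intro h0
    rw [h0, natDegree_zero] at hnd
    omega
  have hnd2 : F2.natDegree = d := by
    rw [← hF12, natDegree_map_eq_of_injective, hnd]
    exact map_injective _ (Int.cast_injective)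
  have hlc2 : F2.leadingCoeff = C (a : ℚ) := by
    rw [leadingCoeff, hnd2, ← hF12, coeff_map, hcd1, coe_mapRingHom, map_C]
    rfl
  obtain ⟨G, hG⟩ : ∃ G, G = F1.integralNormalization := ⟨_, rfl⟩
  have hGd : G.natDegree = d := by
    rw [hG, natDegree_integralNormalization, hnd]
  have hGm : G.Monic := by
    rw [hG]
    exact monic_integralNormalization hF10
  have hd0 : 1 ≤ d := by omega
  have hGQ : G.map (mapRingHom (Int.castRingHom ℚ)) = F2.integralNormalization := by
    rw [hG, ← hF12, integralNormalization_map]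
    rw [hlc]
    show mapRingHom (Int.castRingHom ℚ) (C a) ≠ 0
    rw [coe_mapRingHom, map_C]
    exact C_ne_zero.2 haQ0
  have hGQd : (G.map (mapRingHom (Int.castRingHom ℚ))).natDegree = d := by
    rw [hGQ, natDegree_integralNormalization, hnd2]
  have hGQm : (G.map (mapRingHom (Int.castRingHom ℚ))).Monic := hGm.map _
  -- bounds
  have hb1 : ∀ i b, |(F1.coeff b).coeff i| ≤ (H : ℤ) ^ K1 := by
    intro i b
    rw [hF1]
    refine (co_bound hcn hFn hFH i b).trans ?_
    have h1 : (n + 1) ^ 2 * 2 ^ n * (n + 1) ^ n * H ≤ H ^ K1 := by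
      rw [hK1, pow_succ]
      refine Nat.mul_le_mul_right _ ?_
      have hn2 : n + 1 ≤ 2 ^ n := Nat.lt_two_pow_self
      calc (n + 1) ^ 2 * 2 ^ n * (n + 1) ^ n ≤ (2 ^ n) ^ 2 * 2 ^ n * (2 ^ n) ^ n :=
            Nat.mul_le_mul (Nat.mul_le_mul_right _ (Nat.pow_le_pow_left hn2 2))
              (Nat.pow_le_pow_left hn2 n)
        _ = 2 ^ (n ^ 2 + 3 * n) := by
            rw [← pow_mul, ← pow_mul, ← pow_add, ← pow_add]
            congr 1
            ring
        _ ≤ H ^ (n ^ 2 + 3 * n) := Nat.pow_le_pow_left hH _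
    exact_mod_cast h1
  have hH1 : (1 : ℤ) ≤ (H : ℤ) := by exact_mod_cast (by omega : 1 ≤ H)
  have hKK : (H : ℤ) ^ K1 ≤ (H : ℤ) ^ (K1 * (n + 1)) :=
    pow_le_pow_right₀ hH1 (Nat.le_mul_of_pos_right _ (by omega))
  have haK : |a| ≤ (H : ℤ) ^ K1 := by
    rw [ha]
    exact hb1 0 d
  have hunit : (C (C (a : ℚ)) : ℚ[X][X]) * C (C ((a : ℚ)⁻¹)) = 1 := by
    rw [← map_mul, ← map_mul, mul_inv_cancel₀ haQ0, map_one, map_one]
  refine ⟨c, a, G, C (p.leadingCoeff)⁻¹ * p.scaleRoots a, C (q.leadingCoeff)⁻¹ * q.scaleRoots a,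
    hcn, ha0, haK.trans hKK, hGm, by omega, by omega, ?_, ?_, ?_, ?_, ?_, ?_, ?_, ?_, ?_, ?_⟩
  · -- weights
    intro j
    rw [natDegree_le_iff_coeff_eq_zero]
    intro i hi
    rw [hGd] at hi
    by_cases hj : j = d
    · have h1 : G.coeff j = 1 := by
        rw [hj, ← hGd]
        exact hGm
      rw [h1, coeff_one, if_neg (by omega)]
    · rw [hG, integralNormalization_coeff_ne_natDegree (by rw [hnd]; exact hj), hlc, ← C_pow,
        coeff_mul_C]
      rw [hz i j (by omega), zero_mul]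
  · -- coefficients
    intro i j
    push_cast
    by_cases hj : j = d
    · have h1 : G.coeff j = 1 := by
        rw [hj, ← hGd]
        exact hGm
      rw [h1, coeff_one]
      split_ifs
      · rw [abs_one]
        exact one_le_pow₀ hH1
      · rw [abs_zero]
        positivity
    · rw [hG, integralNormalization_coeff_ne_natDegree (by rw [hnd]; exact hj), hlc, ← C_pow,
        coeff_mul_C, abs_mul, abs_pow, pow_mul, pow_succ, mul_comm]
      refine mul_le_mul ?_ (hb1 i j) (abs_nonneg _) (by positivity)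
      rw [hnd]
      calc |a| ^ (d - 1 - j) ≤ ((H : ℤ) ^ K1) ^ (d - 1 - j) :=
            pow_le_pow_left₀ (abs_nonneg _) haK _
        _ ≤ ((H : ℤ) ^ K1) ^ n := pow_le_pow_right₀ (one_le_pow₀ hH1) (by omega)
  · -- irreducibility
    intro A B hA hB hAB
    have h1 : scaleRoots (A * B * C (C (a : ℚ))) (C (a : ℚ)⁻¹) = F2 := by
      rw [hAB, hGQ]
      have h2 := integralNormalization_mul_C_leadingCoeff F2
      rw [hlc2] at h2
      rw [h2, ← scaleRoots_mul, ← C_mul, mul_inv_cancel₀ haQ0, C_1, scaleRoots_one]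
    rw [mul_scaleRoots_of_noZeroDivisors, mul_scaleRoots_of_noZeroDivisors, scaleRoots_C] at h1
    have h3 : FQ = T1 c (A.scaleRoots (C (a : ℚ)⁻¹)) *
        T1 c (B.scaleRoots (C (a : ℚ)⁻¹) * C (C (a : ℚ))) := by
      rw [← map_mul, ← mul_assoc, h1, hF2, T1_S1]
    rcases hirr.isUnit_or_isUnit h3 with h4 | h4
    · left
      have h5 := h4.map (S1 ℚ c)
      rw [S1_T1] at h5
      have h6 := ((monic_scaleRoots_iff (C (a : ℚ)⁻¹)).2 hA).isUnit_iff.1 h5
      have h7 : A.natDegree = 0 := by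
        rw [← natDegree_scaleRoots A (C (a : ℚ)⁻¹), h6, natDegree_one]
      exact hA.natDegree_eq_zero.1 h7
    · right
      have h5 := h4.map (S1 ℚ c)
      rw [S1_T1] at h5
      have h5' := isUnit_of_mul_isUnit_left h5
      have h6 := ((monic_scaleRoots_iff (C (a : ℚ)⁻¹)).2 hB).isUnit_iff.1 h5'
      have h7 : B.natDegree = 0 := by
        rw [← natDegree_scaleRoots B (C (a : ℚ)⁻¹), h6, natDegree_one]
      exact hB.natDegree_eq_zero.1 h7
  · show (C (p.leadingCoeff)⁻¹ * p.scaleRoots a).leadingCoeff = 1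
    rw [leadingCoeff_mul, leadingCoeff_C, leadingCoeff_scaleRoots, inv_mul_cancel₀ hpl]
  · show (C (q.leadingCoeff)⁻¹ * q.scaleRoots a).leadingCoeff = 1
    rw [leadingCoeff_mul, leadingCoeff_C, leadingCoeff_scaleRoots, inv_mul_cancel₀ hql]
  · rw [natDegree_C_mul (inv_ne_zero hpl), natDegree_scaleRoots, hpd]
    exact hd1
  · rw [natDegree_C_mul (inv_ne_zero hql), natDegree_scaleRoots, hqd]
    exact hd2
  · have h1 := isCoprime_scaleRoots p q (a : ℚ) (IsUnit.mk0 _ haQ0) hcop
    have h2 : IsUnit (C (p.leadingCoeff)⁻¹) := isUnit_C.2 (IsUnit.mk0 _ (inv_ne_zero hpl))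
    have h3 : IsUnit (C (q.leadingCoeff)⁻¹) := isUnit_C.2 (IsUnit.mk0 _ (inv_ne_zero hql))
    exact (isCoprime_mul_unit_left_left h2 _ _).2 ((isCoprime_mul_unit_left_right h3 _ _).2 h1)
  · -- the leading form
    have h1 : C (p.leadingCoeff)⁻¹ * p.scaleRoots (a : ℚ) * (C (q.leadingCoeff)⁻¹ *
        q.scaleRoots (a : ℚ)) = C (a : ℚ)⁻¹ * (p * q).scaleRoots (a : ℚ) := by
      rw [mul_scaleRoots_of_noZeroDivisors, haQ2, mul_inv, C_mul]
      ring
    rw [h1]
    unfold Pool.Agent.H37.SI.lf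
    rw [hGQd]
    ext j
    rw [finset_sum_coeff, coeff_C_mul, coeff_scaleRoots, hpqd]
    simp only [coeff_C_mul_X_pow]
    rw [Finset.sum_ite_eq]
    by_cases hj : j ≤ d
    · rw [if_pos (Finset.mem_range.2 (by omega)), one_mul]
      have h2 := congrArg (fun f : ℚ[X][X] => (f.coeff j).coeff (d - j))
        (integralNormalization_mul_C_leadingCoeff F2)
      rw [hlc2] at h2
      beta_reduce at h2
      rw [coeff_mul_C, coeff_mul_C, coeff_scaleRoots, hnd2, ← C_pow, coeff_mul_C, ht j hj] at h2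
      rw [hGQ, ← h2]
      field_simp
    · rw [if_neg (fun h => hj (by rw [Finset.mem_range] at h; omega)),
        coeff_eq_zero_of_natDegree_lt (by rw [hpqd]; omega), zero_mul, mul_zero]
  · -- zeros
    intro x y hxy
    have h1 := integralNormalization_eval₂_leadingCoeff_mul (p := F1) (by omega)
      (evalRingHom (x - c * y)) y
    rw [hlc, ← hG, hF1, S1_eval, hxy, mul_zero] at h1
    rw [← eval₂_evalRingHom]
    simpa using h1

end Pool.Agent.H15.RX
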