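import Pool.Agent.H15.RX.Defs

/-!
# NM: the norm `nm`, sum of the absolute values of the coefficients

All proofs are short. `nm p = ∑ i ∈ s, |p.coeff i|` for every finite set `s` containing the support
(`nm_eq`). `nm_mul_le`: `(p q).coeff k = ∑ over the antidiagonal`; or write `p = ∑ C a_i X^i`
(`as_sum_support_C_mul_X_pow`), `nm (C a * X^i * q) = |a| nm q`, and `nm_sum_le`. `nm_reflect`:
`coeff_reflect`, `revAt` is an involution (sum over the image of the support, `reflect_support`).
`abs_aeval_le`: `aeval_eq_sum_range` or `aeval` of the sum over the support, `|t|^i ≤ 1`.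
`abs_root_le`: let `D = natDegree p`; if `D = 0` there is no root. If `|x| ≤ 1`: `1 ≤ nm p`. Otherwise
`|p_D| |x|^D ≤ ∑_{i<D} |p_i| |x|^i ≤ (nm p - |p_D|) |x|^(D-1)`, so `|x| ≤ nm p`.
`nm_det_le`: `Matrix.det_apply`, `nm_sum_le`, the sign does not change `nm`, `nm` of a product is at most
the product of the `nm` (induction), `card of Perm (Fin n) = n!`.
-/

set_option autoImplicit false

namespace Pool.Agent.H15.RX

open Finset Polynomial

theorem nm_nonneg (p : ℤ[X]) : 0 ≤ nm p :=
  Finset.sum_nonneg fun _ _ => abs_nonneg _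

theorem nm_eq (p : ℤ[X]) (s : Finset ℕ) (hs : p.support ⊆ s) : nm p = ∑ i ∈ s, |p.coeff i| := by
  unfold nm
  refine Finset.sum_subset hs fun i _ hi => ?_
  rw [Polynomial.notMem_support_iff.1 hi, abs_zero]

theorem nm_zero : nm 0 = 0 := by
  unfold nm
  simp

theorem coeff_le_nm (p : ℤ[X]) (i : ℕ) : |p.coeff i| ≤ nm p := by
  by_cases hi : i ∈ p.support
  · exact Finset.single_le_sum (f := fun i => |p.coeff i|) (fun _ _ => abs_nonneg _) hi
  · rw [Polynomial.notMem_support_iff.1 hi, abs_zero]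
    exact nm_nonneg p

theorem nm_C (a : ℤ) : nm (C a) = |a| := by
  rw [nm_eq (C a) {0} (support_C_subset a), Finset.sum_singleton, coeff_C_zero]

theorem nm_X_pow (k : ℕ) : nm (X ^ k : ℤ[X]) = 1 := by
  rw [nm_eq (X ^ k : ℤ[X]) {k} (by rw [support_X_pow]), Finset.sum_singleton,
    coeff_X_pow_self, abs_one]

theorem nm_neg (p : ℤ[X]) : nm (-p) = nm p := by
  unfold nm
  rw [support_neg]
  exact Finset.sum_congr rfl fun i _ => by rw [coeff_neg, abs_neg]

theorem nm_add_le (p q : ℤ[X]) : nm (p + q) ≤ nm p + nm q := by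
  classical
  rw [nm_eq (p + q) (p.support ∪ q.support) support_add,
    nm_eq p (p.support ∪ q.support) Finset.subset_union_left,
    nm_eq q (p.support ∪ q.support) Finset.subset_union_right, ← Finset.sum_add_distrib]
  refine Finset.sum_le_sum fun i _ => ?_
  rw [coeff_add]
  exact abs_add_le _ _

theorem nm_sum_le {ι : Type} (s : Finset ι) (f : ι → ℤ[X]) :
    nm (∑ i ∈ s, f i) ≤ ∑ i ∈ s, nm (f i) := by
  classical
  induction s using Finset.induction_on with
  | empty => simp [nm_zero]
  | insert a s ha ih =>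
    rw [Finset.sum_insert ha, Finset.sum_insert ha]
    exact (nm_add_le _ _).trans (by omega)

private theorem nm_C_mul (a : ℤ) (q : ℤ[X]) : nm (C a * q) = |a| * nm q := by
  rw [nm_eq (C a * q) q.support ?_]
  · unfold nm
    rw [Finset.mul_sum]
    exact Finset.sum_congr rfl fun i _ => by rw [coeff_C_mul, abs_mul]
  · intro i hi
    rw [mem_support_iff, coeff_C_mul] at hi
    rw [mem_support_iff]
    exact right_ne_zero_of_mul hi

private theorem nm_X_mul (q : ℤ[X]) : nm (X * q) = nm q := by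
  rw [nm_eq q (range (q.natDegree + 1)) supp_subset_range_natDegree_succ,
    nm_eq (X * q) (range (q.natDegree + 1 + 1)) ?_, Finset.sum_range_succ']
  · simp only [coeff_X_mul, coeff_X_mul_zero, abs_zero, add_zero]
  · refine supp_subset_range ?_
    have h1 := natDegree_mul_le (p := (X : ℤ[X])) (q := q)
    have h2 := natDegree_X_le (R := ℤ)
    omega

private theorem nm_X_pow_mul (k : ℕ) (q : ℤ[X]) : nm (X ^ k * q) = nm q := by
  induction k with
  | zero => rw [pow_zero, one_mul]
  | succ k ih => rw [pow_succ', mul_assoc, nm_X_mul, ih]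

theorem nm_mul_le (p q : ℤ[X]) : nm (p * q) ≤ nm p * nm q := by
  have h : p * q = ∑ i ∈ p.support, C (p.coeff i) * (X ^ i * q) := by
    conv_lhs => rw [p.as_sum_support_C_mul_X_pow]
    rw [Finset.sum_mul]
    exact Finset.sum_congr rfl fun i _ => by rw [mul_assoc]
  rw [h]
  refine (nm_sum_le _ _).trans (le_of_eq ?_)
  conv_rhs => rw [nm, Finset.sum_mul]
  exact Finset.sum_congr rfl fun i _ => by rw [nm_C_mul, nm_X_pow_mul]

theorem nm_pow_le (p : ℤ[X]) (k : ℕ) : nm (p ^ k) ≤ nm p ^ k := by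
  induction k with
  | zero =>
    rw [pow_zero, pow_zero]
    have h := nm_X_pow 0
    rw [pow_zero] at h
    exact h.le
  | succ k ih =>
    rw [pow_succ, pow_succ]
    exact (nm_mul_le _ _).trans (mul_le_mul_of_nonneg_right ih (nm_nonneg p))

theorem nm_le_of {p : ℤ[X]} {D : ℕ} {B : ℤ} (hD : p.natDegree ≤ D) (hB : ∀ i, |p.coeff i| ≤ B) :
    nm p ≤ (D + 1) * B := by
  rw [nm_eq p (range (D + 1)) (supp_subset_range (by omega))]
  refine (Finset.sum_le_card_nsmul _ _ B fun i _ => hB i).trans (le_of_eq ?_)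
  rw [card_range, nsmul_eq_mul]
  push_cast
  rfl

theorem nm_reflect (N : ℕ) (p : ℤ[X]) : nm (reflect N p) = nm p := by
  unfold nm
  rw [reflect_support, Finset.sum_image]
  · exact Finset.sum_congr rfl fun i _ => by rw [coeff_reflect, revAt_invol]
  · intro a _ b _ hab
    exact (revAt N).injective hab

theorem one_le_nm {p : ℤ[X]} (hp : p ≠ 0) : 1 ≤ nm p :=
  (Int.one_le_abs (leadingCoeff_ne_zero.2 hp)).trans (coeff_le_nm p p.natDegree)

theorem abs_aeval_le {t : ℝ} (ht : |t| ≤ 1) (p : ℤ[X]) : |aeval t p| ≤ (nm p : ℝ) := by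
  rw [nm_eq p (range (p.natDegree + 1)) supp_subset_range_natDegree_succ, aeval_eq_sum_range]
  refine (Finset.abs_sum_le_sum_abs _ _).trans ?_
  push_cast
  refine Finset.sum_le_sum fun i _ => ?_
  rw [zsmul_eq_mul, abs_mul, abs_pow]
  exact mul_le_of_le_one_right (abs_nonneg _) (pow_le_one₀ (abs_nonneg _) ht)

theorem abs_root_le {p : ℤ[X]} (hp : p ≠ 0) {x : ℤ} (hx : p.eval x = 0) : |x| ≤ nm p := by
  by_cases h1 : |x| ≤ 1
  · exact h1.trans (one_le_nm hp)
  · have h1' : 1 < |x| := not_le.1 h1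
    obtain ⟨D, hD⟩ : ∃ D, D = p.natDegree := ⟨_, rfl⟩
    cases D with
    | zero =>
      exfalso
      have h2 := eq_C_of_natDegree_eq_zero hD.symm
      rw [h2, eval_C] at hx
      rw [hx, C_0] at h2
      exact hp h2
    | succ D =>
      rw [eval_eq_sum_range, ← hD, Finset.sum_range_succ] at hx
      have h3 : nm p = ∑ i ∈ range (D + 1), |p.coeff i| + |p.coeff (D + 1)| := by
        rw [nm_eq p (range (p.natDegree + 1)) supp_subset_range_natDegree_succ, ← hD,
          Finset.sum_range_succ]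
      have h4 : |p.coeff (D + 1)| * |x| ^ (D + 1) ≤
          (∑ i ∈ range (D + 1), |p.coeff i|) * |x| ^ D := by
        have h5 : p.coeff (D + 1) * x ^ (D + 1) =
            -∑ i ∈ range (D + 1), p.coeff i * x ^ i := by linarith
        rw [← abs_pow, ← abs_mul, h5, abs_neg]
        refine (Finset.abs_sum_le_sum_abs _ _).trans ?_
        rw [Finset.sum_mul]
        refine Finset.sum_le_sum fun i hi => ?_
        rw [abs_mul, abs_pow]
        refine mul_le_mul_of_nonneg_left ?_ (abs_nonneg _)
        exact pow_le_pow_right₀ h1'.le (by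
          have := Finset.mem_range.1 hi
          omega)
      have h6 : 0 < |x| ^ D := pow_pos (by omega) D
      have h7 : |p.coeff (D + 1)| * |x| ≤ ∑ i ∈ range (D + 1), |p.coeff i| := by
        rw [pow_succ', ← mul_assoc] at h4
        exact le_of_mul_le_mul_right h4 h6
      have h8 : 1 ≤ |p.coeff (D + 1)| := by
        rw [hD]
        exact Int.one_le_abs (leadingCoeff_ne_zero.2 hp)
      have h9 : 1 * |x| ≤ |p.coeff (D + 1)| * |x| :=
        mul_le_mul_of_nonneg_right h8 (abs_nonneg _)
      omega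

private theorem nm_prod_le {ι : Type} (s : Finset ι) (f : ι → ℤ[X]) :
    nm (∏ i ∈ s, f i) ≤ ∏ i ∈ s, nm (f i) := by
  classical
  induction s using Finset.induction_on with
  | empty =>
    rw [Finset.prod_empty, Finset.prod_empty]
    have h := nm_X_pow 0
    rw [pow_zero] at h
    exact h.le
  | insert a s ha ih =>
    rw [Finset.prod_insert ha, Finset.prod_insert ha]
    exact (nm_mul_le _ _).trans (mul_le_mul_of_nonneg_left ih (nm_nonneg _))

theorem nm_det_le {n : ℕ} (M : Matrix (Fin n) (Fin n) ℤ[X]) {B : ℤ}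
    (hB : ∀ i j, nm (M i j) ≤ B) : nm M.det ≤ (n.factorial : ℤ) * B ^ n := by
  rw [Matrix.det_apply]
  refine (nm_sum_le _ _).trans ?_
  have h1 : ∀ σ ∈ (Finset.univ : Finset (Equiv.Perm (Fin n))),
      nm (Equiv.Perm.sign σ • ∏ i, M (σ i) i) ≤ B ^ n := by
    intro σ _
    have h2 : nm (Equiv.Perm.sign σ • ∏ i, M (σ i) i) = nm (∏ i, M (σ i) i) := by
      rcases Int.units_eq_one_or (Equiv.Perm.sign σ) with h | h
      · rw [h, one_smul]
      · rw [h, Units.neg_smul, one_smul, nm_neg]
    rw [h2]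
    refine (nm_prod_le _ _).trans ?_
    refine (Finset.prod_le_prod (fun i _ => nm_nonneg _) (fun i _ => hB (σ i) i)).trans ?_
    rw [Finset.prod_const, Finset.card_univ, Fintype.card_fin]
  refine (Finset.sum_le_card_nsmul _ _ _ h1).trans (le_of_eq ?_)
  rw [Finset.card_univ, Fintype.card_perm, Fintype.card_fin, nsmul_eq_mul]

end Pool.Agent.H15.RX
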