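import Pool.Agent.H15.RX.NM

/-!
# RED: reduction modulo a monic polynomial

`xpow_mod`: induction on `l`. `l = 0`: `1 %ₘ f = 1` (`modByMonic_eq_self_iff`, degree `0 < d`). Step: let
`r = X^l %ₘ f`, `natDegree r < d`. `X^(l+1) %ₘ f = (X * r) %ₘ f` (`mul_modByMonic`-type: `X^(l+1) - X * r`
is divisible by `f`), and `(X * r) %ₘ f = X * r - C (r.coeff (d-1)) * f` (this difference has degree
`< d`: the coefficient of `X^d` vanishes; `div_modByMonic_unique`). Coefficients: `r.coeff (j-1)` (or `0`)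
minus `r.coeff (d-1) * f.coeff j`: `nm_add_le`, `nm_neg`, `nm_mul_le`:
`(1+A)^l + (1+A)^l A = (1+A)^(l+1)`.

`mod_bound`: `Q = ∑ l ∈ range (L+1), C (Q.coeff l) * X^l`, `modByMonic` is additive and
`(C a * X^l) %ₘ f = C a * (X^l %ₘ f)` (`smul_modByMonic`).
-/

set_option autoImplicit false

namespace Pool.Agent.H15.RX

open Finset Polynomial

theorem xpow_mod {f : ℤ[X][X]} (hf : f.Monic) (h1 : 1 ≤ f.natDegree) {A : ℕ}
    (hfA : ∀ j, nm (f.coeff j) ≤ (A : ℤ)) (l j : ℕ) :
    nm ((X ^ l %ₘ f).coeff j) ≤ (((1 + A) ^ l : ℕ) : ℤ) := by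
  induction l generalizing j with
  | zero =>
    have h2 : (1 : ℤ[X][X]) %ₘ f = 1 := by
      rw [modByMonic_eq_self_iff hf, degree_one]
      exact natDegree_pos_iff_degree_pos.mp h1
    rw [pow_zero, pow_zero, h2, coeff_one]
    split_ifs
    · rw [← C_1, nm_C]
      simp
    · rw [nm_zero]
      simp
  | succ l ih =>
    obtain ⟨d, hd⟩ : ∃ d, f.natDegree = d + 1 := ⟨f.natDegree - 1, by omega⟩
    obtain ⟨r, hr⟩ : ∃ r, r = X ^ l %ₘ f := ⟨_, rfl⟩
    rw [← hr] at ih
    have hrd : ∀ m, d + 1 ≤ m → r.coeff m = 0 := by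
      intro m hm
      refine coeff_eq_zero_of_degree_lt ?_
      have h3 : r.degree < f.degree := by
        rw [hr]
        exact degree_modByMonic_lt _ hf
      refine lt_of_lt_of_le h3 ?_
      rw [degree_eq_natDegree hf.ne_zero, hd]
      exact_mod_cast hm
    have hkey : X ^ (l + 1) %ₘ f = X * r - C (r.coeff d) * f := by
      refine (div_modByMonic_unique (X * (X ^ l /ₘ f) + C (r.coeff d)) _ hf ⟨?_, ?_⟩).2
      · have h4 := modByMonic_add_div (X ^ l) f
        rw [← hr] at h4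
        linear_combination X * h4
      · rw [degree_eq_natDegree hf.ne_zero, hd, degree_lt_iff_coeff_zero]
        intro m hm
        obtain ⟨m', rfl⟩ : ∃ m', m = m' + 1 := ⟨m - 1, by omega⟩
        rw [coeff_sub, coeff_X_mul, coeff_C_mul]
        rcases Nat.lt_or_ge d m' with h5 | h5
        · have h6 : f.coeff (m' + 1) = 0 := coeff_eq_zero_of_natDegree_lt (by omega)
          rw [hrd m' (by omega), h6, mul_zero, sub_zero]
        · have h6 : m' = d := by omega
          have h7 : f.coeff (d + 1) = 1 := by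
            rw [← hd]
            exact hf
          rw [h6, h7, mul_one, sub_self]
    have h8 : nm ((X * r).coeff j) ≤ (((1 + A) ^ l : ℕ) : ℤ) := by
      rcases j with _ | j
      · rw [mul_coeff_zero, coeff_X_zero, zero_mul, nm_zero]
        positivity
      · rw [coeff_X_mul]
        exact ih j
    have h9 : nm ((C (r.coeff d) * f).coeff j) ≤ (((1 + A) ^ l : ℕ) : ℤ) * (A : ℤ) := by
      rw [coeff_C_mul]
      exact (nm_mul_le _ _).trans (mul_le_mul (ih d) (hfA j) (nm_nonneg _) (by positivity))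
    rw [hkey, coeff_sub, sub_eq_add_neg]
    refine (nm_add_le _ _).trans ?_
    rw [nm_neg]
    refine (add_le_add h8 h9).trans (le_of_eq ?_)
    push_cast
    ring

theorem mod_bound {f : ℤ[X][X]} (hf : f.Monic) (h1 : 1 ≤ f.natDegree) {A : ℕ}
    (hfA : ∀ j, nm (f.coeff j) ≤ (A : ℤ)) (Q : ℤ[X][X]) (L : ℕ) (hL : Q.natDegree ≤ L) (k : ℕ) :
    nm ((Q %ₘ f).coeff k) ≤ (∑ l ∈ range (L + 1), nm (Q.coeff l)) * (((1 + A) ^ L : ℕ) : ℤ) := by
  have h2 : Q = ∑ l ∈ range (L + 1), Q.coeff l • (X ^ l : ℤ[X][X]) := by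
    conv_lhs => rw [Q.as_sum_range' (L + 1) (by omega)]
    refine Finset.sum_congr rfl fun l _ => ?_
    rw [← C_mul_X_pow_eq_monomial, smul_eq_C_mul]
  have h3 : Q %ₘ f = ∑ l ∈ range (L + 1), Q.coeff l • (X ^ l %ₘ f) := by
    have h4 : modByMonicHom f Q = ∑ l ∈ range (L + 1), Q.coeff l • modByMonicHom f (X ^ l) := by
      conv_lhs => rw [h2]
      rw [map_sum]
      simp only [map_smul]
    exact h4
  rw [h3, finsetSum_coeff, Finset.sum_mul]
  refine (nm_sum_le _ _).trans (Finset.sum_le_sum fun l hl => ?_)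
  rw [coeff_smul, smul_eq_mul]
  refine (nm_mul_le _ _).trans (mul_le_mul_of_nonneg_left ?_ (nm_nonneg _))
  refine (xpow_mod hf h1 hfA l k).trans ?_
  have h5 : (1 + A) ^ l ≤ (1 + A) ^ L :=
    Nat.pow_le_pow_right (by omega) (by rw [Finset.mem_range] at hl; omega)
  exact_mod_cast h5

end Pool.Agent.H15.RX
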