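import Mathlib

/-!
# RNK: the rank of the system is at most `m d1`

`A = ℚ[X][X]`, inner variable `t`, outer variable `z`. `hh = h.map C`, `gg = g.map C` (polynomials in `z`
with constant coefficients), `gg * hh = (g * h).map C = f - C X * E`. Let
`Φ : A →ₗ[ℚ] (Fin d × Fin m → ℚ)`, `Φ Q = fun ks => (((hh ^ m * Q) %ₘ f).coeff ks.1).coeff ks.2`
(additive: `add_modByMonic`, `mul_add`; `ℚ`-linear: `smul_modByMonic` for the scalar `C q`, or
`(modByMonicHom f).restrictScalars`).

Kernel: (k1) `Φ (f * Q) = 0` (`(modByMonic_eq_zero_iff_dvd hf).2`). (k2) `Φ (C (X ^ m) * Q) = 0`: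
`(C (X^m) * S) %ₘ f = C (X^m) * (S %ₘ f)` (`smul_modByMonic`, `smul_eq_C_mul`), its coefficients are
`X ^ m * _`, with zero coefficients below `m`. (k3) `Φ (gg ^ m * Q) = 0`: `hh^m gg^m = (f - C X * E)^m` and
`f` divides `(f - C X * E)^m - (- C X * E)^m` (`sub_dvd_pow_sub_pow`), so by (k1)-type and (k2)-type
arguments `(hh^m gg^m Q) %ₘ f = ((- C X E)^m Q) %ₘ f` has zero coefficients below `m`.

`S = Submodule.span ℚ (Set.range fun sj : Fin m × Fin d1 => C (X ^ sj.1) * X ^ sj.2)`, `d1 = g.natDegree`.
Claim: for all `s ≤ m`, all `Q : A`: `C (X ^ s) * Q ∈ S ⊔ ker Φ`. Downward induction on `s`; `s = m` is (k2).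
Step `s < m`: `Q = gg * q + r`, `r = Q %ₘ gg`, `q = Q /ₘ gg` (`gg` monic, `natDegree r < d1`, if `d1 = 0` then
`r = 0`). `r = ∑ j < d1, C (r.coeff j) * X^j`, `r.coeff j = C c_j + X * divX (r.coeff j)`: so
`C (X^s) * r = ∑ c_j • (C (X^s) * X^j) + C (X^(s+1)) * (∑ j, C (divX (r.coeff j)) * X^j)`: first sum in
`S`, the rest by induction. `C (X^s) * (gg * q)`: `IsCoprime h (g ^ (m - 1))`: `a h + b g^(m-1) = 1`, so
`g = a g h + b g^m` (`m ≥ 1` because `s < m`), `gg = a' (f - C X * E) + b' gg^m` with `a' = a.map C`,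
`b' = b.map C`: `C (X^s) * (gg * q) = f * (..) - C (X^(s+1)) * (a' E q) + gg^m * (..)`: in
`ker Φ`, by induction, in `ker Φ`.

So `range Φ = map Φ ⊤ ≤ map Φ S` has finrank at most `m * d1` (`Submodule.finrank_map_le`,
`finrank_range_le_card`). The columns of the matrix are the vectors `Φ (v i)`:
`Matrix.rank_eq_finrank_span_cols`, `Submodule.finrank_mono`.
-/

set_option autoImplicit false

namespace Pool.Agent.H15.RX

open Finset Polynomial

/-- the linear map of the system -/
noncomputable def rnkPhi (d m : ℕ) (f hh : ℚ[X][X]) : ℚ[X][X] →ₗ[ℚ] (Fin d × Fin m → ℚ) where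
  toFun Q := fun ks => (((hh ^ m * Q) %ₘ f).coeff (ks.1 : ℕ)).coeff (ks.2 : ℕ)
  map_add' P Q := by
    funext ks
    simp [mul_add, add_modByMonic]
  map_smul' c Q := by
    funext ks
    have h1 : hh ^ m * (c • Q) = (C c : ℚ[X]) • (hh ^ m * Q) := by
      rw [mul_smul_comm]
      ext i j
      simp [Polynomial.coeff_smul]
    rw [h1, smul_modByMonic]
    simp [Polynomial.coeff_smul]

theorem rnk_cf (m : ℕ) {f : ℚ[X][X]} (hf : f.Monic) (P R : ℚ[X][X])
    (hd : f ∣ P - C (X ^ m) * R) (k s : ℕ) (hs : s < m) : ((P %ₘ f).coeff k).coeff s = 0 := by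
  have h1 : P %ₘ f = (C (X ^ m) * R) %ₘ f := by
    have h2 := (modByMonic_eq_zero_iff_dvd hf).2 hd
    rw [sub_modByMonic] at h2
    exact sub_eq_zero.1 h2
  rw [h1, ← smul_eq_C_mul, smul_modByMonic, coeff_smul, smul_eq_mul, coeff_X_pow_mul']
  rw [if_neg (by omega)]

theorem rnk_ker (d m : ℕ) {f : ℚ[X][X]} (hf : f.Monic) (hh Q R : ℚ[X][X])
    (hd : f ∣ hh ^ m * Q - C (X ^ m) * R) : Q ∈ LinearMap.ker (rnkPhi d m f hh) := by
  rw [LinearMap.mem_ker]
  funext ks
  exact rnk_cf m hf _ R hd _ _ ks.2.2

theorem rnk_claim (d m : ℕ) {f E : ℚ[X][X]} (hf : f.Monic)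
    {g h : ℚ[X]} (hg : g.Monic) (hcop : IsCoprime g h) (hE : f = (g * h).map C + C X * E) :
    ∀ (n s : ℕ), s + n = m → ∀ Q : ℚ[X][X], C (X ^ s) * Q ∈
      Submodule.span ℚ (Set.range fun sj : Fin m × Fin g.natDegree =>
        (C (X ^ (sj.1 : ℕ)) * X ^ (sj.2 : ℕ) : ℚ[X][X])) ⊔
        LinearMap.ker (rnkPhi d m f (h.map C)) := by
  intro n
  induction n with
  | zero =>
    intro s hs Q
    apply Submodule.mem_sup_right
    have : s = m := by omega
    subst this
    apply rnk_ker d s hf _ _ ((h.map C) ^ s * Q)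
    have h0 : (h.map C) ^ s * (C (X ^ s) * Q) - C (X ^ s) * ((h.map C) ^ s * Q)
        = (0 : ℚ[X][X]) := by ring
    rw [h0]
    exact dvd_zero _
  | succ n ih =>
    intro s hs Q
    have hsm : s < m := by omega
    have hgg : (g.map (C : ℚ →+* ℚ[X])).Monic := hg.map _
    set gg : ℚ[X][X] := g.map C with hggd
    set hh : ℚ[X][X] := h.map C with hhhd
    have hgh : gg * hh = f - C X * E := by
      rw [hE, hggd, hhhd, Polynomial.map_mul]
      ring
    have hQ : Q = gg * (Q /ₘ gg) + Q %ₘ gg := by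
      have := modByMonic_add_div Q gg
      linear_combination -this
    set q := Q /ₘ gg with hq
    set r := Q %ₘ gg with hr
    have hsplit : C (X ^ s) * Q = C (X ^ s) * (gg * q) + C (X ^ s) * r := by
      conv_lhs => rw [hQ]
      ring
    rw [hsplit]
    apply Submodule.add_mem
    · -- the multiple of gg
      have hc : IsCoprime h (g ^ (m - 1)) := (hcop.symm).pow_right
      obtain ⟨a, b, hab⟩ := hc
      have hgab : g = a * (g * h) + b * g ^ m := by
        have hm : g ^ m = g ^ (m - 1) * g := by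
          rw [← pow_succ]
          congr 1
          omega
        rw [hm]
        linear_combination -g * hab
      have hggab : gg = a.map C * (f - C X * E) + b.map C * gg ^ m := by
        rw [← hgh]
        have := congrArg (Polynomial.map (C : ℚ →+* ℚ[X])) hgab
        simpa [Polynomial.map_add, Polynomial.map_mul, Polynomial.map_pow] using this
      have h3 : C (X ^ s) * (gg * q) = f * (C (X ^ s) * (a.map C * q))
          + C (X ^ (s + 1)) * (-(a.map C * E * q)) + gg ^ m * (C (X ^ s) * (b.map C * q)) := by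
        have hXs : (C (X ^ (s + 1)) : ℚ[X][X]) = C (X ^ s) * C X := by
          rw [← C_mul, ← pow_succ]
        rw [hXs]
        conv_lhs => rw [hggab]
        ring
      rw [h3]
      apply Submodule.add_mem
      · apply Submodule.add_mem
        · apply Submodule.mem_sup_right
          apply rnk_ker d m hf _ _ 0
          rw [mul_zero, sub_zero]
          have h4 : hh ^ m * (f * (C (X ^ s) * (a.map C * q))) =
              f * (hh ^ m * (C (X ^ s) * (a.map C * q))) := by ring
          rw [h4]
          exact dvd_mul_right _ _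
        · exact ih (s + 1) (by omega) _
      · apply Submodule.mem_sup_right
        set Q' := C (X ^ s) * (b.map C * q) with hQ'
        apply rnk_ker d m hf _ _ ((-E) ^ m * Q')
        have h5 : hh ^ m * (gg ^ m * Q') - C (X ^ m) * ((-E) ^ m * Q') =
            ((f - C X * E) ^ m - (-(C X * E)) ^ m) * Q' := by
          rw [← hgh]
          have : (C (X ^ m) : ℚ[X][X]) = C X ^ m := by rw [← C_pow]
          rw [this]
          have h6 : (-(C X * E)) ^ m = (C X : ℚ[X][X]) ^ m * (-E) ^ m := by
            rw [← mul_pow]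
            congr 1
            ring
          rw [h6]
          ring
        rw [h5]
        apply Dvd.dvd.mul_right
        have h7 := sub_dvd_pow_sub_pow (f - C X * E) (-(C X * E)) m
        have h8 : f - C X * E - -(C X * E) = f := by ring
        rwa [h8] at h7
    · -- the remainder
      have hdeg : r.natDegree < g.natDegree ∨ r = 0 := by
        by_cases hr0 : r = 0
        · exact Or.inr hr0
        · left
          have h9 := degree_modByMonic_lt Q hgg
          rw [← hr] at h9
          have h10 := natDegree_lt_natDegree hr0 h9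
          rwa [hggd, natDegree_map_eq_of_injective C_injective] at h10
      have hr2 : r = ∑ j ∈ range g.natDegree, C (r.coeff j) * X ^ j := by
        rcases hdeg with h11 | h11
        · exact as_sum_range_C_mul_X_pow' _ h11
        · rw [h11]; simp
      have h12 : C (X ^ s) * r = ∑ j ∈ range g.natDegree,
          ((r.coeff j).coeff 0 • (C (X ^ s) * X ^ j : ℚ[X][X])) +
          C (X ^ (s + 1)) * ∑ j ∈ range g.natDegree, C (divX (r.coeff j)) * X ^ j := by
        conv_lhs => rw [hr2]
        rw [mul_sum, mul_sum, ← sum_add_distrib]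
        apply sum_congr rfl
        intro j _
        have h13 : C (r.coeff j) = (C (X * divX (r.coeff j) + C ((r.coeff j).coeff 0)) : ℚ[X][X])
            := by rw [X_mul_divX_add]
        have h14 : (r.coeff j).coeff 0 • (C (X ^ s) * X ^ j : ℚ[X][X]) =
            C (C ((r.coeff j).coeff 0)) * (C (X ^ s) * X ^ j) := by
          ext i k
          simp [Polynomial.coeff_smul]
        rw [h14, h13]
        simp only [map_add, map_mul, map_pow]
        ring
      rw [h12]
      apply Submodule.add_mem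
      · apply Submodule.sum_mem
        intro j hj
        apply Submodule.smul_mem
        apply Submodule.mem_sup_left
        apply Submodule.subset_span
        exact ⟨(⟨s, hsm⟩, ⟨j, mem_range.1 hj⟩), rfl⟩
      · exact ih (s + 1) (by omega) _

theorem rnk {ι : Type} [Fintype ι] [DecidableEq ι] (d m : ℕ) {f E : ℚ[X][X]} (hf : f.Monic)
    {g h : ℚ[X]} (hg : g.Monic) (hcop : IsCoprime g h) (hE : f = (g * h).map C + C X * E)
    (v : ι → ℚ[X][X]) :
    (Matrix.of fun (ks : Fin d × Fin m) (i : ι) =>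
      (((h.map C ^ m * v i) %ₘ f).coeff (ks.1 : ℕ)).coeff (ks.2 : ℕ)).rank ≤ g.natDegree * m := by
  have hcl := rnk_claim d m hf hg hcop hE m 0 (by omega)
  set S : Submodule ℚ ℚ[X][X] :=
      Submodule.span ℚ (Set.range fun sj : Fin m × Fin g.natDegree =>
        (C (X ^ (sj.1 : ℕ)) * X ^ (sj.2 : ℕ) : ℚ[X][X])) with hS
  set Φ := rnkPhi d m f (h.map C) with hΦ
  have hfd : FiniteDimensional ℚ S := by
    rw [hS]
    exact FiniteDimensional.span_of_finite ℚ (Set.finite_range _)
  have hSr : Module.finrank ℚ S ≤ g.natDegree * m := by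
    have := finrank_range_le_card (R := ℚ) (fun sj : Fin m × Fin g.natDegree =>
        (C (X ^ (sj.1 : ℕ)) * X ^ (sj.2 : ℕ) : ℚ[X][X]))
    rw [Fintype.card_prod, Fintype.card_fin, Fintype.card_fin] at this
    rw [mul_comm]
    exact this
  have hcol : ∀ i, Φ (v i) ∈ S.map Φ := by
    intro i
    have h1 := hcl (v i)
    rw [pow_zero, C_1, one_mul] at h1
    obtain ⟨x, hx, y, hy, hxy⟩ := Submodule.mem_sup.1 h1
    refine ⟨x, hx, ?_⟩
    rw [← hxy, map_add, LinearMap.mem_ker.1 hy, add_zero]
  rw [Matrix.rank_eq_finrank_span_cols]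
  refine le_trans ?_ ((Submodule.finrank_map_le Φ S).trans hSr)
  apply Submodule.finrank_mono
  rw [Submodule.span_le]
  rintro _ ⟨i, rfl⟩
  exact hcol i

end Pool.Agent.H15.RX
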