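import Pool.Agent.H15.RX.NM

/-!
# TLD: the polynomial `tl m P`, `t^m P(1/t, z/t)`

`tl_coeff`: `finsetSum_coeff`, `coeff_C_mul_X_pow`. `tl_eval`: `ee` is a ring homomorphism with
`ee t z (C p) = aeval t p`, `ee t z X = z`; for `p` of degree `≤ N` and `x ≠ 0`:
`aeval (1/x) (reflect N p) = (1/x)^N * p(x)` (`eval₂_reflect_mul_pow` in Mathlib, or compare sums);
`(1/x)^(m-j) (w/x)^j = (1/x)^m w^j`. The degrees: `TD m P` gives `(P.coeff j).natDegree ≤ m - j` and
`P.natDegree ≤ m`. `tl_monic`: the coefficient `d` is `reflect 0 1 = 1`, the coefficients above `d` are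
`0`. `tl_nm`: `nm_reflect`. `tl_mod_t`: `p = C (p.coeff 0) + X * divX p` for each coefficient,
`(reflect (d-j) p).coeff 0 = p.coeff (d-j)`. `root_bound`: suppose `|z| > 1 + A`;
`z^d = - ∑_{j<d} f_j(t) z^j`, `|f_j(t)| ≤ A` (`abs_aeval_le`), `|z|^d ≤ A (|z|^d - 1)/(|z| - 1) < |z|^d`.
`int_root_bound`: the same for integers, `G(x, w) = 0`, `x = 0`, or directly `|w| ≤ 1 + A`.
-/

set_option autoImplicit false

namespace Pool.Agent.H15.RX

open Finset Polynomial

theorem ee_C (t z : ℝ) (p : ℤ[X]) : ee t z (C p) = aeval t p := by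
  simp [ee]

theorem ee_X (t z : ℝ) : ee t z X = z := by
  simp [ee]

theorem ee_map_C (t z : ℝ) (h : ℤ[X]) : ee t z (h.map C) = aeval z h := by
  rw [ee, coe_eval₂RingHom, eval₂_map, aeval_def]
  congr 1
  exact RingHom.ext_int _ _

theorem ee_eq_sum (t z : ℝ) (Q : ℤ[X][X]) (L : ℕ) (hL : Q.natDegree < L) :
    ee t z Q = ∑ k ∈ range L, aeval t (Q.coeff k) * z ^ k := by
  rw [ee, coe_eval₂RingHom, eval₂_eq_sum_range' _ hL]
  rfl

theorem tl_coeff (m : ℕ) (P : ℤ[X][X]) (j : ℕ) :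
    (tl m P).coeff j = if j ≤ m then reflect (m - j) (P.coeff j) else 0 := by
  rw [tl, finsetSum_coeff]
  simp only [coeff_C_mul_X_pow]
  rw [Finset.sum_ite_eq]
  simp only [Finset.mem_range, Nat.lt_succ_iff]

private theorem tl_natDegree (m : ℕ) (P : ℤ[X][X]) : (tl m P).natDegree ≤ m := by
  rw [natDegree_le_iff_coeff_eq_zero]
  intro j hj
  rw [tl_coeff, if_neg (by omega)]

private theorem evalEval_sum (x w : ℤ) (P : ℤ[X][X]) (L : ℕ) (hL : P.natDegree < L) :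
    evalEval x w P = ∑ j ∈ range L, (P.coeff j).eval x * w ^ j := by
  rw [evalEval, eval_eq_sum_range' hL, eval_finsetSum]
  apply Finset.sum_congr rfl
  intro j _
  rw [eval_mul, eval_pow, eval_C]

private theorem aeval_int (x : ℤ) (p : ℤ[X]) : aeval (x : ℝ) p = ((p.eval x : ℤ) : ℝ) := by
  have h := aeval_algebraMap_apply ℝ x p
  rw [coe_aeval_eq_eval] at h
  simpa using h

private theorem TD_natDegree {m : ℕ} {P : ℤ[X][X]} (hP : TD m P) : P.natDegree ≤ m := by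
  rw [natDegree_le_iff_coeff_eq_zero]
  intro j hj
  ext i
  rw [coeff_zero]
  by_contra h
  have := hP i j h
  omega

private theorem TD_coeff {m : ℕ} {P : ℤ[X][X]} (hP : TD m P) (j : ℕ) :
    (P.coeff j).natDegree ≤ m - j := by
  rw [natDegree_le_iff_coeff_eq_zero]
  intro i hi
  by_contra h
  have := hP i j h
  omega

private theorem aeval_reflect {N : ℕ} {p : ℤ[X]} (hp : p.natDegree ≤ N) {x : ℤ} (hx : x ≠ 0) :
    aeval (1 / (x : ℝ)) (reflect N p) = (1 / (x : ℝ)) ^ N * ((p.eval x : ℤ) : ℝ) := by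
  have hx' : (x : ℝ) ≠ 0 := by exact_mod_cast hx
  let _ := invertibleOfNonzero hx'
  have h := eval₂_reflect_mul_pow (algebraMap ℤ ℝ) (x : ℝ) N p hp
  rw [invOf_eq_inv] at h
  rw [← aeval_def, ← aeval_def, aeval_int] at h
  have h5 : ((x : ℝ)⁻¹) ^ N * (x : ℝ) ^ N = 1 := by
    rw [← mul_pow, inv_mul_cancel₀ hx', one_pow]
  rw [one_div, ← h]
  linear_combination (-(aeval (x : ℝ)⁻¹ (reflect N p))) * h5

theorem tl_eval {m : ℕ} {P : ℤ[X][X]} (hP : TD m P) {x w : ℤ} (hx : x ≠ 0) :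
    ee (1 / (x : ℝ)) ((w : ℝ) / x) (tl m P) = (1 / (x : ℝ)) ^ m * ((evalEval x w P : ℤ) : ℝ) := by
  have hx' : (x : ℝ) ≠ 0 := by exact_mod_cast hx
  rw [ee_eq_sum _ _ _ (m + 1) (Nat.lt_succ_of_le (tl_natDegree m P)),
    evalEval_sum x w P (m + 1) (Nat.lt_succ_of_le (TD_natDegree hP))]
  push_cast
  rw [Finset.mul_sum]
  apply Finset.sum_congr rfl
  intro j hj
  have hj' : j ≤ m := Nat.lt_succ_iff.1 (Finset.mem_range.1 hj)
  rw [tl_coeff, if_pos hj', aeval_reflect (TD_coeff hP j) hx]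
  obtain ⟨k, rfl⟩ := Nat.exists_eq_add_of_le hj'
  have h6 : ((w : ℝ) / x) ^ j = (w : ℝ) ^ j * (1 / (x : ℝ)) ^ j := by
    rw [← mul_pow, mul_one_div]
  rw [Nat.add_sub_cancel_left, pow_add, h6]
  ring

theorem tl_monic {d : ℕ} {G : ℤ[X][X]} (hG : G.Monic) (hd : G.natDegree = d) :
    (tl d G).Monic ∧ (tl d G).natDegree = d := by
  have h1 : (tl d G).coeff d = 1 := by
    rw [tl_coeff, if_pos le_rfl, Nat.sub_self]
    have h2 : G.coeff d = 1 := by
      rw [← hd]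
      exact hG
    rw [h2]
    ext i
    rw [coeff_reflect]
    by_cases hi : i = 0
    · subst hi
      rw [revAt_le le_rfl]
    · rw [revAt_eq_self_of_lt (by omega)]
  have h2 : (tl d G).Monic := monic_of_natDegree_le_of_coeff_eq_one d (tl_natDegree d G) h1
  refine ⟨h2, natDegree_eq_of_le_of_coeff_ne_zero (tl_natDegree d G) ?_⟩
  rw [h1]
  exact one_ne_zero

theorem tl_nm {d : ℕ} {G : ℤ[X][X]} {A : ℕ} (hA : ∀ j, nm (G.coeff j) ≤ (A : ℤ)) (j : ℕ) :
    nm ((tl d G).coeff j) ≤ (A : ℤ) := by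
  rw [tl_coeff]
  split_ifs
  · rw [nm_reflect]
    exact hA j
  · rw [nm_zero]
    exact Int.natCast_nonneg A

theorem tl_mod_t (d : ℕ) (G : ℤ[X][X]) :
    ∃ E : ℤ[X][X], tl d G = (l0 d G).map C + C X * E := by
  refine ⟨∑ j ∈ range (d + 1), C (divX (reflect (d - j) (G.coeff j))) * X ^ j, ?_⟩
  rw [tl, l0, Polynomial.map_sum, Finset.mul_sum, ← Finset.sum_add_distrib]
  apply Finset.sum_congr rfl
  intro j _
  rw [Polynomial.map_mul, Polynomial.map_pow, map_X, map_C, ← mul_assoc, ← add_mul, ← C_mul, ← C_add]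
  congr 2
  have h1 := divX_mul_X_add (reflect (d - j) (G.coeff j))
  rw [coeff_reflect, revAt_le (Nat.zero_le _), Nat.sub_zero] at h1
  conv_lhs => rw [← h1]
  ring

theorem root_bound {f : ℤ[X][X]} (hf : f.Monic) (h1 : 1 ≤ f.natDegree) {A : ℕ}
    (hfA : ∀ j, nm (f.coeff j) ≤ (A : ℤ)) {t z : ℝ} (ht : |t| ≤ 1) (h0 : ee t z f = 0) :
    |z| ≤ 1 + (A : ℝ) := by
  by_contra hcon
  push Not at hcon
  rw [ee_eq_sum t z f (f.natDegree + 1) (Nat.lt_succ_self _), Finset.sum_range_succ] at h0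
  have hlead : f.coeff f.natDegree = 1 := hf
  rw [hlead, map_one, one_mul] at h0
  set d := f.natDegree with hd
  have hA0 : (0 : ℝ) ≤ A := Nat.cast_nonneg A
  have hz : z ^ d = -∑ k ∈ range d, aeval t (f.coeff k) * z ^ k := by linarith
  set S : ℝ := ∑ k ∈ range d, |z| ^ k with hS
  have hS0 : 0 ≤ S := Finset.sum_nonneg fun _ _ => by positivity
  have h2 : |z| ^ d ≤ A * S := by
    rw [← abs_pow, hz, abs_neg, hS, Finset.mul_sum]
    refine (Finset.abs_sum_le_sum_abs _ _).trans (Finset.sum_le_sum fun k _ => ?_)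
    rw [abs_mul, abs_pow]
    apply mul_le_mul_of_nonneg_right _ (by positivity)
    refine (abs_aeval_le ht _).trans ?_
    exact_mod_cast hfA k
  have h3 : (|z| - 1) * S = |z| ^ d - 1 := mul_geom_sum _ _
  have h4 : (A : ℝ) * S ≤ (|z| - 1) * S := mul_le_mul_of_nonneg_right (by linarith) hS0
  linarith

theorem int_root_bound {G : ℤ[X][X]} (hG : G.Monic) (h1 : 1 ≤ G.natDegree) {A : ℕ}
    (hGA : ∀ j, nm (G.coeff j) ≤ (A : ℤ)) {w : ℤ} (h0 : evalEval 0 w G = 0) :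
    |w| ≤ 1 + (A : ℤ) := by
  have h2 : ee 0 (w : ℝ) G = 0 := by
    rw [ee_eq_sum 0 (w : ℝ) G (G.natDegree + 1) (Nat.lt_succ_self _)]
    rw [evalEval_sum 0 w G (G.natDegree + 1) (Nat.lt_succ_self _)] at h0
    have h3 := congrArg (fun k : ℤ => (k : ℝ)) h0
    push_cast at h3
    refine Eq.trans ?_ h3
    apply Finset.sum_congr rfl
    intro j _
    have h4 := aeval_int 0 (G.coeff j)
    rw [Int.cast_zero] at h4
    rw [h4]
  have h3 := root_bound hG h1 hGA (t := 0) (z := (w : ℝ)) (by simp) h2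
  exact_mod_cast h3

end Pool.Agent.H15.RX
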