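import Pool.Agent.H15.RX.SIE
import Pool.Agent.H15.RX.RNK
import Pool.Agent.H15.RX.RED
import Pool.Agent.H15.RX.TLD

/-!
# PHI: the auxiliary polynomial

Notation: `m = mm d = 2 d^2`, `M = MM d = m - d + 1`, `N = Nn d = d M`, `T = Tt d A B`, `Y = Yy d A B`.
Unknowns: `p : Fin d × Fin M → ℤ`, `P = ∑ (j, i), C (C (p (j,i)) * X^(i+1)) * X^j`. It has total degree at most
`M + (d - 1) = m`, no term without `x` (`(P.coeff j).coeff 0 = 0`), degree `< d` in the outer variable.
`tl m P = ∑ (j, i), C (C (p (j,i)) * X^(m-j-(i+1))) * X^j` (`reflect` of a monomial: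
`reflect_C_mul_X_pow`, `revAt_le`), so with
`W (j,i) = (h.map C ^ m * (C (X^(m-j-(i+1))) * X^j)) %ₘ f` one has
`(h.map C ^ m * tl m P) %ₘ f = ∑ p (j,i) • W (j,i)`.
`mod_bound` with `L = m d`: the polynomial `h.map C ^ m * (C (X^a) * X^j)` has degree at most
`m (d - 1) + (d - 1) ≤ m d` (`natDegree h ≤ d - 1`) and its coefficients are `X^a * C ((h^m).coeff (l - j))`, so
the sum of their `nm` is at most `nm (h^m) ≤ B^m`: `nm (W (j,i) .coeff k) ≤ T`.
`siegel_rank` for `α = Fin d × Fin m`, `β = Fin d × Fin M`, matrix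
`((W (j,i)).coeff k).coeff s`, entries at most `T` (`coeff_le_nm`), `r = d1 * m`, `e = 2 d`. Rank: over `ℚ`
the matrix is that of `rnk` (`f`, `g`, `h`, `E` mapped to `ℚ`: `Polynomial.map_modByMonic` for the monic `f` with
`mapRingHom (Int.castRingHom ℚ)`; `natDegree` of `g` over `ℚ` is `d1`). Numbers:
`N - r = d (m - d + 1) - d1 m = d2 m - d^2 + d ≥ m - d^2 + d = d^2 + d > 0` and
`2 d (N - r) ≥ 2 d^3 ≥ d1 m = 2 d1 d^2`. `1 ≤ T` (`1 ≤ B`: `h` monic, `1 ≤ nm h ≤ B`).
Conclusions: `P ≠ 0` (some coefficient `p (j,i) ≠ 0`); `nm (P.coeff j) ≤ ∑_i |p (j,i)| ≤ M Y ≤ N Y`; the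
coefficients `s < m` of `(_ %ₘ f).coeff k`, `k < d`, vanish by `siegel_rank`, those with `k ≥ d` because the
degree is `< d`; `nm ≤ ∑ |p| nm (W) ≤ N Y T`.
-/

set_option autoImplicit false

namespace Pool.Agent.H15.RX

open Finset Polynomial

private theorem sum_abs_le_nm (q : ℤ[X]) (K : ℕ) : ∑ x ∈ range K, |q.coeff x| ≤ nm q := by
  rw [nm_eq q (range K ∪ q.support) subset_union_right]
  exact sum_le_sum_of_subset_of_nonneg subset_union_left fun i _ _ => abs_nonneg _

private theorem nm_C_mul_X_pow_le (a : ℤ) (k : ℕ) : nm (C a * X ^ k) ≤ |a| := by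
  refine (nm_mul_le _ _).trans ?_
  rw [nm_C, nm_X_pow, mul_one]

private theorem nm_C_mul_le (a : ℤ) (q : ℤ[X]) : nm (C a * q) ≤ |a| * nm q := by
  refine (nm_mul_le _ _).trans ?_
  rw [nm_C]

private theorem nm_X_pow_mul_C_le (a : ℤ) (k : ℕ) : nm (X ^ k * C a) ≤ |a| := by
  rw [mul_comm]
  exact nm_C_mul_X_pow_le a k

private theorem map_mapC (p : ℤ[X]) : (p.map C).map (mapRingHom (Int.castRingHom ℚ)) =
    (p.map (Int.castRingHom ℚ)).map C := by
  rw [Polynomial.map_map, Polynomial.map_map, mapRingHom_comp_C]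

/-- `tl` is additive -/
private noncomputable def tlH (m : ℕ) : ℤ[X][X] →+ ℤ[X][X] where
  toFun := tl m
  map_zero' := by simp [tl]
  map_add' P Q := by
    simp only [tl, coeff_add, reflect_add, map_add, add_mul, sum_add_distrib]

private theorem tl_mono (m j a : ℕ) (c : ℤ) (h : a + j ≤ m) :
    tl m (C (C c * X ^ a) * X ^ j) = C (C c) * (C (X ^ (m - j - a)) * X ^ j) := by
  unfold tl
  rw [sum_eq_single j]
  · rw [coeff_C_mul_X_pow, if_pos rfl, reflect_C_mul_X_pow, revAt_le (by omega), ← mul_assoc,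
      ← C_mul]
  · intro b _ hb
    rw [coeff_C_mul_X_pow, if_neg hb]
    simp
  · intro hj
    exact absurd (mem_range.2 (by omega)) hj

private theorem num1 {d d1 d2 : ℕ} (h1 : 1 ≤ d1) (h2 : 1 ≤ d2) (hd : d1 + d2 = d) :
    MM d + d = mm d + 1 ∧ d1 * mm d < Nn d ∧ d1 * mm d ≤ 2 * d * (Nn d - d1 * mm d) := by
  have hm : mm d = 2 * d ^ 2 := rfl
  have hdm : d ≤ mm d := by
    rw [hm]
    nlinarith
  have hM : MM d + d = mm d + 1 := by
    unfold MM
    omega
  have hN : Nn d + d * d = d * mm d + d := by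
    have : d * (MM d + d) = d * (mm d + 1) := by rw [hM]
    unfold Nn
    nlinarith
  have hd1 : d1 + 1 ≤ d := by omega
  have h3 : d1 * mm d + mm d ≤ d * mm d := by
    have := Nat.mul_le_mul_right (mm d) hd1
    nlinarith
  have h4 : d1 * mm d + (d * d + d) ≤ Nn d := by
    rw [hm] at h3 hN ⊢
    nlinarith
  refine ⟨hM, by nlinarith, ?_⟩
  have h5 : d * d + d ≤ Nn d - d1 * mm d := by omega
  have h6 : d1 * mm d ≤ d * mm d := Nat.mul_le_mul_right _ (by omega)
  calc d1 * mm d ≤ d * mm d := h6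
    _ = 2 * d * (d * d) := by rw [hm]; ring
    _ ≤ 2 * d * (Nn d - d1 * mm d) := Nat.mul_le_mul_left _ (by omega)

theorem phi {d d1 d2 : ℕ} (h1 : 1 ≤ d1) (h2 : 1 ≤ d2) (hd : d1 + d2 = d) {f : ℤ[X][X]}
    (hf : f.Monic) (hfd : f.natDegree = d) {A : ℕ} (hfA : ∀ j, nm (f.coeff j) ≤ (A : ℤ))
    {g h : ℤ[X]} (hg : g.Monic) (hh : h.Monic) (hgd : g.natDegree = d1) (hhd : h.natDegree = d2)
    (hcop : IsCoprime (g.map (Int.castRingHom ℚ)) (h.map (Int.castRingHom ℚ))) {E : ℤ[X][X]}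
    (hE : f = (g * h).map C + C X * E) {B : ℕ} (hB : nm h ≤ (B : ℤ)) :
    ∃ P : ℤ[X][X], P ≠ 0 ∧ P.natDegree < d ∧ (∀ j, (P.coeff j).coeff 0 = 0) ∧ TD (mm d) P ∧
      (∀ j, nm (P.coeff j) ≤ ((Nn d * Yy d A B : ℕ) : ℤ)) ∧
      (∀ s < mm d, ∀ k, (((h.map C ^ mm d * tl (mm d) P) %ₘ f).coeff k).coeff s = 0) ∧
      ∀ k, nm (((h.map C ^ mm d * tl (mm d) P) %ₘ f).coeff k) ≤
        ((Nn d * Yy d A B * Tt d A B : ℕ) : ℤ) := by
  classical
  obtain ⟨nM, nlt, nle⟩ := num1 h1 h2 hd
  set m : ℕ := mm d with hm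
  have hd0 : 1 ≤ d := by omega
  have hf1 : 1 ≤ f.natDegree := by omega
  set v : Fin d × Fin (MM d) → ℤ[X][X] :=
    fun b => C (X ^ (m - (b.1 : ℕ) - ((b.2 : ℕ) + 1))) * X ^ (b.1 : ℕ) with hv
  set W : Fin d × Fin (MM d) → ℤ[X][X] := fun b => (h.map C ^ m * v b) %ₘ f with hW
  have hB1 : 1 ≤ B := by
    have := (one_le_nm hh.ne_zero).trans hB
    exact_mod_cast this
  have hT1 : 1 ≤ Tt d A B := by
    unfold Tt
    exact Nat.one_le_iff_ne_zero.2 (by positivity)
  -- size of the entries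
  have hWn : ∀ b k, nm ((W b).coeff k) ≤ ((Tt d A B : ℕ) : ℤ) := by
    intro b k
    set a : ℕ := m - (b.1 : ℕ) - ((b.2 : ℕ) + 1) with ha
    have hj : (b.1 : ℕ) < d := b.1.2
    have hQ : h.map C ^ m * v b = C (X ^ a) * (h ^ m).map C * X ^ (b.1 : ℕ) := by
      simp only [hv]
      rw [Polynomial.map_pow]
      ring
    have hdeg : (h.map C ^ m * v b).natDegree ≤ m * d := by
      rw [hQ]
      refine natDegree_mul_le.trans ?_
      rw [natDegree_X_pow]
      have e1 : (C (X ^ a) * (h ^ m).map C : ℤ[X][X]).natDegree ≤ m * d2 := by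
        refine natDegree_mul_le.trans ?_
        rw [natDegree_C, zero_add]
        refine natDegree_map_le.trans ?_
        refine natDegree_pow_le.trans ?_
        rw [hhd]
      have e2 : m * d2 + m ≤ m * d := by
        rw [← hd]
        nlinarith
      have e3 : d ≤ m := by
        rw [hm]
        unfold mm
        nlinarith
      omega
    have hmb := mod_bound hf hf1 hfA (h.map C ^ m * v b) (m * d) hdeg k
    refine hmb.trans ?_
    have hs : ∑ l ∈ range (m * d + 1), nm ((h.map C ^ m * v b).coeff l) ≤ (B : ℤ) ^ m := by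
      have hc : ∀ l, nm ((h.map C ^ m * v b).coeff l) ≤
          if (b.1 : ℕ) ≤ l then |(h ^ m).coeff (l - b.1)| else 0 := by
        intro l
        rw [hQ, coeff_mul_X_pow']
        split_ifs with hl
        · rw [coeff_C_mul, coeff_map]
          exact nm_X_pow_mul_C_le _ _
        · rw [nm_zero]
      refine (sum_le_sum fun l _ => hc l).trans ?_
      have e3 : d ≤ m * d := Nat.le_mul_of_pos_left _ (by rw [hm]; unfold mm; positivity)
      have e4 : m * d + 1 = (b.1 : ℕ) + (m * d + 1 - b.1) := by omega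
      rw [e4, sum_range_add]
      have e5 : ∑ x ∈ range (b.1 : ℕ), (if (b.1 : ℕ) ≤ x then |(h ^ m).coeff (x - b.1)| else 0) =
          0 := by
        refine sum_eq_zero fun x hx => ?_
        rw [if_neg (by have := mem_range.1 hx; omega)]
      have e6 : ∀ x, (if (b.1 : ℕ) ≤ (b.1 : ℕ) + x then |(h ^ m).coeff ((b.1 : ℕ) + x - b.1)| else 0) =
          |(h ^ m).coeff x| := by
        intro x
        rw [if_pos (by omega), Nat.add_sub_cancel_left]
      rw [e5, zero_add, sum_congr rfl fun x _ => e6 x]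
      refine (sum_abs_le_nm _ _).trans ((nm_pow_le _ _).trans ?_)
      exact pow_le_pow_left₀ (nm_nonneg h) hB m
    unfold Tt
    push_cast
    exact mul_le_mul_of_nonneg_right hs (by positivity)
  -- the matrix
  set Mx : Matrix (Fin d × Fin m) (Fin d × Fin (MM d)) ℤ :=
    Matrix.of fun ks b => ((W b).coeff (ks.1 : ℕ)).coeff (ks.2 : ℕ) with hMx
  have hcard : Fintype.card (Fin d × Fin (MM d)) = Nn d := by
    rw [Fintype.card_prod, Fintype.card_fin, Fintype.card_fin]
    rfl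
  set φ := Int.castRingHom ℚ with hφ
  have hrank : (Mx.map (fun z : ℤ => (z : ℚ))).rank ≤ d1 * m := by
    have hmon : (f.map (mapRingHom φ)).Monic := hf.map _
    have hE' : f.map (mapRingHom φ) = (g.map φ * h.map φ).map C + C X * E.map (mapRingHom φ) := by
      conv_lhs => rw [hE]
      rw [Polynomial.map_add, map_mapC, Polynomial.map_mul (R := ℤ), Polynomial.map_mul (p := C X),
        map_C, coe_mapRingHom, map_X]
    have h3 := rnk d m hmon (hg.map φ) hcop hE' fun b => (v b).map (mapRingHom φ)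
    rw [hg.natDegree_map, hgd] at h3
    refine le_of_eq_of_le ?_ h3
    congr 1
    ext ks b
    simp only [hMx, hW, Matrix.map_apply, Matrix.of_apply]
    have h4 : ((h.map φ).map C ^ m * (v b).map (mapRingHom φ)) %ₘ (f.map (mapRingHom φ)) =
        ((h.map C ^ m * v b) %ₘ f).map (mapRingHom φ) := by
      rw [map_modByMonic _ hf, Polynomial.map_mul (p := h.map C ^ m), Polynomial.map_pow, map_mapC]
    rw [h4, coeff_map, coe_mapRingHom, coeff_map]
    rfl
  obtain ⟨p, hp0, hpM, hpb⟩ := siegel_rank Mx (d1 * m) (2 * d) (Tt d A B) hT1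
    (by
      intro ks b
      simp only [hMx, Matrix.of_apply]
      exact (coeff_le_nm _ _).trans (hWn b _))
    hrank (by rw [hcard]; exact nlt) (by rw [hcard]; exact nle)
  have hpY : ∀ b, |p b| ≤ ((Yy d A B : ℕ) : ℤ) := by
    intro b
    have := hpb b
    rw [hcard] at this
    exact this
  -- the polynomial
  set P : ℤ[X][X] := ∑ b : Fin d × Fin (MM d), C (C (p b) * X ^ ((b.2 : ℕ) + 1)) * X ^ (b.1 : ℕ)
    with hP
  have hPc : ∀ j, P.coeff j = ∑ b : Fin d × Fin (MM d),
      if j = (b.1 : ℕ) then C (p b) * X ^ ((b.2 : ℕ) + 1) else 0 := by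
    intro j
    rw [hP, finset_sum_coeff]
    refine sum_congr rfl fun b _ => ?_
    rw [coeff_C_mul_X_pow]
  have hPcc : ∀ j i, (P.coeff j).coeff i = ∑ b : Fin d × Fin (MM d),
      if j = (b.1 : ℕ) ∧ i = (b.2 : ℕ) + 1 then p b else 0 := by
    intro j i
    rw [hPc, finset_sum_coeff]
    refine sum_congr rfl fun b _ => ?_
    by_cases e1 : j = (b.1 : ℕ)
    · rw [if_pos e1, coeff_C_mul_X_pow]
      by_cases e2 : i = (b.2 : ℕ) + 1
      · rw [if_pos e2, if_pos ⟨e1, e2⟩]
      · rw [if_neg e2, if_neg fun e => e2 e.2]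
    · rw [if_neg e1, if_neg fun e => e1 e.1, coeff_zero]
  have htl : tl m P = ∑ b : Fin d × Fin (MM d), C (C (p b)) * v b := by
    have e1 : tl m P = tlH m P := rfl
    rw [e1, hP, map_sum]
    refine sum_congr rfl fun b _ => ?_
    change tl m _ = _
    rw [tl_mono]
    have := b.1.2
    have := b.2.2
    omega
  have hmod : (h.map C ^ m * tl m P) %ₘ f = ∑ b : Fin d × Fin (MM d), C (C (p b)) * W b := by
    rw [htl, mul_sum]
    have e1 : ∀ Q : ℤ[X][X], Q %ₘ f = modByMonicHom f Q := fun Q => rfl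
    rw [e1, map_sum]
    refine sum_congr rfl fun b _ => ?_
    have e2 : h.map C ^ m * (C (C (p b)) * v b) = (C (p b) : ℤ[X]) • (h.map C ^ m * v b) := by
      rw [smul_eq_C_mul]
      ring
    rw [e2, map_smul, smul_eq_C_mul]
    rfl
  have hmc : ∀ k, ((h.map C ^ m * tl m P) %ₘ f).coeff k =
      ∑ b : Fin d × Fin (MM d), C (p b) * (W b).coeff k := by
    intro k
    rw [hmod, finset_sum_coeff]
    refine sum_congr rfl fun b _ => ?_
    rw [coeff_C_mul]
  have hP0 : P ≠ 0 := by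
    intro hz
    apply hp0
    funext b0
    have e1 := hPcc (b0.1 : ℕ) ((b0.2 : ℕ) + 1)
    rw [hz, coeff_zero, coeff_zero] at e1
    rw [sum_eq_single b0] at e1
    · rw [if_pos ⟨rfl, rfl⟩] at e1
      exact e1.symm
    · intro b _ hb
      rw [if_neg]
      rintro ⟨e2, e3⟩
      apply hb
      refine Prod.ext (Fin.ext e2.symm) (Fin.ext ?_)
      omega
    · intro hb
      exact absurd (mem_univ _) hb
  refine ⟨P, hP0, ?_, ?_, ?_, ?_, ?_, ?_⟩
  · rw [natDegree_lt_iff_degree_lt hP0, degree_lt_iff_coeff_zero]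
    intro j hj
    rw [hPc]
    refine sum_eq_zero fun b _ => ?_
    rw [if_neg]
    have := b.1.2
    omega
  · intro j
    rw [hPcc]
    refine sum_eq_zero fun b _ => ?_
    rw [if_neg]
    rintro ⟨-, e2⟩
    omega
  · intro i j hij
    rw [hPcc] at hij
    obtain ⟨b, -, hb⟩ := exists_ne_zero_of_sum_ne_zero hij
    have hb' : j = (b.1 : ℕ) ∧ i = (b.2 : ℕ) + 1 := by
      by_contra hcon
      rw [if_neg hcon] at hb
      exact hb rfl
    have := b.1.2
    have := b.2.2
    omega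
  · intro j
    rw [hPc]
    refine (nm_sum_le _ _).trans ?_
    have e1 : ∀ b : Fin d × Fin (MM d),
        nm (if j = (b.1 : ℕ) then C (p b) * X ^ ((b.2 : ℕ) + 1) else 0) ≤ ((Yy d A B : ℕ) : ℤ) := by
      intro b
      split_ifs
      · exact (nm_C_mul_X_pow_le _ _).trans (hpY b)
      · rw [nm_zero]
        positivity
    refine (sum_le_sum fun b _ => e1 b).trans ?_
    rw [sum_const, card_univ, hcard, nsmul_eq_mul]
    push_cast
    exact le_rfl
  · intro s hs k
    rw [hmc, finset_sum_coeff]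
    by_cases hk : k < d
    · have e1 := hpM (⟨k, hk⟩, ⟨s, hs⟩)
      rw [← e1]
      refine sum_congr rfl fun b _ => ?_
      simp only [hMx, Matrix.of_apply]
      rw [coeff_C_mul, mul_comm]
    · refine sum_eq_zero fun b _ => ?_
      have e1 : (W b).coeff k = 0 := by
        apply coeff_eq_zero_of_degree_lt
        refine lt_of_lt_of_le (degree_modByMonic_lt _ hf) ?_
        rw [degree_eq_natDegree hf.ne_zero, hfd]
        exact_mod_cast not_lt.1 hk
      rw [e1, mul_zero, coeff_zero]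
  · intro k
    rw [hmc]
    refine (nm_sum_le _ _).trans ?_
    have e1 : ∀ b : Fin d × Fin (MM d), nm (C (p b) * (W b).coeff k) ≤
        ((Yy d A B * Tt d A B : ℕ) : ℤ) := by
      intro b
      refine (nm_C_mul_le _ _).trans ?_
      push_cast
      exact mul_le_mul (hpY b) (hWn b k) (nm_nonneg _) (by positivity)
    refine (sum_le_sum fun b _ => e1 b).trans ?_
    rw [sum_const, card_univ, hcard, nsmul_eq_mul]
    push_cast
    rw [mul_assoc]

end Pool.Agent.H15.RX
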