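import Pool.Agent.H15.RX.Defs

/-!
# RNGN: the numbers of RNG.lean (theorem numbers), all bounds as powers of `H`

`A ≤ H^2`, `1 + A ≤ H^3`, `B0 ≤ H^(2d)`, `B ≤ H^(2d+1)`, `T ≤ H^(10 d^3 + 2 d^2)`, `N ≤ H^4`,
`D ≤ H^(2 d^2 + 4 d + 2)`, `C1 ≤ H^(24 d^4 + 22 d^3 + 6 d^2 + 11 d + 5)`, `N Y + C1 ≤ H^(40 d^4)`,
`(2d)! ≤ H^(4d)`. The lower bound `A ≤ C1`: all the factors of `C1` are positive and `Z ≤ Z^d`.
-/

set_option autoImplicit false

namespace Pool.Agent.H15.RX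

private theorem pm {H x y a b c : ℕ} (hx : x ≤ H ^ a) (hy : y ≤ H ^ b) (hc : a + b = c) :
    x * y ≤ H ^ c := by
  rw [← hc, pow_add]
  exact Nat.mul_le_mul hx hy

private theorem pp {H x a n c : ℕ} (hx : x ≤ H ^ a) (hc : a * n = c) : x ^ n ≤ H ^ c := by
  rw [← hc, pow_mul]
  exact Nat.pow_le_pow_left hx n

/-- the numbers -/
theorem numbers {d H : ℕ} (hd : 2 ≤ d) (hH : d + 1 ≤ H) :
    ∀ A B0 B Z D C1 : ℕ, A = (d + 1) * H → B0 = (2 * (H + 1)) ^ d → B = (d + 1) * B0 → Z = 1 + A →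
      D = 2 * d * (d * B0 * Z) ^ d →
      C1 = d * (Nn d * Yy d A B * Tt d A B) * Z ^ d * D ^ mm d →
      1 + A ≤ H ^ 3 ∧ A ≤ Nn d * Yy d A B + C1 ∧
        (2 * d).factorial * (Nn d * Yy d A B + C1) ^ (2 * d) ≤ H ^ (98 * d ^ 5) := by
  intro A B0 B Z D C1 hA hB0 hB hZ hD hC1
  have hH3 : 3 ≤ H := by omega
  have hHpos : 0 < H := by omega
  have h1 : d ≤ H ^ 1 := by rw [pow_one]; omega
  have h1' : d + 1 ≤ H ^ 1 := by rw [pow_one]; omega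
  have h2 : 2 ≤ H ^ 1 := by rw [pow_one]; omega
  have hHH : H ≤ H ^ 1 := by rw [pow_one]
  have hA2 : A ≤ H ^ 2 := by rw [hA]; exact pm h1' hHH rfl
  have hA3 : 1 + A ≤ H ^ 3 := by
    have h3 : H ^ 3 = H * H ^ 2 := by ring
    have h4 : 1 ≤ H ^ 2 := Nat.one_le_pow _ _ hHpos
    have h5 : 3 * H ^ 2 ≤ H * H ^ 2 := Nat.mul_le_mul_right _ hH3
    omega
  have hZ3 : Z ≤ H ^ 3 := by rw [hZ]; exact hA3
  have hb : 2 * (H + 1) ≤ H ^ 2 := by nlinarith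
  have hB0' : B0 ≤ H ^ (2 * d) := by rw [hB0]; exact pp hb rfl
  have hB' : B ≤ H ^ (2 * d + 1) := by rw [hB]; exact pm h1' hB0' (by ring)
  have hT : Tt d A B ≤ H ^ (10 * d ^ 3 + 2 * d ^ 2) := by
    unfold Tt mm
    exact pm (pp hB' rfl) (pp hA3 rfl) (by ring)
  have hN : Nn d ≤ H ^ 4 := by
    have hM : MM d ≤ 2 * d ^ 2 := by
      unfold MM mm
      have h5 : d ≤ 2 * d ^ 2 := by nlinarith
      omega
    have h6 : Nn d ≤ d * (2 * d ^ 2) := by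
      unfold Nn
      exact Nat.mul_le_mul_left d hM
    exact h6.trans (pm h1 (pm h2 (pp h1 rfl) rfl) rfl)
  have hY : Yy d A B ≤ H ^ (20 * d ^ 4 + 4 * d ^ 3 + 8 * d) := by
    unfold Yy
    exact pp (pm hN hT rfl) (by ring)
  have hNY : Nn d * Yy d A B ≤ H ^ (20 * d ^ 4 + 4 * d ^ 3 + 8 * d + 4) := pm hN hY (by ring)
  have hNYT : Nn d * Yy d A B * Tt d A B ≤
      H ^ (20 * d ^ 4 + 14 * d ^ 3 + 2 * d ^ 2 + 8 * d + 4) := pm hNY hT (by ring)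
  have hD' : D ≤ H ^ (2 * d ^ 2 + 4 * d + 2) := by
    rw [hD]
    exact pm (pm h2 h1 rfl) (pp (pm (pm h1 hB0' rfl) hZ3 rfl) rfl) (by ring)
  have hDm : D ^ mm d ≤ H ^ (4 * d ^ 4 + 8 * d ^ 3 + 4 * d ^ 2) := by
    unfold mm
    exact pp hD' (by ring)
  have hC1' : C1 ≤ H ^ (24 * d ^ 4 + 22 * d ^ 3 + 6 * d ^ 2 + 11 * d + 5) := by
    rw [hC1]
    exact pm (pm (pm h1 hNYT rfl) (pp hZ3 rfl) rfl) hDm (by ring)
  have e1 : 8 * d ≤ d ^ 4 := by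
    have h7 : (2 : ℕ) ^ 3 ≤ d ^ 3 := Nat.pow_le_pow_left hd 3
    calc 8 * d = 2 ^ 3 * d := by norm_num
      _ ≤ d ^ 3 * d := Nat.mul_le_mul_right d h7
      _ = d ^ 4 := by ring
  have e2 : 4 * d ^ 2 ≤ d ^ 4 := by
    have h7 : (2 : ℕ) ^ 2 ≤ d ^ 2 := Nat.pow_le_pow_left hd 2
    calc 4 * d ^ 2 = 2 ^ 2 * d ^ 2 := by norm_num
      _ ≤ d ^ 2 * d ^ 2 := Nat.mul_le_mul_right _ h7
      _ = d ^ 4 := by ring
  have e3 : 2 * d ^ 3 ≤ d ^ 4 := by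
    calc 2 * d ^ 3 ≤ d * d ^ 3 := Nat.mul_le_mul_right _ hd
      _ = d ^ 4 := by ring
  have e0 : 16 ≤ d ^ 4 := by
    have h7 : (2 : ℕ) ^ 4 ≤ d ^ 4 := Nat.pow_le_pow_left hd 4
    exact h7
  have hNY2 : Nn d * Yy d A B ≤ H ^ (39 * d ^ 4) :=
    hNY.trans (Nat.pow_le_pow_right hHpos (by omega))
  have hC2 : C1 ≤ H ^ (39 * d ^ 4) :=
    hC1'.trans (Nat.pow_le_pow_right hHpos (by omega))
  have hsum : Nn d * Yy d A B + C1 ≤ H ^ (40 * d ^ 4) := by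
    have h8 : H ^ (39 * d ^ 4 + 1) ≤ H ^ (40 * d ^ 4) := Nat.pow_le_pow_right hHpos (by omega)
    rw [pow_succ] at h8
    have h9 : H ^ (39 * d ^ 4) * 2 ≤ H ^ (39 * d ^ 4) * H := Nat.mul_le_mul_left _ (by omega)
    omega
  refine ⟨hA3, ?_, ?_⟩
  · have hdpos : 0 < d := by omega
    have hBpos : 0 < B := by
      rw [hB, hB0]
      positivity
    have hTpos : 0 < Tt d A B := by
      unfold Tt
      positivity
    have hNpos : 0 < Nn d := by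
      unfold Nn MM
      positivity
    have hYpos : 0 < Yy d A B := by
      unfold Yy
      positivity
    have hZpos : 0 < Z := by omega
    have hB0pos : 0 < B0 := by
      rw [hB0]
      positivity
    have hDpos : 0 < D := by
      rw [hD]
      positivity
    have hZd : Z ≤ Z ^ d := by
      calc Z = Z ^ 1 := (pow_one Z).symm
        _ ≤ Z ^ d := Nat.pow_le_pow_right hZpos (by omega)
    have h10 : Z ≤ C1 := by
      rw [hC1]
      have h11 : 0 < d * (Nn d * Yy d A B * Tt d A B) := by positivity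
      have h12 : 0 < D ^ mm d := by positivity
      calc Z ≤ Z ^ d := hZd
        _ ≤ d * (Nn d * Yy d A B * Tt d A B) * Z ^ d := Nat.le_mul_of_pos_left _ h11
        _ ≤ d * (Nn d * Yy d A B * Tt d A B) * Z ^ d * D ^ mm d := Nat.le_mul_of_pos_right _ h12
    omega
  · have hf : (2 * d).factorial ≤ H ^ (2 * (2 * d)) := by
      have h13 : (2 * d).factorial ≤ (2 * d) ^ (2 * d) := Nat.factorial_le_pow (2 * d)
      exact h13.trans (pp (pm h2 h1 rfl) rfl)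
    have h14 : (2 * d).factorial * (Nn d * Yy d A B + C1) ^ (2 * d) ≤ H ^ (80 * d ^ 5 + 4 * d) :=
      pm hf (pp hsum rfl) (by ring)
    refine h14.trans (Nat.pow_le_pow_right hHpos ?_)
    have h15 : d ≤ d ^ 5 := by
      calc d = d ^ 1 := (pow_one d).symm
        _ ≤ d ^ 5 := Nat.pow_le_pow_right (by omega) (by omega)
    omega

end Pool.Agent.H15.RX
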