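import Pool.Agent.H15.RX.TLD

/-!
# VAL: the auxiliary polynomial is bounded where `h(z)` is not small

`(h.map C)^m * Q = f * q + r`, `r = _ %ₘ f` (`modByMonic_add_div`), `natDegree r < d`. Apply `ee t z`, a ring
homomorphism with `ee t z f = 0`: `(aeval z h)^m * ee t z Q = ee t z r = ∑ k < d, aeval t (r.coeff k) * z^k`
(`ee_map_C`, `ee_eq_sum`). `r.coeff k = X^m * v_k` (`X_pow_dvd_iff`), `nm v_k = nm (r.coeff k) ≤ S`
(or: the value of `r.coeff k` at `t` is `∑_{i ≥ m} a_i t^i`, of absolute value at most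
`|t|^m nm (r.coeff k)` because `|t| ≤ 1`). So `|..| ≤ ∑_{k<d} |t|^m S Z^k ≤ |t|^m d S Z^d`.
-/

set_option autoImplicit false

namespace Pool.Agent.H15.RX

open Finset Polynomial

private theorem nm_shift {p v : ℤ[X]} {m : ℕ} (h : p = X ^ m * v) : nm v ≤ nm p := by
  classical
  have hc : ∀ i, v.coeff i = p.coeff (i + m) := by
    intro i
    rw [h, coeff_X_pow_mul]
  have h1 : nm v = ∑ j ∈ v.support.map (addRightEmbedding m), |p.coeff j| := by
    rw [Finset.sum_map]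
    unfold nm
    refine Finset.sum_congr rfl fun i _ => ?_
    rw [hc i]
    rfl
  rw [h1, nm_eq p (p.support ∪ v.support.map (addRightEmbedding m)) Finset.subset_union_left]
  exact Finset.sum_le_sum_of_subset_of_nonneg Finset.subset_union_right
    fun _ _ _ => abs_nonneg _

private theorem aeval_bd {p : ℤ[X]} {m S : ℕ} {t : ℝ} (ht : |t| ≤ 1) (hS : nm p ≤ (S : ℤ))
    (h0 : ∀ s < m, p.coeff s = 0) : |aeval t p| ≤ |t| ^ m * S := by
  obtain ⟨v, hv⟩ := X_pow_dvd_iff.2 h0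
  have h1 : |aeval t v| ≤ (S : ℝ) := by
    refine (abs_aeval_le ht v).trans ?_
    exact_mod_cast (nm_shift hv).trans hS
  rw [hv, map_mul, map_pow, aeval_X, abs_mul, abs_pow]
  exact mul_le_mul_of_nonneg_left h1 (pow_nonneg (abs_nonneg t) m)

theorem val {m d : ℕ} {f : ℤ[X][X]} (hf : f.Monic) (hfd : f.natDegree = d) (hd : 1 ≤ d)
    {h : ℤ[X]} {Q : ℤ[X][X]} {S : ℕ}
    (hS : ∀ k, nm (((h.map C ^ m * Q) %ₘ f).coeff k) ≤ (S : ℤ))
    (h0 : ∀ s < m, ∀ k, (((h.map C ^ m * Q) %ₘ f).coeff k).coeff s = 0) {t z Z : ℝ}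
    (ht : |t| ≤ 1) (hz : |z| ≤ Z) (hZ : 1 ≤ Z) (hft : ee t z f = 0) :
    |aeval z h| ^ m * |ee t z Q| ≤ |t| ^ m * (d * S * Z ^ d) := by
  set R : ℤ[X][X] := (h.map C ^ m * Q) %ₘ f with hR
  have hmod : R + f * ((h.map C ^ m * Q) /ₘ f) = h.map C ^ m * Q := modByMonic_add_div _ _
  have h1 : (aeval z h) ^ m * ee t z Q = ee t z R := by
    have h2 := congrArg (ee t z) hmod
    rw [map_add, map_mul, hft, zero_mul, add_zero, map_mul, map_pow, ee_map_C] at h2
    exact h2.symm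
  have hf1 : f ≠ 1 := by
    intro h3
    rw [h3, natDegree_one] at hfd
    omega
  have hRd : R.natDegree < d := by
    rw [← hfd]
    exact natDegree_modByMonic_lt _ hf hf1
  have h4 : |ee t z R| ≤ ∑ k ∈ range d, |t| ^ m * S * Z ^ d := by
    rw [ee_eq_sum t z R d hRd]
    refine (Finset.abs_sum_le_sum_abs _ _).trans (Finset.sum_le_sum fun k hk => ?_)
    rw [abs_mul, abs_pow]
    apply mul_le_mul (aeval_bd ht (hS k) (fun s hs => h0 s hs k)) _
      (pow_nonneg (abs_nonneg z) k) (by positivity)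
    calc |z| ^ k ≤ Z ^ k := pow_le_pow_left₀ (abs_nonneg z) hz k
      _ ≤ Z ^ d := pow_le_pow_right₀ hZ (Finset.mem_range.1 hk).le
  rw [← abs_pow, ← abs_mul, h1]
  refine h4.trans (le_of_eq ?_)
  rw [Finset.sum_const, Finset.card_range, nsmul_eq_mul]
  ring

end Pool.Agent.H15.RX
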