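import Pool.Agent.H15.RX.BEZ
import Pool.Agent.H15.RX.PHI
import Pool.Agent.H15.RX.VAL
import Pool.Agent.H15.RX.ELI
import Pool.Agent.H15.RX.GAU
import Pool.Agent.H15.RX.RNGN

/-!
# RNG: Runge's theorem for monic curves, explicit

`A = (d + 1) H`, `nm (G.coeff j) ≤ A` (`nm_le_of`; `TD d G` gives degree `≤ d`). `f = tl d G`: monic, degree
`d`, `nm` of the coefficients `≤ A`, `f = (l0 d G).map C + C X * E`. `gau` for `f0 = l0 d G` (monic of degree `d`,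
coefficients at most `H`): `g`, `h` monic integer, `f0 = g h`, coefficients at most `B0 = (2 (H+1))^d`, degrees
`d1 + d2 = d`, both positive; `nm g, nm h ≤ B = (d + 1) B0`.

`x = 0`: `|w| ≤ 1 + A` (`int_root_bound`). `x ≠ 0`: `t = 1/x`, `z = w/x`, `|t| ≤ 1`, `ee t z f = 0` (`tl_eval`),
`|z| ≤ Z = 1 + A` (`root_bound`), so `|w| ≤ (1 + A) |x|`. `bez_low` with `Δ = 2 d (d B0 Z)^d`:
`1 ≤ Δ |h(z)|` or `1 ≤ Δ |g(z)|`. In the first case take `P` from `phi` for `(g, h)`, in the second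
for `(h, g)` (`mul_comm` in `hE`, `IsCoprime.symm`). `val` and `tl_eval` (cancel `|t|^m > 0`):
`|h(z)|^m |P(x, w)| ≤ d S Z^d`, `S = N Y T`, so the integer `c = evalEval x w P` has
`|c| ≤ d S Z^d Δ^m =: C1`. `Q = P - C (C c)`: `Q ≠ 0` (if `P = C (C c)`, then `c = (P.coeff 0).coeff 0 = 0`
and `P = 0`), `natDegree Q < d`, `nm (Q.coeff j) ≤ N Y + |c|`, `evalEval x w Q = 0`. `eli`:
`|x| ≤ (2d)! (N Y + C1)^(2d)` (`A ≤ N Y + C1`).

Numbers, all as powers of `H ≥ d + 1 ≥ 3`: `A ≤ H^2`, `1 + A = Z ≤ H^3`, `2 (H+1) ≤ H^2`, `B0 ≤ H^(2d)`,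
`B ≤ H^(2d+1)`, `m = 2 d^2`, `T ≤ H^(m (5 d + 1)) = H^(10 d^3 + 2 d^2)`, `N = d M ≤ 2 d^3 ≤ H^4`,
`Y ≤ H^(2d (10 d^3 + 2 d^2 + 4))`, `S ≤ H^(20 d^4 + 14 d^3 + 2 d^2 + 8 d + 4)`, `2 d ≤ H^2`,
`Δ ≤ H^(2 + d (2 d + 4))`, `Δ^m ≤ H^(4 d^4 + 8 d^3 + 4 d^2)`,
`C1 ≤ H^(24 d^4 + 22 d^3 + 6 d^2 + 11 d + 5) ≤ H^(39 d^4)` (`d ≥ 2`), `N Y + C1 ≤ 2 H^(39 d^4) ≤ H^(40 d^4)`,
`(2d)! ≤ (2d)^(2d) ≤ H^(4d)`, `|x| ≤ H^(80 d^5 + 4 d) ≤ H^(98 d^5)`. (Put the numbers into a private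
lemma with variables for natural numbers, proved by `Nat.pow_le_pow_left/right`, `calc`, `nlinarith`.)
-/

set_option autoImplicit false

namespace Pool.Agent.H15.RX

open Finset Polynomial Pool.Agent.H97.SI

private theorem nm_coeff_le {d H : ℕ} {G : ℤ[X][X]} (hw : TD d G)
    (hc : ∀ i j, |(G.coeff j).coeff i| ≤ (H : ℤ)) (j : ℕ) :
    nm (G.coeff j) ≤ (((d + 1) * H : ℕ) : ℤ) := by
  have h1 : (G.coeff j).natDegree ≤ d := by
    rw [natDegree_le_iff_coeff_eq_zero]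
    intro N hN
    by_contra hcon
    have := hw N j hcon
    omega
  have h2 := nm_le_of h1 fun i => hc i j
  push_cast
  exact h2

private theorem l0_coeff (d : ℕ) (G : ℤ[X][X]) (j : ℕ) :
    (l0 d G).coeff j = if j ≤ d then (G.coeff j).coeff (d - j) else 0 := by
  unfold l0
  rw [finset_sum_coeff]
  simp only [coeff_C_mul_X_pow]
  by_cases hj : j ≤ d
  · rw [if_pos hj, sum_eq_single j]
    · rw [if_pos rfl]
    · intro b _ hb
      rw [if_neg (Ne.symm hb)]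
    · intro hj'
      exact absurd (mem_range.2 (by omega)) hj'
  · rw [if_neg hj]
    refine sum_eq_zero fun b hb => ?_
    rw [if_neg]
    have := mem_range.1 hb
    omega

private theorem l0_monic {d : ℕ} {G : ℤ[X][X]} (hG : G.Monic) (hd : G.natDegree = d) :
    (l0 d G).Monic ∧ (l0 d G).natDegree = d := by
  have h1 : (l0 d G).natDegree ≤ d := by
    rw [natDegree_le_iff_coeff_eq_zero]
    intro N hN
    rw [l0_coeff, if_neg (by omega)]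
  have h2 : (l0 d G).coeff d = 1 := by
    rw [l0_coeff, if_pos le_rfl, Nat.sub_self]
    have h3 : G.coeff d = 1 := by
      rw [← hd]
      exact hG
    rw [h3, coeff_one_zero]
  have h3 : (l0 d G).natDegree = d := natDegree_eq_of_le_of_coeff_ne_zero h1 (by rw [h2]; exact one_ne_zero)
  refine ⟨?_, h3⟩
  rw [Monic, leadingCoeff, h3, h2]

private theorem core {d d1 d2 A B D Z C1 : ℕ} (h1 : 1 ≤ d1) (h2 : 1 ≤ d2) (hd12 : d1 + d2 = d)
    {G : ℤ[X][X]} (hG : G.Monic) (hd : G.natDegree = d) (hw : TD d G)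
    (hGA : ∀ j, nm (G.coeff j) ≤ (A : ℤ))
    (hirr : MIrr (G.map (mapRingHom (Int.castRingHom ℚ)))) {g h : ℤ[X]} (hg : g.Monic)
    (hh : h.Monic) (hgd : g.natDegree = d1) (hhd : h.natDegree = d2)
    (hcop : IsCoprime (g.map (Int.castRingHom ℚ)) (h.map (Int.castRingHom ℚ)))
    (hl : l0 d G = g * h) (hB : nm h ≤ (B : ℤ)) {x w : ℤ} (hx : x ≠ 0) (h0 : evalEval x w G = 0)
    (hZ : 1 ≤ Z) (hz : |(w : ℝ) / x| ≤ (Z : ℝ)) (hD : 1 ≤ (D : ℝ) * |aeval ((w : ℝ) / x) h|)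
    (hC1 : C1 = d * (Nn d * Yy d A B * Tt d A B) * Z ^ d * D ^ mm d)
    (hAC : A ≤ Nn d * Yy d A B + C1) :
    |x| ≤ (((2 * d).factorial * (Nn d * Yy d A B + C1) ^ (2 * d) : ℕ) : ℤ) := by
  have hd0 : 1 ≤ d := by omega
  obtain ⟨hf, hfd⟩ := tl_monic hG hd
  obtain ⟨E, hE⟩ := tl_mod_t d G
  rw [hl] at hE
  have hfA : ∀ j, nm ((tl d G).coeff j) ≤ (A : ℤ) := tl_nm hGA
  obtain ⟨P, hP0, hPd, hPc0, hPT, hPn, hPs, hPm⟩ := phi h1 h2 hd12 hf hfd hfA hg hh hgd hhd hcop hE hB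
  have hxr : (x : ℝ) ≠ 0 := by exact_mod_cast hx
  have hx1 : (1 : ℝ) ≤ |(x : ℝ)| := by
    have : (1 : ℤ) ≤ |x| := Int.one_le_abs hx
    exact_mod_cast this
  have ht : |1 / (x : ℝ)| ≤ 1 := by
    rw [abs_div, abs_one]
    exact div_le_one_of_le₀ hx1 (abs_nonneg _)
  have ht0 : 0 < |1 / (x : ℝ)| := abs_pos.2 (one_div_ne_zero hxr)
  have hft : ee (1 / (x : ℝ)) ((w : ℝ) / x) (tl d G) = 0 := by
    rw [tl_eval hw hx, h0]
    simp
  have hv := val hf hfd hd0 hPm hPs ht hz (by exact_mod_cast hZ) hft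
  rw [tl_eval hPT hx, abs_mul, abs_pow] at hv
  set c : ℤ := evalEval x w P with hc
  set a : ℝ := |aeval ((w : ℝ) / x) h| with ha
  have ha0 : 0 ≤ a := abs_nonneg _
  set m : ℕ := mm d with hm
  have hv2 : a ^ m * |(c : ℝ)| ≤ d * ((Nn d * Yy d A B * Tt d A B : ℕ) : ℝ) * (Z : ℝ) ^ d := by
    have h3 : 0 < |1 / (x : ℝ)| ^ m := pow_pos ht0 m
    have h4 : |1 / (x : ℝ)| ^ m * (a ^ m * |(c : ℝ)|) ≤
        |1 / (x : ℝ)| ^ m * (d * ((Nn d * Yy d A B * Tt d A B : ℕ) : ℝ) * (Z : ℝ) ^ d) := by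
      refine le_of_eq_of_le ?_ hv
      ring
    exact le_of_mul_le_mul_left h4 h3
  have hcC : |(c : ℝ)| ≤ ((C1 : ℕ) : ℝ) := by
    have h3 : 1 ≤ ((D : ℝ) * a) ^ m := one_le_pow₀ hD
    calc |(c : ℝ)| ≤ ((D : ℝ) * a) ^ m * |(c : ℝ)| := le_mul_of_one_le_left (abs_nonneg _) h3
      _ = (D : ℝ) ^ m * (a ^ m * |(c : ℝ)|) := by rw [mul_pow]; ring
      _ ≤ (D : ℝ) ^ m * (d * ((Nn d * Yy d A B * Tt d A B : ℕ) : ℝ) * (Z : ℝ) ^ d) :=
          mul_le_mul_of_nonneg_left hv2 (by positivity)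
      _ = ((C1 : ℕ) : ℝ) := by
          rw [hC1]
          push_cast
          ring
  have hcC' : |c| ≤ ((C1 : ℕ) : ℤ) := by
    exact_mod_cast hcC
  -- the polynomial which vanishes
  have hQ0 : P - C (C c) ≠ 0 := by
    intro hcon
    have h3 : P = C (C c) := sub_eq_zero.1 hcon
    have h4 := hPc0 0
    rw [h3, coeff_C_zero, coeff_C_zero] at h4
    apply hP0
    rw [h3, h4, C_0, C_0]
  have hQd : (P - C (C c)).natDegree < d := by
    refine lt_of_le_of_lt (natDegree_sub_le _ _) ?_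
    rw [natDegree_C]
    exact max_lt hPd (by omega)
  have hQn : ∀ j, nm ((P - C (C c)).coeff j) ≤ ((Nn d * Yy d A B + C1 : ℕ) : ℤ) := by
    intro j
    rw [coeff_sub, sub_eq_add_neg]
    refine (nm_add_le _ _).trans ?_
    rw [nm_neg]
    have h3 : nm ((C (C c) : ℤ[X][X]).coeff j) ≤ (C1 : ℤ) := by
      rw [coeff_C]
      split_ifs
      · rw [nm_C]
        exact hcC'
      · rw [nm_zero]
        positivity
    have h4 := hPn j
    push_cast at h4 ⊢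
    linarith
  have hA1 : 1 ≤ A := by
    have h3 : G.coeff d = 1 := by
      rw [← hd]
      exact hG
    have h4 := hGA d
    rw [h3] at h4
    have h5 := (one_le_nm (one_ne_zero : (1 : ℤ[X]) ≠ 0)).trans h4
    exact_mod_cast h5
  have hQe : evalEval x w (P - C (C c)) = 0 := by
    rw [evalEval_sub, evalEval_C, eval_C, ← hc, sub_self]
  exact eli hG hd hd0 hirr hQ0 hQd (hA1.trans hAC)
    (fun j => (hGA j).trans (by exact_mod_cast hAC)) hQn h0 hQe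

theorem rng {d H : ℕ} (hd2 : 2 ≤ d) (hH : d + 1 ≤ H) {G : ℤ[X][X]} (hG : G.Monic)
    (hd : G.natDegree = d) (hw : TD d G) (hc : ∀ i j, |(G.coeff j).coeff i| ≤ (H : ℤ))
    (hirr : MIrr (G.map (mapRingHom (Int.castRingHom ℚ)))) {P1 P2 : ℚ[X]} (h1 : P1.Monic)
    (h2 : P2.Monic) (hp1 : 0 < P1.natDegree) (hp2 : 0 < P2.natDegree) (hcop : IsCoprime P1 P2)
    (hl : (l0 d G).map (Int.castRingHom ℚ) = P1 * P2) (x w : ℤ) (h0 : evalEval x w G = 0) :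
    |x| ≤ (H : ℤ) ^ (98 * d ^ 5) ∧ |w| ≤ (H : ℤ) ^ (98 * d ^ 5 + 3) := by
  obtain ⟨hm0, hm1⟩ := l0_monic hG hd
  have hl0 : ∀ i, |(l0 d G).coeff i| ≤ (H : ℤ) := by
    intro i
    rw [l0_coeff]
    split_ifs
    · exact hc _ _
    · rw [abs_zero]
      positivity
  obtain ⟨g, h, hg, hh, hgP, hhP, hgh, hgc, hhc⟩ := gau hm0 hl0 h1 h2 hl
  rw [hm1] at hgc hhc
  have hgd : g.natDegree = P1.natDegree := by rw [← hgP, hg.natDegree_map]
  have hhd : h.natDegree = P2.natDegree := by rw [← hhP, hh.natDegree_map]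
  have hd12 : g.natDegree + h.natDegree = d := by
    rw [← hm1, hgh, hg.natDegree_mul hh]
  set A : ℕ := (d + 1) * H with hA
  set B0 : ℕ := (2 * (H + 1)) ^ d with hB0
  set B : ℕ := (d + 1) * B0 with hB
  set Z : ℕ := 1 + A with hZ
  set D : ℕ := 2 * d * (d * B0 * Z) ^ d with hD
  set C1 : ℕ := d * (Nn d * Yy d A B * Tt d A B) * Z ^ d * D ^ mm d with hC1
  obtain ⟨n1, n2, n3⟩ := numbers hd2 hH A B0 B Z D C1 hA hB0 hB hZ hD hC1
  have hGA : ∀ j, nm (G.coeff j) ≤ (A : ℤ) := nm_coeff_le hw hc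
  have hH1 : (1 : ℤ) ≤ H := by
    have : 1 ≤ H := by omega
    exact_mod_cast this
  have hZH : (Z : ℤ) ≤ (H : ℤ) ^ 3 := by exact_mod_cast n1
  by_cases hx : x = 0
  · subst hx
    refine ⟨by rw [abs_zero]; positivity, ?_⟩
    have h3 := int_root_bound hG (by omega) hGA h0
    have h4 : (1 : ℤ) + A = (Z : ℤ) := by
      rw [hZ]
      push_cast
      rfl
    rw [h4] at h3
    exact (h3.trans hZH).trans (pow_le_pow_right₀ hH1 (by omega))
  have hxr : (x : ℝ) ≠ 0 := by exact_mod_cast hx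
  have hx1 : (1 : ℝ) ≤ |(x : ℝ)| := by
    have : (1 : ℤ) ≤ |x| := Int.one_le_abs hx
    exact_mod_cast this
  have ht : |1 / (x : ℝ)| ≤ 1 := by
    rw [abs_div, abs_one]
    exact div_le_one_of_le₀ hx1 (abs_nonneg _)
  obtain ⟨hf, hfd⟩ := tl_monic hG hd
  have hfA : ∀ j, nm ((tl d G).coeff j) ≤ (A : ℤ) := tl_nm hGA
  have hft : ee (1 / (x : ℝ)) ((w : ℝ) / x) (tl d G) = 0 := by
    rw [tl_eval hw hx, h0]
    simp
  have hz : |(w : ℝ) / x| ≤ (Z : ℝ) := by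
    have h3 := root_bound hf (by omega) hfA ht hft
    rw [hZ]
    push_cast
    exact h3
  have hZ1 : 1 ≤ Z := by omega
  have hB01 : 1 ≤ B0 := Nat.one_le_pow _ _ (by omega)
  have hnm : ∀ p : ℤ[X], p.natDegree ≤ d → (∀ i, |p.coeff i| ≤ (B0 : ℤ)) → nm p ≤ (B : ℤ) := by
    intro p hp hpc
    have h3 := nm_le_of hp hpc
    rw [hB]
    push_cast
    exact h3
  have hcop' : IsCoprime (g.map (Int.castRingHom ℚ)) (h.map (Int.castRingHom ℚ)) := by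
    rw [hgP, hhP]
    exact hcop
  have hxb : |x| ≤ (((2 * d).factorial * (Nn d * Yy d A B + C1) ^ (2 * d) : ℕ) : ℤ) := by
    rcases bez_low hg hh rfl rfl (by omega) (by omega) hd12 hcop' hB01 hgc hhc hZ1 hz with h3 | h3
    · exact core (d1 := h.natDegree) (d2 := g.natDegree) (by omega) (by omega) (by omega) hG hd hw
        hGA hirr hh hg rfl rfl hcop'.symm (by rw [hgh, mul_comm]) (hnm g (by omega) hgc) hx h0 hZ1
        hz h3 hC1 n2
    · exact core (d1 := g.natDegree) (d2 := h.natDegree) (by omega) (by omega) (by omega) hG hd hw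
        hGA hirr hg hh rfl rfl hcop' hgh (hnm h (by omega) hhc) hx h0 hZ1 hz h3 hC1 n2
  have hxH : |x| ≤ (H : ℤ) ^ (98 * d ^ 5) := hxb.trans (by exact_mod_cast n3)
  refine ⟨hxH, ?_⟩
  have hwr : |(w : ℝ)| ≤ (Z : ℝ) * |(x : ℝ)| := by
    rw [abs_div, div_le_iff₀ (by linarith)] at hz
    exact hz
  have hwz : |w| ≤ (Z : ℤ) * |x| := by
    exact_mod_cast hwr
  calc |w| ≤ (Z : ℤ) * |x| := hwz
    _ ≤ (H : ℤ) ^ 3 * (H : ℤ) ^ (98 * d ^ 5) := mul_le_mul hZH hxH (abs_nonneg _) (by positivity)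
    _ = (H : ℤ) ^ (98 * d ^ 5 + 3) := by rw [← pow_add, add_comm]

end Pool.Agent.H15.RX
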