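import Pool.Agent.H15.RX.RNG
import Pool.Agent.H15.RX.MON
import Pool.Agent.H47.SP.Defs
import Pool.Agent.H47.SP.RNB

/-!
# RUN: Runge's theorem, explicit exponent `600 n^8`

`runge_x`: as `runge` in `Pool/Agent/H97/RU/RUN.lean`. `K = KM n = (n^2 + 3n + 1)(n + 1)`, `H' = H^K`.
`to_mon_x`: `c ≤ n`, `a ≠ 0`, `G`, `P1`, `P2`, `(x - c y, a y)` is a zero of `G`. `d = natDegree G ≤ n`, `d ≥ 2`
because `natDegree P1 + natDegree P2 = d` (both positive; `lf 1 (G.map ..) = (l0 d G).map ..`: both are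
`∑ C (..) * X^j`, `H37.SI.lf`, the degree of a monic polynomial does not change under `map`).
`TD d G` from the weights `(G.coeff j).natDegree ≤ d - j` (`G.coeff j = 0` for `j > d`). `d + 1 ≤ n + 1 ≤ 2^n ≤ H'`.
`rng`: `|x - c y| ≤ H'^(98 d^5)`, `|a y| ≤ H'^(98 d^5 + 3)`. `|y| ≤ |a y|`, `|x| ≤ |x - c y| + n |y|`
`≤ (n + 1) H'^(98 n^5 + 3) ≤ H^(n + K (98 n^5 + 3))`. `n ≥ 2`: `K ≤ 5 n^3`,
`n + K (98 n^5 + 3) ≤ n + 490 n^8 + 15 n^3 ≤ 600 n^8`.

`run_split_x`: as `run_split` in `Pool/Agent/H47/SP/RNC.lean` (copy its private lemma and proof).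
-/

set_option autoImplicit false

namespace Pool.Agent.H15.RX

open Finset Polynomial Pool.Agent.H97.SI Pool.Agent.H72.ES Pool.Agent.H15.SC Pool.Agent.H47.SP

private theorem KM_le {n : ℕ} (hn : 2 ≤ n) : KM n ≤ 5 * n ^ 3 := by
  have e : KM n = (n ^ 2 + 3 * n + 1) * (n + 1) := rfl
  rw [e]
  obtain ⟨m, rfl⟩ : ∃ m, n = m + 2 := ⟨n - 2, by omega⟩
  ring_nf
  nlinarith [sq_nonneg m, Nat.zero_le (m ^ 3), Nat.zero_le (m ^ 2)]

private theorem num_le {n : ℕ} (hn : 2 ≤ n) : n + KM n * (98 * n ^ 5 + 3) ≤ 600 * n ^ 8 := by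
  have h1 := KM_le hn
  have h2 : KM n * (98 * n ^ 5 + 3) ≤ 5 * n ^ 3 * (98 * n ^ 5 + 3) := Nat.mul_le_mul_right _ h1
  have h3 : n ^ 3 ≤ n ^ 8 := Nat.pow_le_pow_right (by omega) (by norm_num)
  have h4 : n ≤ n ^ 8 := by
    calc n = n ^ 1 := (pow_one n).symm
      _ ≤ n ^ 8 := Nat.pow_le_pow_right (by omega) (by norm_num)
  calc n + KM n * (98 * n ^ 5 + 3) ≤ n + 5 * n ^ 3 * (98 * n ^ 5 + 3) := Nat.add_le_add_left h2 _
    _ = n + 490 * n ^ 8 + 15 * n ^ 3 := by ring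
    _ ≤ n ^ 8 + 490 * n ^ 8 + 15 * n ^ 8 := by omega
    _ ≤ 600 * n ^ 8 := by omega

private theorem le_KM (n : ℕ) : n ≤ KM n := by
  have e : KM n = (n ^ 2 + 3 * n + 1) * (n + 1) := rfl
  rw [e]
  nlinarith [Nat.zero_le (n ^ 2 * n), Nat.zero_le (n ^ 2), Nat.zero_le n]

private theorem lf_eq {d : ℕ} {G : ℤ[X][X]} (hG : G.Monic) (hd : G.natDegree = d) :
    (l0 d G).map (Int.castRingHom ℚ) =
      Pool.Agent.H37.SI.lf 1 (G.map (mapRingHom (Int.castRingHom ℚ))) := by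
  unfold l0 Pool.Agent.H37.SI.lf
  rw [hG.natDegree_map, hd, Polynomial.map_sum]
  refine Finset.sum_congr rfl fun j _ => ?_
  rw [Polynomial.map_mul, Polynomial.map_pow, map_X, map_C, coeff_map, coe_mapRingHom, coeff_map,
    one_mul]

theorem runge_x (n : ℕ) : ∀ (H : ℕ) (F : MvPolynomial (Fin 2) ℤ), 2 ≤ H → F.totalDegree ≤ n →
    (∀ m, |F.coeff m| ≤ (H : ℤ)) → Irreducible (MvPolynomial.map (Int.castRingHom ℚ) F) →
    ∀ (d1 d2 : ℕ) (g h : MvPolynomial (Fin 2) ℚ), g.IsHomogeneous d1 → h.IsHomogeneous d2 →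
    0 < d1 → 0 < d2 → IsRelPrime g h →
    MvPolynomial.homogeneousComponent (d1 + d2) (MvPolynomial.map (Int.castRingHom ℚ) F) = g * h →
    F.totalDegree = d1 + d2 →
    ∀ x y : ℤ, MvPolynomial.eval ![x, y] F = 0 →
      |x| ≤ (H : ℤ) ^ (600 * n ^ 8) ∧ |y| ≤ (H : ℤ) ^ (600 * n ^ 8) := by
  intro H F hH hn hF hirr d1 d2 g h hg hh hd1 hd2 hrel hhom htd x y hxy
  obtain ⟨c, a, G, P1, P2, hc, ha, haH, hGm, hG1, hGn, hGw, hGc, hGi, hP1, hP2, hp1, hp2, hcop, hlf,
    hz⟩ := to_mon_x n H F hH hn hF hirr d1 d2 g h hg hh hd1 hd2 hrel hhom htd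
  have hz1 := hz x y hxy
  obtain ⟨d, hd⟩ : ∃ d, G.natDegree = d := ⟨_, rfl⟩
  rw [hd] at hG1 hGn hGw
  have hHZ : (2 : ℤ) ≤ H := by exact_mod_cast hH
  have hH1 : (1 : ℤ) ≤ H := by linarith
  have hl : (l0 d G).map (Int.castRingHom ℚ) = P1 * P2 := by
    rw [lf_eq hGm hd, hlf]
  have hd2 : 2 ≤ d := by
    have h1 : (P1 * P2).natDegree ≤ d := by
      rw [← hl]
      refine natDegree_map_le.trans ?_
      unfold l0
      refine natDegree_sum_le_of_forall_le _ _ fun j hj => ?_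
      rw [Finset.mem_range] at hj
      exact (natDegree_C_mul_X_pow_le _ _).trans (by omega)
    rw [hP1.natDegree_mul hP2] at h1
    omega
  have hn2 : 2 ≤ n := hd2.trans hGn
  have hw : TD d G := by
    intro i j hij
    have h1 : j ≤ d := by
      by_contra hcon
      apply hij
      rw [coeff_eq_zero_of_natDegree_lt (by omega : G.natDegree < j), coeff_zero]
    have h2 : i ≤ (G.coeff j).natDegree := le_natDegree_of_ne_zero hij
    have h3 := hGw j
    omega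
  have hK := le_KM n
  have hHd : d + 1 ≤ H ^ KM n := by
    calc d + 1 ≤ n + 1 := by omega
      _ ≤ 2 ^ n := Nat.lt_two_pow_self
      _ ≤ H ^ n := Nat.pow_le_pow_left hH n
      _ ≤ H ^ KM n := Nat.pow_le_pow_right (by omega) hK
  obtain ⟨hX, hW⟩ := rng hd2 hHd hGm hd hw hGc hGi hP1 hP2 hp1 hp2 hcop hl (x - c * y) (a * y) hz1
  have hd5 : d ^ 5 ≤ n ^ 5 := Nat.pow_le_pow_left hGn 5
  obtain ⟨E, hE⟩ : ∃ E, E = KM n * (98 * n ^ 5 + 3) := ⟨_, rfl⟩
  have hX' : |x - c * y| ≤ (H : ℤ) ^ E := by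
    refine hX.trans ?_
    rw [Nat.cast_pow, ← pow_mul]
    refine pow_le_pow_right₀ hH1 ?_
    rw [hE]
    exact Nat.mul_le_mul_left _ (by omega)
  have hW' : |a * y| ≤ (H : ℤ) ^ E := by
    refine hW.trans ?_
    rw [Nat.cast_pow, ← pow_mul]
    refine pow_le_pow_right₀ hH1 ?_
    rw [hE]
    exact Nat.mul_le_mul_left _ (by omega)
  have hy : |y| ≤ (H : ℤ) ^ E := by
    refine le_trans ?_ hW'
    rw [abs_mul]
    have h3 : 1 ≤ |a| := Int.one_le_abs ha
    nlinarith [abs_nonneg y]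
  have hfin : n + E ≤ 600 * n ^ 8 := by
    rw [hE]
    exact num_le hn2
  constructor
  · have h3 : |x| ≤ |x - c * y| + n * |y| := by
      have h4 : x = (x - c * y) + c * y := by ring
      have h5 : |x| ≤ |x - c * y| + |c * y| := by
        conv_lhs => rw [h4]
        exact abs_add_le _ _
      have h6 : |(c : ℤ) * y| ≤ n * |y| := by
        rw [abs_mul, Nat.abs_cast]
        refine mul_le_mul_of_nonneg_right ?_ (abs_nonneg _)
        exact_mod_cast hc
      linarith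
    have h4 : ((n : ℤ) + 1) ≤ (H : ℤ) ^ n := by
      have h5 : n + 1 ≤ H ^ n := by
        calc n + 1 ≤ 2 ^ n := Nat.lt_two_pow_self
          _ ≤ H ^ n := Nat.pow_le_pow_left hH n
      exact_mod_cast h5
    have hE0 : (0 : ℤ) ≤ (H : ℤ) ^ E := by positivity
    calc |x| ≤ |x - c * y| + n * |y| := h3
      _ ≤ (H : ℤ) ^ E + n * (H : ℤ) ^ E := by
          have := mul_le_mul_of_nonneg_left hy (by positivity : (0 : ℤ) ≤ (n : ℤ))
          linarith
      _ = ((n : ℤ) + 1) * (H : ℤ) ^ E := by ring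
      _ ≤ (H : ℤ) ^ n * (H : ℤ) ^ E := mul_le_mul_of_nonneg_right h4 hE0
      _ = (H : ℤ) ^ (n + E) := by rw [pow_add]
      _ ≤ (H : ℤ) ^ (600 * n ^ 8) := pow_le_pow_right₀ hH1 hfin
  · exact hy.trans (pow_le_pow_right₀ hH1 (by omega))

private theorem top_ld {n : ℕ} (F : MP) :
    MvPolynomial.homogeneousComponent n (MvPolynomial.map (Int.castRingHom ℚ) F) =
      fm ℚ n ((ld n F).map (Int.castRingHom ℚ)).coeff := by
  classical
  ext m
  rw [MvPolynomial.coeff_homogeneousComponent, MvPolynomial.coeff_map]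
  unfold fm
  rw [MvPolynomial.coeff_sum]
  simp only [MvPolynomial.coeff_monomial]
  have hdeg : m.degree = m 0 + m 1 := ex_deg m
  have hex : ∀ i j, Pool.Agent.H8.NoPt.expo i j = ex i j := fun i j => rfl
  by_cases h : m.degree = n
  · rw [if_pos h]
    have h1 : m 0 + m 1 = n := by rw [← hdeg, h]
    have e1 : ex (n - m 1) (m 1) = m := by
      have : n - m 1 = m 0 := by omega
      rw [this, ex_eta]
    rw [sum_eq_single (m 1)]
    · rw [hex, if_pos e1, Polynomial.coeff_map, ld_coeff F (m 1) (by omega)]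
      show _ = (Int.castRingHom ℚ) (F.coeff (ex (n - m 1) (m 1)))
      rw [e1]
    · intro j _ hj
      refine if_neg fun h2 => hj ?_
      rw [← e1] at h2
      exact (Pool.Agent.H8.NoPt.mv_expo_inj h2).2
    · intro h2
      exact absurd (mem_range.2 (by omega)) h2
  · rw [if_neg h]
    symm
    refine sum_eq_zero fun j hj => if_neg fun h2 => h ?_
    have h1 := mem_range.1 hj
    rw [hdeg, ← h2, Pool.Agent.H8.NoPt.mv_expo_zero, Pool.Agent.H8.NoPt.mv_expo_one]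
    omega

theorem run_split_x (n : ℕ) : ∀ (H : ℕ) (F : MP), 2 ≤ H → InBox n H F → IrrQ F →
    Split n (ld n F) → ∀ x y : ℤ, MvPolynomial.eval ![x, y] F = 0 →
      max |x| |y| ≤ (H : ℤ) ^ (600 * n ^ 8) := by
  intro H F hH hF hI hS x y hxy
  obtain ⟨k, l, A, B, hk, hl, hkl, hA, hB, hcop, hprod⟩ := hS
  have hB0 : B ≠ 0 := by
    rintro rfl
    rw [natDegree_zero] at hB
    omega
  have hA0 : A ≠ 0 := by
    rintro rfl
    rw [isCoprime_zero_left] at hcop
    have := natDegree_eq_zero_of_isUnit hcop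
    omega
  have hld : ld n F ≠ 0 := by
    intro h0
    rw [h0, Polynomial.map_zero] at hprod
    exact mul_ne_zero hA0 hB0 hprod.symm
  have htd : F.totalDegree = k + l := by
    refine le_antisymm (by rw [hkl]; exact hF.deg) ?_
    obtain ⟨j, hj⟩ : ∃ j, (ld n F).coeff j ≠ 0 := by
      by_contra hcon
      push Not at hcon
      exact hld (Polynomial.ext fun j => by rw [hcon, coeff_zero])
    have hjn : j ≤ n := by
      by_contra hcon
      exact hj (ld_coeff_big F j (by omega))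
    rw [ld_coeff F j hjn] at hj
    have h3 := MvPolynomial.le_totalDegree (MvPolynomial.mem_support_iff.2 hj)
    have h4 : ((ex (n - j) j).sum fun _ e => e) = (n - j) + j := by
      have h5 := ex_deg (ex (n - j) j)
      rw [ex_zero, ex_one] at h5
      rw [← h5]
      rfl
    rw [h4] at h3
    omega
  have htop : MvPolynomial.homogeneousComponent (k + l)
      (MvPolynomial.map (Int.castRingHom ℚ) F) = fm ℚ k A.coeff * fm ℚ l B.coeff := by
    rw [← fm_mul hA hB.le, ← hprod, hkl]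
    exact top_ld F
  obtain ⟨h1, h2⟩ := runge_x n H F hH hF.deg hF.bd hI k l _ _ (fm_hom k _) (fm_hom l _) hk hl
    (fm_rel hA hB hB0 hcop) htop htd x y hxy
  exact max_le h1 h2

end Pool.Agent.H15.RX
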