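import Mathlib

/-!
# SIE: Siegel's lemma for an integer matrix of rank at most `r`

Let `s : Set (β → ℚ)` be the set of the rows over `ℚ`, `k = finrank (span s)` = the rank
(`Matrix.rank_eq_finrank_span_row`), `k ≤ r`. `Submodule.exists_fun_fin_finrank_span_eq` (Mathlib,
`LinearAlgebra/Dimension/StrongRankCondition`) gives `k` rows with the same span; choose indices
`c : Fin k → α` of these rows. If `k = 0` all rows are zero: take `p = Pi.single b 1` (`β` is not empty).
If `0 < k`: `Int.Matrix.exists_ne_zero_int_vec_norm_le` (Mathlib, `NumberTheory/SiegelsLemma`) for the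
matrix `fun i b => M (c i) b`: `p ≠ 0`, orthogonal to the rows `c i`, so (over `ℚ`) to their span, so to
all rows; `‖p‖ ≤ (N max(1, ‖A‖))^(k/(N-k)) ≤ (N T)^e`, because `N T ≥ 1` and `k/(N-k) ≤ r/(N-r) ≤ e`
(`Real.rpow_le_rpow_of_exponent_le`, `Real.rpow_natCast`).
-/

set_option autoImplicit false

namespace Pool.Agent.H15.RX

open Finset

theorem siegel_rank {α β : Type} [Fintype α] [Fintype β] [DecidableEq α] [DecidableEq β]
    (M : Matrix α β ℤ) (r e T : ℕ) (hT : 1 ≤ T) (hM : ∀ a b, |M a b| ≤ (T : ℤ))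
    (hr : (M.map (fun z : ℤ => (z : ℚ))).rank ≤ r) (hN : r < Fintype.card β)
    (he : r ≤ e * (Fintype.card β - r)) :
    ∃ p : β → ℤ, p ≠ 0 ∧ (∀ a, ∑ b, M a b * p b = 0) ∧
      ∀ b, |p b| ≤ (((Fintype.card β * T) ^ e : ℕ) : ℤ) := by
  classical
  have hNT : 1 ≤ Fintype.card β * T := Nat.mul_pos (by omega) hT
  obtain ⟨f, hf1, hf2, hf3⟩ := Submodule.exists_fun_fin_finrank_span_eq ℚ
    (Set.range (M.map (fun z : ℤ => (z : ℚ))).row)
  have hk : Module.finrank ℚ (Submodule.span ℚ (Set.range (M.map (fun z : ℤ => (z : ℚ))).row)) ≤ r := by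
    rw [← Matrix.rank_eq_finrank_span_row]
    exact hr
  choose c hc using hf1
  -- orthogonality to the chosen rows suffices
  have horth : ∀ p : β → ℤ, (∀ i, ∑ b, M (c i) b * p b = 0) → ∀ a, ∑ b, M a b * p b = 0 := by
    intro p hp a
    obtain ⟨φ, hφ⟩ : ∃ φ : (β → ℚ) →ₗ[ℚ] ℚ, ∀ v, φ v = ∑ b, v b * (p b : ℚ) :=
      ⟨{ toFun := fun v => ∑ b, v b * (p b : ℚ)
         map_add' := fun x y => by
           simp only [Pi.add_apply, add_mul, Finset.sum_add_distrib]
         map_smul' := fun t x => by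
           simp only [Pi.smul_apply, smul_eq_mul, mul_assoc, Finset.mul_sum, RingHom.id_apply] },
        fun v => rfl⟩
    have h1 : Submodule.span ℚ (Set.range f) ≤ LinearMap.ker φ := by
      rw [Submodule.span_le]
      rintro _ ⟨i, rfl⟩
      show φ (f i) = 0
      rw [hφ, ← hc i]
      have h2 := congrArg (fun z : ℤ => (z : ℚ)) (hp i)
      simp only [Int.cast_sum, Int.cast_mul, Int.cast_zero] at h2
      exact h2
    have h3 : (M.map (fun z : ℤ => (z : ℚ))).row a ∈ Submodule.span ℚ (Set.range f) := by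
      rw [hf2]
      exact Submodule.subset_span ⟨a, rfl⟩
    have h4 : φ ((M.map (fun z : ℤ => (z : ℚ))).row a) = 0 := h1 h3
    rw [hφ] at h4
    have h5 : ((∑ b, M a b * p b : ℤ) : ℚ) = 0 := by
      rw [← h4]
      push_cast
      rfl
    exact_mod_cast h5
  rcases Nat.eq_zero_or_pos
    (Module.finrank ℚ (Submodule.span ℚ (Set.range (M.map (fun z : ℤ => (z : ℚ))).row))) with h0 | h0
  · obtain ⟨b0⟩ : Nonempty β := Fintype.card_pos_iff.1 (by omega)
    refine ⟨Pi.single b0 1, ?_, horth _ fun i => absurd i.isLt (by omega), fun b => ?_⟩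
    · intro h
      have := congrFun h b0
      simp at this
    · have h1 : |(Pi.single b0 1 : β → ℤ) b| ≤ 1 := by
        by_cases hb : b = b0
        · subst hb
          simp
        · rw [Pi.single_eq_of_ne hb]
          simp
      refine h1.trans ?_
      exact_mod_cast Nat.one_le_pow _ _ hNT
  · obtain ⟨p, hp0, hp1, hp2⟩ := Int.Matrix.exists_ne_zero_int_vec_norm_le
      (Matrix.of fun i b => M (c i) b) (by rw [Fintype.card_fin]; omega)
      (by rw [Fintype.card_fin]; exact h0)
    rw [Fintype.card_fin] at hp2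
    refine ⟨p, hp0, horth p fun i => congrFun hp1 i, fun b => ?_⟩
    have hT1 : (1 : ℝ) ≤ T := by exact_mod_cast hT
    have hp3 := hp2.trans (Real.rpow_le_rpow (z := ((Module.finrank ℚ (Submodule.span ℚ
        (Set.range (M.map (fun z : ℤ => (z : ℚ))).row)) : ℕ) : ℝ) / ((Fintype.card β : ℝ) -
        ((Module.finrank ℚ (Submodule.span ℚ
        (Set.range (M.map (fun z : ℤ => (z : ℚ))).row)) : ℕ) : ℝ)))
        (y := (Fintype.card β : ℝ) * T) (by positivity) (by
          refine mul_le_mul_of_nonneg_left (max_le hT1 ?_) (by positivity)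
          refine (Matrix.norm_le_iff (by positivity)).2 fun i j => ?_
          rw [Matrix.of_apply, Int.norm_eq_abs]
          exact_mod_cast hM (c i) j) (div_nonneg (by positivity) (by
            rw [sub_nonneg]
            exact_mod_cast (by omega))))
    obtain ⟨k, hkd⟩ : ∃ k, k = Module.finrank ℚ
      (Submodule.span ℚ (Set.range (M.map (fun z : ℤ => (z : ℚ))).row)) := ⟨_, rfl⟩
    rw [← hkd] at hp3 hk
    have hkN : (0 : ℝ) < (Fintype.card β : ℝ) - k := by
      have : (k : ℝ) < Fintype.card β := by exact_mod_cast (by omega : k < Fintype.card β)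
      linarith
    have hNT1 : (1 : ℝ) ≤ (Fintype.card β : ℝ) * T := by exact_mod_cast hNT
    have h1 : ‖p‖ ≤ ((Fintype.card β : ℝ) * T) ^ e := by
      refine hp3.trans ?_
      rw [← Real.rpow_natCast]
      refine Real.rpow_le_rpow_of_exponent_le hNT1 ?_
      rw [div_le_iff₀ hkN]
      have h2 : k ≤ e * (Fintype.card β - k) :=
        (hk.trans he).trans (Nat.mul_le_mul_left _ (by omega))
      have h3 : (k : ℝ) ≤ (e * (Fintype.card β - k) : ℕ) := by exact_mod_cast h2
      rw [Nat.cast_mul, Nat.cast_sub (by omega)] at h3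
      exact h3
    have h4 : ‖p b‖ ≤ ((Fintype.card β : ℝ) * T) ^ e := (norm_le_pi_norm p b).trans h1
    rw [Int.norm_eq_abs] at h4
    exact_mod_cast h4

end Pool.Agent.H15.RX
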