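import Pool.Agent.H15.FX.TOP
import Pool.Agent.H15.RX.RUN
import Pool.Agent.H15.RX.HOM
import Pool.Agent.H15.RX.GRX
import Pool.Agent.H45.SU.UC

/-!
# TOP: the exceptional sets in every grid, with the exponent `5300000 n^8`

`star_x`: at most `39 (n+1)^5 s^(4n-2)` irreducible polynomials of a grid, whose leading form is not
`c q^j`, `j ≥ 2`, `q` irreducible, have an integer zero larger than `H^(5300000 n^8)`. `size_x`: at most
`N^(3N) s^max(N - ⌈n/2⌉, 4n - 2)` polynomials of the grid in all.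
-/

set_option autoImplicit false

namespace Pool.Agent.H15.RX

open Finset Polynomial Pool.Agent.H72.ES Pool.Agent.H47.SP Pool.Agent.H15.FX Pool.Agent.H45.SU

/-- the leading form is not `c q^j`, `j ≥ 2`, `q` irreducible over `ℚ` -/
def NoPow (F : MP) : Prop :=
  ∀ (q : MvPolynomial (Fin 2) ℚ) (c : ℚ) (j : ℕ), Irreducible q → 2 ≤ j →
    MvPolynomial.map (Int.castRingHom ℚ) (MvPolynomial.homogeneousComponent F.totalDegree F) ≠
      MvPolynomial.C c * q ^ j

theorem map_hc (k : ℕ) (F : MP) :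
    MvPolynomial.map (Int.castRingHom ℚ) (MvPolynomial.homogeneousComponent k F) =
      MvPolynomial.homogeneousComponent k (MvPolynomial.map (Int.castRingHom ℚ) F) := by
  ext m
  rw [MvPolynomial.coeff_map, MvPolynomial.coeff_homogeneousComponent,
    MvPolynomial.coeff_homogeneousComponent, MvPolynomial.coeff_map]
  split_ifs
  · rfl
  · exact map_zero _

theorem hc_ne {F : MP} (h : 1 ≤ F.totalDegree) :
    MvPolynomial.homogeneousComponent F.totalDegree F ≠ 0 := by
  have hF0 : F ≠ 0 := by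
    rintro rfl
    rw [MvPolynomial.totalDegree_zero] at h
    omega
  obtain ⟨m, hm, hm2⟩ := Finset.exists_mem_eq_sup F.support
    (MvPolynomial.support_nonempty.2 hF0) (fun s => s.sum fun _ e => e)
  have h1 : F.totalDegree = m.sum fun _ e => e := hm2
  intro h0
  have h2 := congrArg (MvPolynomial.coeff m) h0
  rw [MvPolynomial.coeff_homogeneousComponent, MvPolynomial.coeff_zero, if_pos] at h2
  · exact MvPolynomial.mem_support_iff.1 hm h2
  · rw [h1]
    rfl

theorem star_x {n : ℕ} (hn : 3 ≤ n) (A : ℕ → ℕ → Finset ℤ) (s : ℕ)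
    (hA : ∀ i j, (A i j).card ≤ s) (S : Finset MP)
    (hS : ∀ F ∈ S, F.totalDegree ≤ n ∧ (∀ i j, i + j ≤ n → arrM F i j ∈ A i j) ∧ IrrQ F ∧
      NoPow F ∧ BigE (5300000 * n ^ 8) F) : S.card ≤ 39 * (n + 1) ^ 5 * s ^ (4 * n - 2) := by
  classical
  rcases Nat.eq_zero_or_pos s with hs | hs
  · have hemp : S = ∅ := by
      apply eq_empty_of_forall_notMem
      intro F hF
      have h1 := (hS F hF).2.1 0 0 (by omega)
      have h2 := hA 0 0
      rw [hs] at h2
      have h3 : A 0 0 = ∅ := card_eq_zero.1 (by omega)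
      rw [h3] at h1
      exact absurd h1 (notMem_empty _)
    rw [hemp]
    simp
  have hn4 : 1 ≤ 39 * n ^ 4 := by
    have : 1 ≤ n ^ 4 := Nat.one_le_pow _ _ (by omega)
    omega
  have hpart : ∀ m ∈ range (n + 1), (S.filter fun F => F.totalDegree = m).card ≤
      39 * n ^ 4 * s ^ (4 * n - 2) := by
    intro m hm
    have hmn : m ≤ n := by
      have := mem_range.1 hm
      omega
    rcases Nat.lt_or_ge m 4 with h4 | h4
    · have h1 := key_count {0, 1, 2, 3} A s 1 hA (S.filter fun F => F.totalDegree = m) ?_ ?_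
      · have e : ∑ d ∈ ({0, 1, 2, 3} : Finset ℕ), (d + 1) = 10 := by decide
        rw [e, one_mul] at h1
        refine h1.trans ?_
        calc s ^ 10 ≤ s ^ (4 * n - 2) := Nat.pow_le_pow_right hs (by omega)
          _ = 1 * s ^ (4 * n - 2) := (one_mul _).symm
          _ ≤ _ := Nat.mul_le_mul_right _ hn4
      · intro F hF i j hij
        refine (hS F (mem_filter.1 hF).1).2.1 i j ?_
        simp only [mem_insert, mem_singleton] at hij
        omega
      · intro T hT hag
        rw [card_le_one]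
        intro F hF G hG
        apply arrM_inj
        funext i j
        have hFd := (mem_filter.1 (hT hF)).2
        have hGd := (mem_filter.1 (hT hG)).2
        by_cases h : i + j ≤ 3
        · refine hag F hF G hG i j ?_
          simp only [mem_insert, mem_singleton]
          omega
        · rw [arrM_supp (n := 3) (by omega) i j (by omega),
            arrM_supp (n := 3) (by omega) i j (by omega)]
    · have hmem : ∀ F ∈ S.filter (fun F => F.totalDegree = m), Cnd m F ∧
          ∀ i j, i + j ≤ m → arrM F i j ∈ A i j := by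
        intro F hF
        obtain ⟨hFS, hFd⟩ := mem_filter.1 hF
        obtain ⟨h1, h2, h3, h5, H, hH, hb, x, y, hxy, h0⟩ := hS F hFS
        have hH1 : (1 : ℤ) ≤ H := by exact_mod_cast (by omega : 1 ≤ H)
        have h8 : m ^ 8 ≤ n ^ 8 := Nat.pow_le_pow_left hmn 8
        have h6 : m ^ 6 ≤ n ^ 8 := (Nat.pow_le_pow_left hmn 6).trans
          (Nat.pow_le_pow_right (by omega) (by norm_num))
        refine ⟨⟨hFd.le, ?_, H, hH, hb, x, y, ?_, h0⟩, fun i j hij => h2 i j (by omega)⟩
        · have hLm : (MvPolynomial.map (Int.castRingHom ℚ)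
              (MvPolynomial.homogeneousComponent F.totalDegree F)).IsHomogeneous m := by
            rw [hFd]
            exact (MvPolynomial.homogeneousComponent_isHomogeneous m F).map _
          have hL0 : MvPolynomial.map (Int.castRingHom ℚ)
              (MvPolynomial.homogeneousComponent F.totalDegree F) ≠ 0 := by
            intro h7
            refine hc_ne (F := F) (by omega) ?_
            exact MvPolynomial.map_injective _ (RingHom.injective_int _)
              (by rw [h7, map_zero])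
          rcases kinds hLm (by omega) hL0 h5 with h7 | ⟨d1, d2, P, Q, hP, hQ, hd1, hd2, hPQ, hE, hd⟩
          · rw [hFd] at h7
            exact leadQ_of_irreducible (by omega) h7
          · exfalso
            rw [map_hc] at hE
            have h9 := runge_x m H F hH hFd.le hb h3 d1 d2 P Q hP hQ hd1 hd2 hPQ
              (by rw [← hE, hFd, hd]) (by omega) x y h0
            have h10 : (H : ℤ) ^ (600 * m ^ 8) ≤ (H : ℤ) ^ (5300000 * n ^ 8) :=
              pow_le_pow_right₀ hH1 (by omega)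
            exact absurd (hxy.trans_le ((max_le h9.1 h9.2).trans h10)) (lt_irrefl _)
        · refine lt_of_le_of_lt ?_ hxy
          exact pow_le_pow_right₀ hH1 (by omega)
      have h1 := irr_count h4 A s hA _ hmem
      refine h1.trans ?_
      have h2 : m ^ 4 ≤ n ^ 4 := Nat.pow_le_pow_left hmn 4
      exact Nat.mul_le_mul (Nat.mul_le_mul_left _ h2) (Nat.pow_le_pow_right hs (by omega))
  have hsub : S ⊆ (range (n + 1)).biUnion fun m => S.filter fun F => F.totalDegree = m := by
    intro F hF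
    rw [mem_biUnion]
    refine ⟨F.totalDegree, ?_, mem_filter.2 ⟨hF, rfl⟩⟩
    rw [mem_range]
    have := (hS F hF).1
    omega
  calc S.card ≤ _ := card_le_card hsub
    _ ≤ ∑ m ∈ range (n + 1), (S.filter fun F => F.totalDegree = m).card := card_biUnion_le
    _ ≤ ∑ m ∈ range (n + 1), 39 * n ^ 4 * s ^ (4 * n - 2) := sum_le_sum hpart
    _ = 39 * ((n + 1) * n ^ 4) * s ^ (4 * n - 2) := by
      rw [sum_const, card_range, smul_eq_mul]
      ring
    _ ≤ 39 * (n + 1) ^ 5 * s ^ (4 * n - 2) := by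
      refine Nat.mul_le_mul_right _ (Nat.mul_le_mul_left _ ?_)
      calc (n + 1) * n ^ 4 ≤ (n + 1) * (n + 1) ^ 4 :=
            Nat.mul_le_mul_left _ (Nat.pow_le_pow_left (by omega) 4)
        _ = (n + 1) ^ 5 := by ring

/-- the constant -/
theorem const_le {n : ℕ} (hn : 4 ≤ n) :
    1 + (n * (NN n * 2 + 1) ^ NN n + ((n + 1) * (n / 2 + 1) * (NN n * (1 + n) + 1) ^ NN n +
      39 * n ^ 4)) ≤ NN n ^ (3 * NN n) := by
  have h1 := nn_two n
  obtain ⟨N, hN⟩ : ∃ N, N = NN n := ⟨_, rfl⟩
  rw [← hN] at h1 ⊢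
  have hn1 : 3 * (n + 1) ≤ N := by nlinarith
  have hN15 : 15 ≤ N := by omega
  have h2 : (N * 2 + 1) ^ N ≤ N ^ (2 * N) := by
    rw [pow_mul]
    refine Nat.pow_le_pow_left ?_ N
    nlinarith
  have h3 : (N * (1 + n) + 1) ^ N ≤ N ^ (2 * N) := by
    rw [pow_mul]
    refine Nat.pow_le_pow_left ?_ N
    nlinarith
  have h4 : 1 ≤ N ^ (2 * N) := Nat.one_le_pow _ _ (by omega)
  obtain ⟨Y, hY⟩ : ∃ Y, Y = N ^ (2 * N) := ⟨_, rfl⟩
  rw [← hY] at h2 h3 h4
  have h5 : (n + 1) * (n / 2 + 1) ≤ N * N := Nat.mul_le_mul (by omega) (by omega)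
  have h6 : n ^ 4 ≤ N ^ 4 := Nat.pow_le_pow_left (by omega) 4
  calc 1 + (n * (N * 2 + 1) ^ N + ((n + 1) * (n / 2 + 1) * (N * (1 + n) + 1) ^ N + 39 * n ^ 4))
      ≤ Y + (N * Y + (N * N * Y + 39 * N ^ 4 * Y)) := by
        refine Nat.add_le_add h4 (Nat.add_le_add (Nat.mul_le_mul (by omega) h2)
          (Nat.add_le_add (Nat.mul_le_mul h5 h3) ?_))
        calc 39 * n ^ 4 ≤ 39 * N ^ 4 := Nat.mul_le_mul_left _ h6
          _ ≤ 39 * N ^ 4 * Y := Nat.le_mul_of_pos_right _ h4
    _ = (1 + N + N * N + 39 * N ^ 4) * Y := by ring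
    _ ≤ N ^ 6 * Y := by
        refine Nat.mul_le_mul_right _ ?_
        have h7 : N ^ 6 = N ^ 4 * (N * N) := by ring
        have h8 : 225 ≤ N * N := Nat.mul_le_mul hN15 hN15
        have h9 : N ^ 4 = N * N * (N * N) := by ring
        have h10 : N * N ≤ N ^ 4 := by
          rw [h9]
          exact Nat.le_mul_of_pos_right _ (by omega)
        have h11 : N ≤ N * N := Nat.le_mul_of_pos_right _ (by omega)
        rw [h7]
        have h12 : N ^ 4 * 225 ≤ N ^ 4 * (N * N) := Nat.mul_le_mul_left _ h8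
        omega
    _ = N ^ (6 + 2 * N) := by rw [hY, pow_add]
    _ ≤ N ^ (3 * N) := Nat.pow_le_pow_right (by omega) (by omega)

theorem size_x {n : ℕ} (hn : 4 ≤ n) (s : ℕ) (hs : 1 ≤ s)
    (A : Mon n → Finset ℤ) (hA : ∀ m, (A m).card ≤ s) (S : Finset MP)
    (hS : ∀ F ∈ S, InA A F) (hbad : ∀ F ∈ S, Bad (5300000 * n ^ 8) F) :
    S.card ≤ NN n ^ (3 * NN n) * s ^ max (NN n - (n + 1) / 2) (4 * n - 2) := by
  classical
  have g2 : n + 1 ≤ NN n := by
    have h1 := nn_two n
    nlinarith
  set D := s ^ max (NN n - (n + 1) / 2) (4 * n - 2) with hD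
  have hpw : ∀ e, e ≤ max (NN n - (n + 1) / 2) (4 * n - 2) → s ^ e ≤ D := fun e he =>
    Nat.pow_le_pow_right hs he
  have hm1 : NN n - (n + 1) / 2 ≤ max (NN n - (n + 1) / 2) (4 * n - 2) := le_max_left _ _
  have hm2 : 4 * n - 2 ≤ max (NN n - (n + 1) / 2) (4 * n - 2) := le_max_right _ _
  set S0 := S.filter fun F => (ld n F).natDegree = 0 with hS0
  set S1 := S.filter fun F => ld n F ≠ 0 ∧ ¬ IrrQ F with hS1
  set S2 := S.filter fun F => (ld n F).natDegree = n ∧ Pow (ld n F) with hS2
  set S3 := S.filter fun F => (ld n F).natDegree = n ∧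
    Irreducible ((ld n F).map (Int.castRingHom ℚ)) with hS3
  have hsub : S ⊆ S0 ∪ S1 ∪ S2 ∪ S3 := by
    intro F hF
    simp only [mem_union, hS0, hS1, hS2, hS3, mem_filter]
    rcases cls (by omega : 1 ≤ n) (ld n F) (ld_deg F) with h | h | ⟨h, h' | h'⟩
    · exact Or.inl (Or.inl (Or.inl ⟨hF, h⟩))
    · by_cases h0 : (ld n F).natDegree = 0
      · exact Or.inl (Or.inl (Or.inl ⟨hF, h0⟩))
      have h0' : ld n F ≠ 0 := by
        intro h1
        exact h0 (by rw [h1, natDegree_zero])
      by_cases h1 : IrrQ F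
      · exfalso
        obtain ⟨H, hH, hc, P, hP, hbig⟩ := hbad F hF
        have h2 := run_split_x n H F hH ⟨(hS F hF).1, hc⟩ h1 h P.1 P.2 hP
        have h3 : (H : ℤ) ^ (600 * n ^ 8) ≤ (H : ℤ) ^ (5300000 * n ^ 8) :=
          pow_le_pow_right₀ (by exact_mod_cast (by omega : 1 ≤ H)) (by omega)
        exact absurd (hbig.trans_le (h2.trans h3)) (lt_irrefl _)
      · exact Or.inl (Or.inl (Or.inr ⟨hF, h0', h1⟩))
    · exact Or.inr ⟨hF, h, h'⟩
    · exact Or.inl (Or.inr ⟨hF, h, h'⟩)
  have c0 : S0.card ≤ D := (uz s A hA S0 (fun F hF => hS F (mem_filter.1 hF).1)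
    fun F hF => (mem_filter.1 hF).2).trans (hpw _ (by omega))
  obtain ⟨C1, hC1⟩ : ∃ C1, C1 = n * (NN n * 2 + 1) ^ NN n := ⟨_, rfl⟩
  obtain ⟨C2, hC2⟩ : ∃ C2, C2 = (n + 1) * (n / 2 + 1) * (NN n * (1 + n) + 1) ^ NN n := ⟨_, rfl⟩
  have c1 : S1.card ≤ C1 * D := by
    rw [hC1]
    exact (ur_x (by omega) s hs A hA S1 (fun F hF => hS F (mem_filter.1 hF).1)
      fun F hF => (mem_filter.1 hF).2).trans (Nat.mul_le_mul_left _ (hpw _ (by omega)))
  have c2 : S2.card ≤ C2 * D := by
    rw [hC2]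
    exact (up_x (by omega) s hs A hA S2 (fun F hF => hS F (mem_filter.1 hF).1)
      fun F hF => (mem_filter.1 hF).2).trans (Nat.mul_le_mul_left _ (hpw _ hm1))
  have c3 : S3.card ≤ 39 * n ^ 4 * D := by
    set A' : ℕ → ℕ → Finset ℤ := fun i j => if h : i + j ≤ n then A (mo i j h) else ∅ with hA'
    refine (irr_count hn A' s ?_ S3 ?_).trans (Nat.mul_le_mul_left _ (hpw _ hm2))
    · intro i j
      simp only [hA']
      split_ifs
      · exact hA _
      · rw [card_empty]
        exact Nat.zero_le _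
    · intro F hF
      obtain ⟨hFS, h1, h2⟩ := mem_filter.1 hF
      obtain ⟨H, hH, hc, P, hP, hbig⟩ := hbad F hFS
      refine ⟨⟨(hS F hFS).1, irL_of (by omega) h1 h2, H, hH, hc, P.1, P.2, ?_, hP⟩, ?_⟩
      · refine lt_of_le_of_lt ?_ hbig
        refine pow_le_pow_right₀ (by exact_mod_cast (by omega : 1 ≤ H)) ?_
        exact Nat.mul_le_mul_left _ (Nat.pow_le_pow_right (by omega) (by norm_num))
      · intro i j hij
        have h3 := Fintype.mem_piFinset.1 (hS F hFS).2 (mo i j hij)
        simp only [hA', dif_pos hij]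
        have h4 : vec n F (mo i j hij) = arrM F i j := by
          have h5 := arr_eq (vec n F) i j hij
          rw [← h5, arr_vec (hS F hFS).1]
        rwa [h4] at h3
  have h5 : S.card ≤ S0.card + S1.card + S2.card + S3.card := by
    refine (card_le_card hsub).trans ?_
    refine (card_union_le _ _).trans (Nat.add_le_add_right ?_ _)
    refine (card_union_le _ _).trans (Nat.add_le_add_right ?_ _)
    exact card_union_le _ _
  calc S.card ≤ S0.card + S1.card + S2.card + S3.card := h5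
    _ ≤ D + C1 * D + C2 * D + 39 * n ^ 4 * D := by gcongr
    _ = (1 + (C1 + (C2 + 39 * n ^ 4))) * D := by ring
    _ ≤ NN n ^ (3 * NN n) * D := by
      refine Nat.mul_le_mul_right _ ?_
      rw [hC1, hC2]
      exact const_le hn

end Pool.Agent.H15.RX
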